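import Pool.Agent.W_4b1b5d_h66.SHDefs
import Pool.Agent.W_4b1b5d_h78.Top
import Pool.Agent.W_4b1b5d_h78.PropW

set_option autoImplicit false

namespace Pool.W4b1b5d.SH

open Pool.W4b1b5d.H3 Pool.W4b1b5d.E Polynomial

theorem fall_zero (s : ℤ) : fall s 0 = 1 := by
  simp [fall]

theorem fall_one (s : ℤ) : fall s 1 = s := by
  simp [fall]

/-- `R_Y` in the variable `w = 1/Y`. -/
theorem Inst_QW (I : ID) (M : ℕ) (h : ℝ) (x : V2) {Y : ℂ} (hY : Y ≠ 0) :
    LB M (Bt I h) 1 x Y = Y ^ ((M : ℤ) - 1) * (QW I M h x).eval (Y⁻¹) := by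
  unfold LB Lk QW
  rw [eval_finsetSum, ← Finset.sum_range_reflect, Finset.mul_sum]
  refine Finset.sum_congr rfl fun t ht => ?_
  have ht' : t ≤ 2 * M := by
    have := Finset.mem_range.mp ht
    omega
  have e1 : ((2 * M + 1 - 1 - t : ℕ) : ℤ) - M = M - t := by omega
  simp only [e1, fall_one, eval_mul, eval_C, eval_pow, eval_X]
  have e3 : Y ^ ((M : ℤ) - t - ((1 : ℕ) : ℤ)) = Y ^ ((M : ℤ) - 1) * (Y⁻¹) ^ t := by
    rw [inv_pow, ← zpow_natCast, ← zpow_neg, ← zpow_add₀ hY]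
    congr 1
    push_cast
    ring
  rw [e3]
  push_cast
  ring

/-- `dd R` in the variable `w = 1/Y`. -/
theorem Inst_NW (I : ID) (M : ℕ) (h : ℝ) (a : ℂ) (htop : ∀ x, Bt I h M x = a) (x : V2) {Y : ℂ}
    (hY : Y ≠ 0) :
    LB M (fun k => dd I.al (Bt I h k)) 0 x Y
      = Y ^ ((M : ℤ) - 1) * (NW I M h x).eval (Y⁻¹) := by
  have h0 : dd I.al (Bt I h (M : ℤ)) x = 0 := by
    have : Bt I h (M : ℤ) = fun _ => a := funext htop
    rw [this]
    unfold dd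
    simp
  have e0 : ((2 * M : ℕ) : ℤ) - M = M := by push_cast; ring
  unfold LB Lk NW
  beta_reduce
  rw [Finset.sum_range_succ, eval_finsetSum, e0, h0, zero_mul, zero_mul, add_zero,
    ← Finset.sum_range_reflect, Finset.mul_sum]
  refine Finset.sum_congr rfl fun t ht => ?_
  have ht' : t < 2 * M := Finset.mem_range.mp ht
  have e1 : ((2 * M - 1 - t : ℕ) : ℤ) - M = M - 1 - t := by omega
  simp only [e1, fall_zero, eval_mul, eval_C, eval_pow, eval_X]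
  have e3 : Y ^ ((M : ℤ) - 1 - t - ((0 : ℕ) : ℤ)) = Y ^ ((M : ℤ) - 1) * (Y⁻¹) ^ t := by
    rw [inv_pow, ← zpow_natCast, ← zpow_neg, ← zpow_add₀ hY]
    congr 1
    push_cast
    ring
  rw [e3]
  ring

/-- The critical point condition. -/
theorem Inst_crit (I : ID) (N : ℕ) (hN : I.n = 2 * N) (M : ℕ) (hM : 1 ≤ M) (h : ℝ) (a : ℂ)
    (ha : a ≠ 0) (htop : ∀ x, Bt I h M x = a)
    (hbig : ∀ (k : ℤ) (x : V2), (M : ℤ) < k → Bt I h k x = 0)
    (hl : ∀ x, 0 < I.ell h x) (x : V2) (Y : ℂ)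
    (hY : I.ell h x < ‖Y‖) (h1 : LB M (Bt I h) 1 x Y = 0) :
    LB M (fun k => dd I.al (Bt I h k)) 0 x Y = 0 := by
  have hpos : 0 < ‖Y‖ := (hl x).trans hY
  have hY0 : Y ≠ 0 := norm_pos_iff.mp hpos
  rw [Inst_QW I M h x hY0] at h1
  have h2 : (QW I M h x).eval (Y⁻¹) = 0 := by
    rcases mul_eq_zero.mp h1 with h3 | h3
    · exact absurd h3 (zpow_ne_zero _ hY0)
    · exact h3
  have hd : (X - C (Y⁻¹)) ^ 1 ∣ QW I M h x := by
    rw [pow_one]
    exact dvd_iff_isRoot.mpr h2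
  have hw : |I.ell h x| * ‖Y⁻¹‖ < 1 := by
    rw [abs_of_pos (hl x), norm_inv, ← div_eq_mul_inv, div_lt_one hpos]
    exact hY
  have h3 := propW I N hN M hM h a ha htop hbig x (Y⁻¹) (inv_ne_zero hY0) hw 1 hd
  rw [pow_one] at h3
  have h4 : (NW I M h x).eval (Y⁻¹) = 0 := dvd_iff_isRoot.mp h3
  rw [Inst_NW I M h a htop x hY0, h4, mul_zero]

/-- The data `PD` of a polynomial integral at an energy `h > max U`. -/
noncomputable def mkPD (I : ID) (N : ℕ) (hN : I.n = 2 * N) (M : ℕ) (hM : 1 ≤ M) (h : ℝ) (a : ℂ)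
    (ha : a ≠ 0) (htop : ∀ x, Bt I h M x = a)
    (hbig : ∀ (k : ℤ) (x : V2), (M : ℤ) < k → Bt I h k x = 0)
    (hl : ∀ x, 0 < I.ell h x) : PD where
  al := I.al
  hal := I.hal
  M := M
  hM := hM
  B := Bt I h
  l := I.ell h
  a := a
  ha := ha
  Bsm := fun k => Bt_smooth I h k
  Bper := fun k => Bt_per I h k
  lsm := I.ell_smooth h
  lper := I.ell_per h
  lpos := hl
  top := htop
  big := hbig
  neg := fun k x => Bt_neg I h k x
  trans := fun k x => Bt_trans I h k x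
  crit := fun x Y hY h1 => Inst_crit I N hN M hM h a ha htop hbig hl x Y hY h1

/-- `ell h > 0` for `h > U`. -/
theorem ell_pos (I : ID) (h : ℝ) (hU : ∀ x, I.U x < h) (x : V2) : 0 < I.ell h x := by
  unfold ID.ell
  exact div_pos (sub_pos.mpr (hU x)) (I.mupos x)

end Pool.W4b1b5d.SH
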