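import Pool.Agent.W_4b1b5d_h66.SHGlueC

set_option autoImplicit false

namespace Pool.W4b1b5d.SH

open Pool.W4b1b5d.H3 Polynomial Set

namespace Sh

/-- Gluing of the sheets of the two half strips (`s' = -s`) at outer simple solutions, in both
directions. -/
theorem glue2 {D : PD} {e : ℕ} (he : 1 ≤ e) {s s' τ : ℝ} (hs : s = 1 ∨ s = -1) (hss : s' = -s)
    (hτ : 0 < τ) (hH' : Ks s' τ ⊆ D.H) (S : Sh D e s τ) (T : Sh D e s' τ)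
    (j : Fin S.n) (x0 : V2) (w : ℝ)
    (hy : D.l x0 < ‖S.P j x0 (w : ℂ)‖ ^ e) (h1 : D.R 1 x0 (S.P j x0 (w : ℂ) ^ e) ≠ 0) :
    ∃ i : Fin T.n, (∀ᶠ z : V2 × ℝ in nhds (x0, w), S.P j z.1 (z.2 : ℂ) = T.P i z.1 (z.2 : ℂ)) ∧
      ∀ i', T.P i' x0 (w : ℂ) = S.P j x0 (w : ℂ) → i' = i := by
  have hs' : s' = 1 ∨ s' = -1 := by
    rcases hs with h | h
    · right
      rw [hss, h]
    · left
      rw [hss, h]
      norm_num
  have h0 : D.R 0 x0 (S.P j x0 (w : ℂ) ^ e) = (w : ℂ) := S.root j x0 w (SHGlueC_mem s hτ w)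
  have hne : S.P j x0 (w : ℂ) ≠ 0 := by
    intro h
    rw [h, norm_zero, zero_pow (by omega)] at hy
    exact absurd hy (not_lt.2 (D.lpos x0).le)
  obtain ⟨i, hi, hiu⟩ := T.exh_bdry he hs' hτ hH' x0 w (S.P j x0 (w : ℂ)) hy h0 h1
  refine ⟨i, ?_, hiu⟩
  obtain ⟨G, ε, η, hε, hη, hG0, hG⟩ := D.loc_inv e he x0 (S.P j x0 (w : ℂ)) hne h1
  rw [h0] at hG hG0
  obtain ⟨δ1, hδ1, h1'⟩ := S.eq_loc he j x0 (w : ℂ) (SHGlueC_mem s hτ w) G ε η hε hη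
    (fun z hz P hP hR => (hG z hz).2.2.2.2.2 P hP hR)
  obtain ⟨δ2, hδ2, h2'⟩ := T.eq_loc he i x0 (w : ℂ) (SHGlueC_mem s' hτ w) G ε η hε hη
    (fun z hz P hP hR => (hG z hz).2.2.2.2.2 P (by rw [← hi]; exact hP) hR)
  have hev : ∀ᶠ z : V2 × ℝ in nhds (x0, w), dist z (x0, w) < min δ1 δ2 :=
    Metric.ball_mem_nhds _ (lt_min hδ1 hδ2)
  filter_upwards [hev] with z hz
  have hd : dist ((z.1, (z.2 : ℂ)) : V2 × ℂ) (x0, (w : ℂ)) = dist z (x0, w) := by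
    rw [Prod.dist_eq, Prod.dist_eq, Complex.dist_of_im_eq (by simp)]
    simp [Real.dist_eq]
  rw [h1' (z.1, (z.2 : ℂ)) (by rw [hd]; exact hz.trans_le (min_le_left _ _))
    (SHGlueC_mem s hτ z.2), h2' (z.1, (z.2 : ℂ)) (by rw [hd]; exact hz.trans_le (min_le_right _ _))
    (SHGlueC_mem s' hτ z.2)]

end Sh

end Pool.W4b1b5d.SH
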