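import Pool.Agent.W_4b1b5d_h66.SHCovD

set_option autoImplicit false

namespace Pool.W4b1b5d.SH

open Pool.W4b1b5d.H3 Polynomial Set

namespace PD

/-- The homotopy `(t,(x,v)) ↦ (t x, v0 + t (v - v0))`. -/
noncomputable def homot (D : PD) (K : Set ℂ) (hK : Convex ℝ K) (hKH : K ⊆ D.H) (v0 : K) :
    C(unitInterval × (V2 × K), V2 × D.H) where
  toFun q := ((q.1 : ℝ) • q.2.1, ⟨(v0 : ℂ) + (q.1 : ℝ) • ((q.2.2 : ℂ) - v0),
    hKH (hK.add_smul_sub_mem v0.2 q.2.2.2 q.1.2)⟩)
  continuous_toFun := by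
    refine Continuous.prodMk ?_ (Continuous.subtype_mk ?_ _) <;> fun_prop

theorem homot_zero (D : PD) (K : Set ℂ) (hK : Convex ℝ K) (hKH : K ⊆ D.H) (v0 : K) (a : V2 × K) :
    D.homot K hK hKH v0 (0, a) = (0, ⟨v0, hKH v0.2⟩) := by
  unfold homot
  simp

theorem homot_one (D : PD) (K : Set ℂ) (hK : Convex ℝ K) (hKH : K ⊆ D.H) (v0 : K) (a : V2 × K) :
    D.homot K hK hKH v0 (1, a) = (a.1, ⟨a.2, hKH a.2.2⟩) := by
  unfold homot
  simp

/-- TASK SHCov (9).  Sections over `V2 × K`, `K` convex.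

Proof.  Let `v0 ∈ K`.  The fibre of `p` over `(0,v0)` is finite (`p_fin`): points `P_j`, `j : Fin n`.
`H(t,(x,v)) = (t x, v0 + t (v - v0))` is a homotopy from `V2 × K` to `V2 × D.H`, lift it by
`IsCoveringMap.liftHomotopy` starting from the constant map `P_j` (`H(0,·) = (0,v0)`); put
`P j x v = ` second component of the lift at `t = 1`.  If `l x < ‖y‖^e`, `R(x,y^e) = v`, lift the path
`t ↦ H(1-t,(x,v))` starting at `(x,y)`; its end point is some `P_j`, and by uniqueness of path lifting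
`P j x v = y`.  Uniqueness of `j`: if `P j x v = P i x v` then the two sections are equal
(`sec_unique`, `V2 × K` is convex), so `P_j = P_i`. -/
theorem sections (D : PD) (e : ℕ) (he : 1 ≤ e) (K : Set ℂ) (hK : Convex ℝ K) (hKH : K ⊆ D.H)
    (hne : K.Nonempty) : ∃ (n : ℕ) (P : Fin n → V2 → ℂ → ℂ),
      (∀ j, ContinuousOn (fun z : V2 × ℂ => P j z.1 z.2) (univ ×ˢ K)) ∧
      (∀ j x v, v ∈ K → D.l x < ‖P j x v‖ ^ e ∧ D.R 0 x (P j x v ^ e) = v) ∧
      (∀ x v y, v ∈ K → D.l x < ‖y‖ ^ e → D.R 0 x (y ^ e) = v → ∃! j, P j x v = y) := by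
  classical
  obtain ⟨v0, hv0⟩ := hne
  have cov := D.p_cov e he
  set H := D.homot K hK hKH ⟨v0, hv0⟩ with hH
  set b : V2 × D.H := (0, ⟨v0, hKH hv0⟩) with hb
  have hH0 : ∀ a, H (0, a) = b := fun a => D.homot_zero K hK hKH ⟨v0, hv0⟩ a
  have hH1 : ∀ a : V2 × K, H (1, a) = (a.1, ⟨a.2, hKH a.2.2⟩) :=
    fun a => D.homot_one K hK hKH ⟨v0, hv0⟩ a
  have hfin : Finite (D.p e ⁻¹' {b}) := (D.p_fin e he b).to_subtype
  obtain ⟨n, ⟨F⟩⟩ := Finite.exists_equiv_fin (D.p e ⁻¹' {b})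
  have hF : ∀ j, D.p e (F.symm j).1 = b := fun j => (F.symm j).2
  let L : Fin n → C(unitInterval × (V2 × K), D.E e) := fun j =>
    cov.liftHomotopy H (.const _ (F.symm j).1) (fun a => by
      rw [hH0]; exact (hF j).symm)
  have hL : ∀ j q, D.p e (L j q) = H q := fun j q =>
    congr_fun (cov.liftHomotopy_lifts H (.const _ (F.symm j).1) _) q
  have hL0 : ∀ j a, L j (0, a) = (F.symm j).1 := fun j a =>
    cov.liftHomotopy_zero H (.const _ (F.symm j).1) _ a
  -- the point of the lift at time `1`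
  have hL1 : ∀ j (a : V2 × K), (L j (1, a)).1.1 = a.1 ∧
      D.R 0 a.1 ((L j (1, a)).1.2 ^ e) = a.2 := by
    intro j a
    have h := hL j (1, a)
    rw [hH1] at h
    have h1 : (L j (1, a)).1.1 = a.1 := congrArg Prod.fst h
    have h2 : D.R 0 (L j (1, a)).1.1 ((L j (1, a)).1.2 ^ e) = a.2 :=
      congrArg Subtype.val (congrArg Prod.snd h)
    exact ⟨h1, by rw [h1] at h2; exact h2⟩
  -- uniqueness of lifts of the paths `t ↦ H (t, a)`
  have huniq : ∀ (a : V2 × K) (Γ Γ' : C(unitInterval, D.E e)), (∀ t, D.p e (Γ t) = H (t, a)) →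
      (∀ t, D.p e (Γ' t) = H (t, a)) → ∀ t0, Γ t0 = Γ' t0 → ∀ t, Γ t = Γ' t := by
    intro a Γ Γ' h h' t0 h0 t
    exact congr_fun (cov.eq_of_comp_eq Γ.continuous Γ'.continuous
      (funext fun t => (h t).trans (h' t).symm) t0 h0) t
  let sl : Fin n → (V2 × K) → C(unitInterval, D.E e) := fun j a =>
    (L j).comp ((ContinuousMap.id _).prodMk (.const _ a))
  refine ⟨n, fun j x v => if h : v ∈ K then (L j (1, (x, ⟨v, h⟩))).1.2 else 0, ?_, ?_, ?_⟩
  · intro j
    rw [continuousOn_iff_continuous_restrict]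
    have : Continuous fun z : (univ ×ˢ K : Set (V2 × ℂ)) =>
        (L j (1, (z.1.1, ⟨z.1.2, z.2.2⟩))).1.2 := by
      refine continuous_snd.comp (continuous_subtype_val.comp ((L j).continuous.comp ?_))
      refine continuous_const.prodMk (Continuous.prodMk ?_ (Continuous.subtype_mk ?_ _))
      · exact continuous_fst.comp continuous_subtype_val
      · exact continuous_snd.comp continuous_subtype_val
    refine this.congr fun z => ?_
    have hz : z.1.2 ∈ K := z.2.2
    simp only [restrict_apply]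
    rw [dif_pos hz]
  · intro j x v hv
    simp only [dif_pos hv]
    obtain ⟨h1, h2⟩ := hL1 j (x, ⟨v, hv⟩)
    refine ⟨?_, h2⟩
    have h3 := (L j (1, (x, ⟨v, hv⟩))).2.1
    rw [h1] at h3
    exact h3
  · intro x v y hv hy hR
    simp only [dif_pos hv]
    set a : V2 × K := (x, ⟨v, hv⟩) with ha
    let z0 : D.E e := ⟨(x, y), hy, by rw [show D.R 0 (x, y).1 ((x, y).2 ^ e) = v from hR]; exact hKH hv⟩
    have hz0 : D.p e z0 = H (1, a) := by
      rw [hH1]
      refine Prod.ext rfl (Subtype.ext hR)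
    let γ : C(unitInterval, V2 × D.H) :=
      H.comp (ContinuousMap.prodMk ⟨unitInterval.symm, unitInterval.continuous_symm⟩ (.const _ a))
    have hγ : ∀ t, γ t = H (unitInterval.symm t, a) := fun t => rfl
    have hγ0 : γ 0 = D.p e z0 := by rw [hγ, unitInterval.symm_zero, hz0]
    set Γ := cov.liftPath γ z0 hγ0 with hΓ
    have hΓl : ∀ t, D.p e (Γ t) = γ t := fun t => congr_fun (cov.liftPath_lifts γ z0 hγ0) t
    have hΓ0 : Γ 0 = z0 := cov.liftPath_zero γ z0 hγ0
    have hΓ1 : D.p e (Γ 1) = b := by rw [hΓl, hγ, unitInterval.symm_one, hH0]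
    let j : Fin n := F ⟨Γ 1, hΓ1⟩
    have hj : (F.symm j).1 = Γ 1 := by
      show (F.symm (F ⟨Γ 1, hΓ1⟩)).1 = Γ 1
      rw [Equiv.symm_apply_apply]
    have hend : ∀ i, (L i (1, a)).1.2 = y → L i (1, a) = z0 := by
      intro i hi
      refine Subtype.ext (Prod.ext (hL1 i a).1 hi)
    have hjy : L j (1, a) = z0 := by
      let Γ' : C(unitInterval, D.E e) :=
        Γ.comp ⟨unitInterval.symm, unitInterval.continuous_symm⟩
      have h := huniq a (sl j a) Γ' (fun t => hL j (t, a)) (fun t => by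
        show D.p e (Γ (unitInterval.symm t)) = _
        rw [hΓl, hγ, unitInterval.symm_symm]) 0 (by
        show L j (0, a) = Γ (unitInterval.symm 0)
        rw [hL0, hj, unitInterval.symm_zero]) 1
      have h' : L j (1, a) = Γ (unitInterval.symm 1) := h
      rw [h', unitInterval.symm_one, hΓ0]
    refine ⟨j, ?_, ?_⟩
    · show (L j (1, a)).1.2 = y
      rw [hjy]
    · intro i hi
      have hi' : L i (1, a) = L j (1, a) := by rw [hjy]; exact hend i hi
      have h := huniq a (sl i a) (sl j a) (fun t => hL i (t, a)) (fun t => hL j (t, a)) 1 hi' 0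
      have h' : L i (0, a) = L j (0, a) := h
      rw [hL0, hL0] at h'
      exact F.symm.injective (Subtype.ext h')

end PD

end Pool.W4b1b5d.SH
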