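import Pool.Agent.W_4b1b5d_h66.SHHol

set_option autoImplicit false

namespace Pool.W4b1b5d.SH

open Pool.W4b1b5d.H3 Polynomial Set

namespace PD

/-- Interior points of the strip close to a given point. -/
theorem SHExt_near (s τ : ℝ) (hs : s = 1 ∨ s = -1) {v : ℂ} (hv : v ∈ Us s τ) {ε : ℝ} (hε : 0 < ε) :
    ∃ w ∈ Ks s τ, dist v w < ε := by
  obtain ⟨h0, h1⟩ := hv
  have hδ : 0 < min (ε / 2) ((τ - s * v.im) / 2) := lt_min (by linarith) (by linarith)
  set δ := min (ε / 2) ((τ - s * v.im) / 2) with hδ'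
  have hs2 : s * s = 1 := by rcases hs with rfl | rfl <;> norm_num
  have hs1 : |s| = 1 := by rcases hs with rfl | rfl <;> norm_num
  refine ⟨v + ((s * δ : ℝ) : ℂ) * Complex.I, ⟨?_, ?_⟩, ?_⟩
  · have : (v + ((s * δ : ℝ) : ℂ) * Complex.I).im = v.im + s * δ := by simp
    rw [this]
    nlinarith
  · have : (v + ((s * δ : ℝ) : ℂ) * Complex.I).im = v.im + s * δ := by simp
    rw [this]
    have h2 : δ ≤ (τ - s * v.im) / 2 := min_le_right _ _
    nlinarith
  · rw [dist_eq_norm, sub_add_cancel_left, norm_neg, norm_mul, Complex.norm_I, mul_one,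
      Complex.norm_real, Real.norm_eq_abs, abs_mul, hs1, one_mul, abs_of_pos hδ]
    have h2 : δ ≤ ε / 2 := min_le_left _ _
    linarith

/-- TASK SHStrip (6).  Continuous extension to the real boundary (`continuousOn_extendFrom`, the
Cauchy property follows from `sec_holder` and continuity in `x` at nearby interior `v`). -/
theorem sec_ext (D : PD) (e : ℕ) (he : 1 ≤ e) (s τ : ℝ) (hs : s = 1 ∨ s = -1) (hτ : 0 < τ)
    (q : V2 → ℂ → ℂ) (hq : ContinuousOn (fun z : V2 × ℂ => q z.1 z.2) (univ ×ˢ Ks s τ))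
    (hr : ∀ x v, v ∈ Ks s τ → D.l x < ‖q x v‖ ^ e ∧ D.R 0 x (q x v ^ e) = v) :
    ∃ q' : V2 → ℂ → ℂ, ContinuousOn (fun z : V2 × ℂ => q' z.1 z.2) (univ ×ˢ Us s τ) ∧
      ∀ x v, v ∈ Ks s τ → q' x v = q x v := by
  have hcl : (univ : Set V2) ×ˢ Us s τ ⊆ closure ((univ : Set V2) ×ˢ Ks s τ) := by
    rw [closure_prod_eq, closure_univ]
    refine prod_mono Subset.rfl fun v hv => ?_
    rw [Metric.mem_closure_iff]
    exact fun ε hε => SHExt_near s τ hs hv hε
  have hKU : Ks s τ ⊆ Us s τ := fun v hv => ⟨hv.1.le, hv.2⟩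
  have hqx : ∀ x, ContinuousOn (q x) (Ks s τ) := by
    intro x
    have h1 : ContinuousOn (fun v : ℂ => ((x, v) : V2 × ℂ)) (Ks s τ) :=
      (continuous_const.prodMk continuous_id).continuousOn
    exact hq.comp h1 fun v hv => ⟨mem_univ _, hv⟩
  have hqv : ∀ w ∈ Ks s τ, Continuous (fun x => q x w) := by
    intro w hw
    have h1 : ContinuousOn (fun x : V2 => ((x, w) : V2 × ℂ)) univ :=
      (continuous_id.prodMk continuous_const).continuousOn
    have h2 := hq.comp h1 fun x _ => ⟨mem_univ _, hw⟩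
    exact continuousOn_univ.1 h2
  have hlim : ∀ z ∈ (univ : Set V2) ×ˢ Us s τ, ∃ y, Filter.Tendsto (fun z : V2 × ℂ => q z.1 z.2)
      (nhdsWithin z ((univ : Set V2) ×ˢ Ks s τ)) (nhds y) := by
    rintro ⟨x₀, v₀⟩ hz
    have : (nhdsWithin ((x₀, v₀) : V2 × ℂ) ((univ : Set V2) ×ˢ Ks s τ)).NeBot :=
      mem_closure_iff_nhdsWithin_neBot.1 (hcl hz)
    rw [← cauchy_map_iff_exists_tendsto, Metric.cauchy_iff]
    refine ⟨inferInstance, fun ε hε => ?_⟩
    obtain ⟨C, hC, hH⟩ := sec_holder D e he s τ hs (‖v₀‖ + 1)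
    -- the modulus of continuity
    have hn : 2 * e * D.M ≠ 0 := by
      have := D.hM
      positivity
    have hεC : 0 < (ε / 5) ^ (2 * e * D.M) / C := by positivity
    set δ := min 1 ((ε / 5) ^ (2 * e * D.M) / C / 2) with hδ
    have hδ0 : 0 < δ := lt_min one_pos (half_pos hεC)
    have hδ1 : δ ≤ 1 := min_le_left _ _
    have hδ2 : δ ≤ (ε / 5) ^ (2 * e * D.M) / C / 2 := min_le_right _ _
    have hHol : ∀ x v v', v ∈ Ks s τ → v' ∈ Ks s τ → dist v v₀ < δ → dist v' v₀ < δ →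
        dist (q x v) (q x v') ≤ ε / 5 := by
      intro x v v' hv hv' hd hd'
      have h1 : ‖v‖ ≤ ‖v₀‖ + 1 := by
        have := norm_le_norm_add_norm_sub' v v₀
        rw [dist_eq_norm] at hd
        linarith
      have h2 : ‖v'‖ ≤ ‖v₀‖ + 1 := by
        have := norm_le_norm_add_norm_sub' v' v₀
        rw [dist_eq_norm] at hd'
        linarith
      have h3 := hH x (q x) (hqx x) (fun v hv => hr x v hv) v v' hv hv' h1 h2
      have h4 : ‖v - v'‖ ≤ 2 * δ := by
        have h5 := dist_triangle_right v v' v₀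
        rw [← dist_eq_norm]
        linarith
      have h6 : C * ‖v - v'‖ ≤ (ε / 5) ^ (2 * e * D.M) := by
        calc C * ‖v - v'‖ ≤ C * ((ε / 5) ^ (2 * e * D.M) / C) :=
              mul_le_mul_of_nonneg_left (by linarith) hC.le
          _ = _ := by field_simp
      rw [dist_eq_norm]
      exact (pow_le_pow_iff_left₀ (norm_nonneg _) (by positivity) hn).1 (h3.trans h6)
    obtain ⟨w, hw, hwd⟩ := SHExt_near s τ hs hz.2 hδ0
    obtain ⟨η, hη, hη2⟩ := Metric.continuousAt_iff.1 (hqv w hw).continuousAt (ε / 5) (by positivity)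
    rw [dist_comm] at hwd
    refine ⟨(fun z : V2 × ℂ => q z.1 z.2) ''
      (Metric.ball ((x₀, v₀) : V2 × ℂ) (min δ η) ∩ ((univ : Set V2) ×ˢ Ks s τ)), ?_, ?_⟩
    · apply Filter.image_mem_map
      rw [inter_comm]
      exact inter_mem_nhdsWithin _ (Metric.ball_mem_nhds _ (lt_min hδ0 hη))
    · rintro _ ⟨⟨x, v⟩, ⟨hb, hK⟩, rfl⟩ _ ⟨⟨x', v'⟩, ⟨hb', hK'⟩, rfl⟩
      simp only [Metric.mem_ball, Prod.dist_eq, max_lt_iff, lt_min_iff] at hb hb'
      have h1 := hHol x v w hK.2 hw hb.1.2 hwd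
      have h2 := hHol x' w v' hw hK'.2 hwd hb'.1.2
      have h3 := hη2 hb.2.1
      have h4 := hη2 hb'.2.1
      show dist (q x v) (q x' v') < ε
      have h5 := dist_triangle (q x v) (q x w) (q x' v')
      have h6 := dist_triangle (q x w) (q x' w) (q x' v')
      have h7 := dist_triangle_right (q x w) (q x' w) (q x₀ w)
      linarith
  refine ⟨fun x v => extendFrom ((univ : Set V2) ×ˢ Ks s τ) (fun z : V2 × ℂ => q z.1 z.2) (x, v),
    ?_, ?_⟩
  · exact continuousOn_extendFrom hcl hlim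
  · intro x v hv
    exact extendFrom_eq (hcl ⟨mem_univ _, hKU hv⟩) (hq (x, v) ⟨mem_univ _, hv⟩)

end PD

end Pool.W4b1b5d.SH
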