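import Pool.Agent.W_4b1b5d_h66.SHPer
import Pool.Agent.W_4b1b5d_h66.SHExt
import Pool.Agent.W_4b1b5d_h66.SHCov

set_option autoImplicit false

namespace Pool.W4b1b5d.SH

open Pool.W4b1b5d.H3 Polynomial Set

/-- The sheets over the strip `0 ≤ s Im v < τ`: the solutions `P` of `R(x,P^e) = v` with
`|P|^e > l x`, extended continuously to the real values `v`.  `e = 1`: `Y`-sheets, `e = 2`: momentum
sheets. -/
structure Sh (D : PD) (e : ℕ) (s τ : ℝ) where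
  n : ℕ
  P : Fin n → V2 → ℂ → ℂ
  cont : ∀ j, ContinuousOn (fun z : V2 × ℂ => P j z.1 z.2) (univ ×ˢ Us s τ)
  smooth : ∀ j, ContDiffOn ℝ (⊤ : ℕ∞) (fun z : V2 × ℂ => P j z.1 z.2) (univ ×ˢ Ks s τ)
  per : ∀ j v, v ∈ Us s τ → Per (fun x => P j x v)
  root : ∀ j x v, v ∈ Us s τ → D.R 0 x (P j x v ^ e) = v
  le : ∀ j x v, v ∈ Us s τ → D.l x ≤ ‖P j x v‖ ^ e
  lt : ∀ j x v, v ∈ Ks s τ → D.l x < ‖P j x v‖ ^ e
  exh : ∀ x v y, v ∈ Ks s τ → D.l x < ‖y‖ ^ e → D.R 0 x (y ^ e) = v → ∃ j, P j x v = y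
  inj : ∀ x v i j, v ∈ Ks s τ → P i x v = P j x v → i = j
  holder : ∀ ρ : ℝ, ∃ C : ℝ, 0 < C ∧ ∀ j x v v', v ∈ Us s τ → v' ∈ Us s τ → ‖v‖ ≤ ρ → ‖v'‖ ≤ ρ →
    ‖P j x v - P j x v'‖ ^ (2 * e * D.M) ≤ C * ‖v - v'‖

theorem ks_convex (s τ : ℝ) : Convex ℝ (Ks s τ) := by
  have h : Ks s τ = (fun v : ℂ => s * v.im) ⁻¹' Ioo 0 τ := rfl
  rw [h]
  have h2 : (fun v : ℂ => s * v.im) = ⇑(s • Complex.imLm) := by
    funext v
    simp
  rw [h2]
  exact (convex_Ioo 0 τ).linear_preimage (s • Complex.imLm)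

theorem ks_open (s τ : ℝ) : IsOpen (Ks s τ) :=
  (isOpen_Ioo (a := (0 : ℝ)) (b := τ)).preimage
    (f := fun v : ℂ => s * v.im) (by fun_prop)

theorem ks_us {s τ : ℝ} : Ks s τ ⊆ Us s τ := fun _ hv => ⟨hv.1.le, hv.2⟩

theorem appr_mem {s τ : ℝ} (hs : s = 1 ∨ s = -1) {v : ℂ} (hv : v ∈ Us s τ) :
    ∀ᶠ ε : ℝ in nhdsWithin 0 (Ioi 0), v + ((s * ε : ℝ) : ℂ) * Complex.I ∈ Ks s τ := by
  have h1 : 0 < τ - s * v.im := sub_pos.2 hv.2
  filter_upwards [Ioo_mem_nhdsGT h1] with ε hε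
  have hss : s * s = 1 := by rcases hs with rfl | rfl <;> norm_num
  have him : (v + ((s * ε : ℝ) : ℂ) * Complex.I).im = v.im + s * ε := by simp
  have h2 : s * (v + ((s * ε : ℝ) : ℂ) * Complex.I).im = s * v.im + ε := by
    rw [him, mul_add, ← mul_assoc, hss, one_mul]
  constructor
  · rw [h2]; linarith [hv.1, hε.1]
  · rw [h2]; linarith [hε.2]

theorem appr_tendsto (s : ℝ) (v : ℂ) :
    Filter.Tendsto (fun ε : ℝ => v + ((s * ε : ℝ) : ℂ) * Complex.I) (nhdsWithin 0 (Ioi 0))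
      (nhds v) := by
  have h : Continuous fun ε : ℝ => v + ((s * ε : ℝ) : ℂ) * Complex.I := by fun_prop
  have h1 := (h.tendsto 0).mono_left (nhdsWithin_le_nhds (s := Ioi (0 : ℝ)))
  simpa using h1

/-- Limits of a continuous function along the approach path. -/
theorem appr_lim {s τ : ℝ} (hs : s = 1 ∨ s = -1) {q : V2 → ℂ → ℂ}
    (hq : ContinuousOn (fun z : V2 × ℂ => q z.1 z.2) (univ ×ˢ Us s τ)) (x : V2) {v : ℂ}
    (hv : v ∈ Us s τ) :
    Filter.Tendsto (fun ε : ℝ => q x (v + ((s * ε : ℝ) : ℂ) * Complex.I))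
      (nhdsWithin 0 (Ioi 0)) (nhds (q x v)) := by
  have h1 : ContinuousWithinAt (fun z : V2 × ℂ => q z.1 z.2) (univ ×ˢ Us s τ) (x, v) :=
    hq (x, v) ⟨mem_univ _, hv⟩
  have h2 : Filter.Tendsto (fun ε : ℝ => ((x, v + ((s * ε : ℝ) : ℂ) * Complex.I) : V2 × ℂ))
      (nhdsWithin 0 (Ioi 0)) (nhdsWithin (x, v) (univ ×ˢ Us s τ)) := by
    refine tendsto_nhdsWithin_iff.2 ⟨tendsto_const_nhds.prodMk_nhds (appr_tendsto s v), ?_⟩
    filter_upwards [appr_mem hs hv] with ε hε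
    exact ⟨mem_univ _, ks_us hε⟩
  exact h1.tendsto.comp h2

namespace PD

/-- TASK SHStrip (7).  Assembly: `sections`, `sol_smooth` + `E_R1`, `sec_ext`, `sec_per`,
`sec_holder`; the closed conditions pass to the limit (`Us s τ ⊆ closure (Ks s τ)`, for instance
`v + s ε i`). -/
theorem exists_Sh (D : PD) (e : ℕ) (he : 1 ≤ e) (s τ : ℝ) (hs : s = 1 ∨ s = -1) (hτ : 0 < τ)
    (hH : Ks s τ ⊆ D.H) : Nonempty (Sh D e s τ) := by
  have hne : (Ks s τ).Nonempty := by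
    refine ⟨((s * (τ / 2) : ℝ) : ℂ) * Complex.I, ?_⟩
    have hss : s * s = 1 := by rcases hs with rfl | rfl <;> norm_num
    have him : (((s * (τ / 2) : ℝ) : ℂ) * Complex.I).im = s * (τ / 2) := by simp
    constructor
    · rw [him, ← mul_assoc, hss, one_mul]; linarith
    · rw [him, ← mul_assoc, hss, one_mul]; linarith
  obtain ⟨n, P, hPc, hPr, hPe⟩ := D.sections e he (Ks s τ) (ks_convex s τ) hH hne
  have hext := fun j => D.sec_ext e he s τ hs hτ (P j) (hPc j) (fun x v hv => hPr j x v hv)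
  choose Q hQc hQP using hext
  have hQr : ∀ j x v, v ∈ Ks s τ → D.l x < ‖Q j x v‖ ^ e ∧ D.R 0 x (Q j x v ^ e) = v := by
    intro j x v hv
    rw [hQP j x v hv]
    exact hPr j x v hv
  have hQcK : ∀ j, ContinuousOn (fun z : V2 × ℂ => Q j z.1 z.2) (univ ×ˢ Ks s τ) := fun j =>
    (hQc j).mono (prod_mono_right ks_us)
  have hne0 : ∀ {x : V2} {y : ℂ}, D.l x ≤ ‖y‖ ^ e → y ≠ 0 := by
    intro x y h h0
    rw [h0, norm_zero, zero_pow (by omega)] at h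
    exact absurd (D.lpos x) (not_lt.2 h)
  have hle : ∀ j x v, v ∈ Us s τ → D.l x ≤ ‖Q j x v‖ ^ e := by
    intro j x v hv
    have h1 := appr_lim hs (hQc j) x hv
    refine ge_of_tendsto (h1.norm.pow e) ?_
    filter_upwards [appr_mem hs hv] with ε hε
    exact (hQr j x _ hε).1.le
  refine ⟨⟨n, Q, hQc, ?_, ?_, ?_, hle, fun j x v hv => (hQr j x v hv).1, ?_, ?_, ?_⟩⟩
  · -- smooth
    intro j z hz
    have hop : IsOpen (univ ×ˢ Ks s τ : Set (V2 × ℂ)) := isOpen_univ.prod (ks_open s τ)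
    refine ContDiffAt.contDiffWithinAt ?_
    obtain ⟨h1, h2⟩ := hQr j z.1 z.2 hz.2
    have hE : ((z.1, Q j z.1 z.2) : V2 × ℂ) ∈ D.E e := ⟨h1, by
      show D.R 0 z.1 (Q j z.1 z.2 ^ e) ∈ D.H
      rw [h2]; exact hH hz.2⟩
    refine D.sol_smooth e he (q := fun z : V2 × ℂ => Q j z.1 z.2)
      ((hQcK j).continuousAt (hop.mem_nhds hz)) (hne0 h1.le) ?_
      (D.E_R1 e _ hE)
    filter_upwards [hop.mem_nhds hz] with y hy
    exact (hQr j y.1 y.2 hy.2).2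
  · -- per
    intro j v hv x k
    have h1 := appr_lim hs (hQc j) (x + fun i => (k i : ℝ)) hv
    have h2 := appr_lim hs (hQc j) x hv
    refine tendsto_nhds_unique_of_eventuallyEq h1 h2 ?_
    filter_upwards [appr_mem hs hv] with ε hε
    exact D.sec_per e he s τ hs hτ hH (Q j) (hQcK j) (fun x v hv => hQr j x v hv) _ hε x k
  · -- root
    intro j x v hv
    have h0 : Q j x v ^ e ≠ 0 := pow_ne_zero _ (hne0 (hle j x v hv))
    have h1 := (appr_lim hs (hQc j) x hv).pow e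
    have h2 := ((D.R_hasDerivAt 0 x h0).continuousAt.tendsto).comp h1
    refine tendsto_nhds_unique_of_eventuallyEq h2 (appr_tendsto s v) ?_
    filter_upwards [appr_mem hs hv] with ε hε
    exact (hQr j x _ hε).2
  · -- exh
    intro x v y hv hy hR
    obtain ⟨j, hj, _⟩ := hPe x v y hv hy hR
    exact ⟨j, by rw [hQP j x v hv]; exact hj⟩
  · -- inj
    intro x v i j hv hij
    rw [hQP i x v hv, hQP j x v hv] at hij
    obtain ⟨h1, h2⟩ := hPr j x v hv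
    obtain ⟨k, _, hk⟩ := hPe x v (P j x v) hv h1 h2
    rw [hk i hij, hk j rfl]
  · -- holder
    intro ρ
    obtain ⟨C, hC, hh⟩ := D.sec_holder e he s τ hs (ρ + 1)
    refine ⟨C, hC, fun j x v v' hv hv' hvρ hv'ρ => ?_⟩
    have h1 := appr_lim hs (hQc j) x hv
    have h2 := appr_lim hs (hQc j) x hv'
    refine le_of_tendsto_of_tendsto ((h1.sub h2).norm.pow (2 * e * D.M))
      ((((appr_tendsto s v).sub (appr_tendsto s v')).norm).const_mul C) ?_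
    have hρ : ∀ {w : ℂ}, ‖w‖ ≤ ρ → ∀ᶠ ε : ℝ in nhdsWithin 0 (Ioi 0),
        ‖w + ((s * ε : ℝ) : ℂ) * Complex.I‖ ≤ ρ + 1 := by
      intro w hw
      have h3 := (appr_tendsto s w).norm
      filter_upwards [h3.eventually (gt_mem_nhds (show ‖w‖ < ρ + 1 by linarith))] with ε hε
      exact hε.le
    filter_upwards [appr_mem hs hv, appr_mem hs hv', hρ hvρ, hρ hv'ρ] with ε e1 e2 e3 e4
    refine hh x (fun v => Q j x v) ?_ (fun v hv => hQr j x v hv) _ _ e1 e2 e3 e4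
    have hc : Continuous (fun w : ℂ => ((x, w) : V2 × ℂ)) := by fun_prop
    exact (hQcK j).comp hc.continuousOn (fun v hv => ⟨mem_univ _, hv⟩)

end PD

end Pool.W4b1b5d.SH
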