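import Pool.Agent.W_4b1b5d_h66.SHDefs
import Pool.Agent.W_4b1b5d_h3.Branch
import Pool.Agent.W_4b1b5d_h3.Grow
import Pool.Agent.W_4b1b5d_h3.BetaA

set_option autoImplicit false

namespace Pool.W4b1b5d.SH

open Pool.W4b1b5d.H3 Polynomial Set

namespace PD

theorem SHBasB_zero_fun (a : Fin 2 → ℂ) {f : V2 → ℂ} (h : ∀ y, f y = 0) (x : V2) :
    dd a f x = 0 := by
  have : f = fun _ => 0 := funext h
  rw [this]
  exact BetaA_const a 0 x

/-- TASK SHBasic (7).  The transport equation (coefficient of `Y^k`: field `trans`; the top and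
bottom coefficients use `big`, `neg`: `B k = 0` for `|k| > M`). -/
theorem transR (D : PD) (x : V2) {Y : ℂ} (hY : Y ≠ 0) :
    (D.l x : ℂ) / Y * D.R1 0 x Y + D.R2 0 x Y + 2 * ddr D.al D.l x * D.R 1 x Y = 0 := by
  unfold PD.R1 PD.R2 PD.R LB Lk
  set M := D.M with hM
  have hl : ∀ k : ℤ, dd (cj D.al) (D.B k) x + ((D.l x : ℂ) * dd D.al (D.B (k + 1)) x
      + 2 * ((k : ℂ) + 1) * ddr D.al D.l x * D.B (k + 1) x) = 0 := by
    intro k
    have := D.trans k x
    linear_combination this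
  have hbig : ∀ k : ℤ, (M : ℤ) < k → (∀ y, D.B k y = 0) := fun k hk y => D.big k y hk
  have hneg : ∀ y, D.B (-((M : ℤ) + 1)) y = 0 := by
    intro y
    have h1 := D.neg (M + 1) y
    push_cast at h1
    rw [h1, D.big ((M : ℤ) + 1) y (by omega), map_zero, mul_zero]
  set P : ℕ → ℂ := fun j => dd (cj D.al) (D.B ((j : ℤ) - M)) x * Y ^ ((j : ℤ) - M) with hP
  set Q : ℕ → ℂ := fun j => ((D.l x : ℂ) * dd D.al (D.B ((j : ℤ) - M)) x
      + 2 * (((j : ℤ) - M : ℤ) : ℂ) * ddr D.al D.l x * D.B ((j : ℤ) - M) x) *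
        Y ^ ((j : ℤ) - M - 1) with hQ
  have hPQ : ∀ j : ℕ, P j + Q (j + 1) = 0 := by
    intro j
    have h1 := hl ((j : ℤ) - M)
    simp only [hP, hQ]
    have e1 : (((j + 1 : ℕ) : ℤ) - M) = (j : ℤ) - M + 1 := by push_cast; ring
    rw [e1]
    have e2 : (j : ℤ) - M + 1 - 1 = (j : ℤ) - M := by ring
    rw [e2]
    push_cast at h1 ⊢
    linear_combination (Y ^ ((j : ℤ) - M)) * h1
  have hP2 : P (2 * M) = 0 := by
    simp only [hP]
    have e1 : (((2 * M : ℕ) : ℤ) - M) = M := by push_cast; ring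
    rw [e1]
    have h1 := hl M
    rw [SHBasB_zero_fun D.al (hbig _ (by omega)) x, hbig _ (by omega) x] at h1
    have h2 : dd (cj D.al) (D.B (M : ℤ)) x = 0 := by linear_combination h1
    rw [h2, zero_mul]
  have hQ0 : Q 0 = 0 := by
    simp only [hQ]
    have h1 := hl (-((M : ℤ) + 1))
    rw [SHBasB_zero_fun (cj D.al) hneg x] at h1
    have e1 : -((M : ℤ) + 1) + 1 = ((0 : ℕ) : ℤ) - M := by push_cast; ring
    rw [e1] at h1
    have e2 : (((-((M : ℤ) + 1) : ℤ) : ℂ) + 1) = (((((0 : ℕ) : ℤ) - M : ℤ)) : ℂ) := by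
      push_cast; ring
    rw [e2, zero_add] at h1
    rw [h1, zero_mul]
  have hsum : (∑ j ∈ Finset.range (2 * M + 1), P j) + ∑ j ∈ Finset.range (2 * M + 1), Q j = 0 := by
    rw [Finset.sum_range_succ, Finset.sum_range_succ', hP2, hQ0, add_zero, add_zero,
      ← Finset.sum_add_distrib]
    exact Finset.sum_eq_zero fun j _ => hPQ j
  rw [← hsum, ← Finset.sum_add_distrib, Finset.mul_sum, Finset.mul_sum, ← Finset.sum_add_distrib,
    ← Finset.sum_add_distrib]
  refine Finset.sum_congr rfl fun j _ => ?_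
  simp only [hP, hQ]
  rw [Grow_fall0, Grow_fall1]
  have e1 : (j : ℤ) - M - ((0 : ℕ) : ℤ) = (j : ℤ) - M := by simp
  have e2 : (j : ℤ) - M - ((1 : ℕ) : ℤ) = (j : ℤ) - M - 1 := by simp
  rw [e1, e2, zpow_sub_one₀ hY ((j : ℤ) - M)]
  field_simp
  ring

/-- TASK SHBasic (8).  All `x`-derivatives of `R` vanish at an outer critical point: `crit`,
`transR` and `dir_decomp`. -/
theorem crit_fderiv (D : PD) (x : V2) (Y : ℂ) (h : D.l x < ‖Y‖) (h1 : D.R 1 x Y = 0) (u : V2) :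
    LB D.M (fun k y => fderiv ℝ (D.B k) y u) 0 x Y = 0 := by
  have hY : Y ≠ 0 := by
    rintro rfl
    rw [norm_zero] at h
    exact absurd (D.lpos x) (not_lt.2 h.le)
  have hR1 : D.R1 0 x Y = 0 := D.crit x Y h h1
  have hR2 : D.R2 0 x Y = 0 := by
    have := D.transR x hY
    rw [hR1, h1, mul_zero, mul_zero, zero_add, add_zero] at this
    exact this
  obtain ⟨lam, -, hlam⟩ := dir_decomp D.al D.hal u
  have key : LB D.M (fun k y => fderiv ℝ (D.B k) y u) 0 x Y =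
      lam * D.R1 0 x Y + (starRingEnd ℂ) lam * D.R2 0 x Y := by
    unfold PD.R1 PD.R2 LB Lk
    rw [Finset.mul_sum, Finset.mul_sum, ← Finset.sum_add_distrib]
    refine Finset.sum_congr rfl fun j _ => ?_
    beta_reduce
    rw [hlam (D.B ((j : ℤ) - D.M)) x (((D.Bsm _).differentiable (by simp)) x)]
    ring
  rw [key, hR1, hR2]
  ring

/-- TASK SHBasic (9). -/
theorem R_smooth (D : PD) (k : ℕ) {z : V2 × ℂ} (hz : z.2 ≠ 0) :
    ContDiffAt ℝ (⊤ : ℕ∞) (fun z : V2 × ℂ => D.R k z.1 z.2) z := by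
  exact LkDer_contDiffAt D.M (fun j => D.B ((j : ℤ) - D.M)) (fun j => D.Bsm _) k hz

/-- TASK SHBasic (10). -/
theorem R_hasDerivAt (D : PD) (k : ℕ) (x : V2) {Y : ℂ} (hY : Y ≠ 0) :
    HasDerivAt (fun y => D.R k x y) (D.R (k + 1) x Y) Y := by
  exact Lk_hasDerivAt D.M _ k hY

/-- TASK SHBasic (11). -/
theorem R_per (D : PD) (k : ℕ) (Y : ℂ) : Per (fun x => D.R k x Y) := by
  intro x v
  unfold PD.R LB Lk
  refine Finset.sum_congr rfl fun j _ => ?_
  beta_reduce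
  rw [D.Bper ((j : ℤ) - D.M) x v]

/-- TASK SHBasic (12). -/
theorem pol_per (D : PD) : Per D.pol ∧ Per D.dpol := by
  constructor
  · intro x v
    unfold PD.pol
    refine Finset.sum_congr rfl fun j _ => ?_
    rw [D.Bper ((j : ℤ) - D.M) x v]
  · intro x v
    unfold PD.dpol
    refine Finset.sum_congr rfl fun j _ => ?_
    rw [D.Bper ((j : ℤ) - D.M) x v]

end PD

end Pool.W4b1b5d.SH
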