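import Pool.Agent.W_4b1b5d_h66.SHDefs
import Pool.Agent.W_4b1b5d_h3.Branch
import Pool.Agent.W_4b1b5d_h3.Grow
import Pool.Agent.W_4b1b5d_h3.BetaA

set_option autoImplicit false

namespace Pool.W4b1b5d.SH

open Pool.W4b1b5d.H3 Polynomial Set

namespace PD

theorem SHBasC_bdd {E : Type*} [NormedAddCommGroup E] {f : V2 → E} (hc : Continuous f)
    (hp : Per f) : ∃ M : ℝ, ∀ x, ‖f x‖ ≤ M := by
  obtain ⟨M, hM⟩ := (isCompact_Icc (a := (0 : V2)) (b := 1)).exists_bound_of_continuousOn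
    hc.continuousOn
  refine ⟨M, fun x => ?_⟩
  rw [← hp x (fun i => -⌊x i⌋)]
  refine hM _ ⟨fun i => ?_, fun i => ?_⟩
  · simp only [Pi.zero_apply, Pi.add_apply, Int.cast_neg]
    linarith [Int.floor_le (x i)]
  · simp only [Pi.one_apply, Pi.add_apply, Int.cast_neg]
    linarith [Int.lt_floor_add_one (x i)]

theorem SHBasC_per {E : Type*} [NormedAddCommGroup E] [NormedSpace ℝ E] {f : V2 → E}
    (hf : Per f) : Per (fderiv ℝ f) := by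
  intro x k
  have h1 := fderiv_comp_add_right (𝕜 := ℝ) (f := f) (x := x) (fun i => (k i : ℝ))
  rw [← h1]
  congr 1
  funext y
  exact hf y k

theorem SHBasC_lip {E : Type*} [NormedAddCommGroup E] [NormedSpace ℝ E] {f : V2 → E}
    (hf : ContDiff ℝ (⊤ : ℕ∞) f) (hp : Per f) :
    ∃ C : ℝ, 0 ≤ C ∧ ∀ x x', ‖f x - f x'‖ ≤ C * ‖x - x'‖ := by
  obtain ⟨C, hC⟩ := SHBasC_bdd (hf.continuous_fderiv (by simp)) (SHBasC_per hp)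
  refine ⟨C, (norm_nonneg _).trans (hC 0), fun x x' => ?_⟩
  exact convex_univ.norm_image_sub_le_of_norm_fderiv_le
    (fun y _ => (hf.differentiable (by simp)).differentiableAt) (fun y _ => hC y) (mem_univ x')
    (mem_univ x)

theorem SHBasC_pow (c T : ℝ) (hc : 0 < c) (hc1 : c ≤ 1) (hT : c ≤ T) (s t : ℤ) (n : ℕ)
    (hst : s ≤ t) (hn : t - s ≤ n) : T ^ s ≤ (c⁻¹) ^ n * T ^ t := by
  have hT0 : 0 < T := lt_of_lt_of_le hc hT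
  obtain ⟨m, hm⟩ := Int.eq_ofNat_of_zero_le (sub_nonneg.2 hst)
  have h1 : T ^ s = (T⁻¹) ^ m * T ^ t := by
    rw [← zpow_natCast, inv_zpow', ← zpow_add₀ hT0.ne', ← hm]
    congr 1
    ring
  rw [h1]
  refine mul_le_mul_of_nonneg_right ?_ (zpow_pos hT0 t).le
  have h2 : T⁻¹ ≤ c⁻¹ := inv_anti₀ hc hT
  have h3 : 1 ≤ c⁻¹ := (one_le_inv₀ hc).2 hc1
  calc (T⁻¹) ^ m ≤ (c⁻¹) ^ m := pow_le_pow_left₀ (inv_pos.2 hT0).le h2 m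
    _ ≤ (c⁻¹) ^ n := pow_le_pow_right₀ h3 (by omega)

theorem SHBasC_main (M : ℕ) (hM : 1 ≤ M) (u : ℕ → ℂ) (k : ℕ) (b F c : ℝ) (hb0 : 0 ≤ b)
    (hb : ∀ j, j ≤ 2 * M → ‖u j‖ ≤ b)
    (hF : ∀ j : ℕ, j < 2 * M → ‖fall ((j : ℤ) - M) k‖ ≤ F) (hc : 0 < c) (hc1 : c ≤ 1)
    (Y : ℂ) (hY : c ≤ ‖Y‖) :
    ‖Lk M u k Y - u (2 * M) * fall M k * Y ^ ((M : ℤ) - k)‖ * ‖Y‖ ^ k ≤
      (2 * M : ℝ) * (b * F * (c⁻¹) ^ (2 * M)) * ‖Y‖ ^ (M - 1) := by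
  have hY0 : 0 < ‖Y‖ := lt_of_lt_of_le hc hY
  unfold Lk
  rw [Finset.sum_range_succ]
  have e1 : (((2 * M : ℕ) : ℤ) - M) = M := by push_cast; ring
  rw [e1, add_sub_cancel_right]
  have hF0 : 0 ≤ F := (norm_nonneg _).trans (hF 0 (by omega))
  have h1 : ∀ j ∈ Finset.range (2 * M),
      ‖u j * fall ((j : ℤ) - M) k * Y ^ ((j : ℤ) - M - k)‖ ≤
        (b * F * (c⁻¹) ^ (2 * M)) * ‖Y‖ ^ (M - 1) / ‖Y‖ ^ k := by
    intro j hj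
    rw [Finset.mem_range] at hj
    rw [norm_mul, norm_mul, norm_zpow, le_div_iff₀ (pow_pos hY0 k)]
    have h2 := hb j hj.le
    have h3 := hF j hj
    have h4 : ‖Y‖ ^ ((j : ℤ) - M - k) * ‖Y‖ ^ k = ‖Y‖ ^ ((j : ℤ) - M) := by
      rw [← zpow_natCast, ← zpow_add₀ hY0.ne']
      congr 1
      ring
    have h5 : ‖Y‖ ^ ((j : ℤ) - M) ≤ (c⁻¹) ^ (2 * M) * ‖Y‖ ^ ((M : ℤ) - 1) :=
      SHBasC_pow c ‖Y‖ hc hc1 hY _ _ _ (by omega) (by push_cast; omega)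
    have h6 : ‖Y‖ ^ ((M : ℤ) - 1) = ‖Y‖ ^ (M - 1) := by
      rw [← zpow_natCast]
      congr 1
      omega
    rw [h6] at h5
    rw [mul_assoc, h4]
    have h7 : 0 ≤ ‖Y‖ ^ ((j : ℤ) - M) := (zpow_pos hY0 _).le
    calc ‖u j‖ * ‖fall ((j : ℤ) - M) k‖ * ‖Y‖ ^ ((j : ℤ) - M)
        ≤ (b * F) * ‖Y‖ ^ ((j : ℤ) - M) :=
          mul_le_mul_of_nonneg_right (mul_le_mul h2 h3 (norm_nonneg _) hb0) h7
      _ ≤ (b * F) * ((c⁻¹) ^ (2 * M) * ‖Y‖ ^ (M - 1)) :=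
          mul_le_mul_of_nonneg_left h5 (mul_nonneg hb0 hF0)
      _ = b * F * (c⁻¹) ^ (2 * M) * ‖Y‖ ^ (M - 1) := by ring
  have h8 := norm_sum_le_of_le _ h1
  rw [Finset.sum_const, Finset.card_range, nsmul_eq_mul] at h8
  rw [← le_div_iff₀ (pow_pos hY0 k)]
  refine h8.trans (le_of_eq ?_)
  push_cast
  ring

theorem SHBasC_Bbdd (D : PD) : ∃ b : ℝ, 0 ≤ b ∧ ∀ (j : ℕ) (x : V2), j ≤ 2 * D.M →
    ‖D.B ((j : ℤ) - D.M) x‖ ≤ b := by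
  have h : ∀ j : ℕ, ∃ m : ℝ, ∀ x, ‖D.B ((j : ℤ) - D.M) x‖ ≤ m :=
    fun j => SHBasC_bdd (D.Bsm _).continuous (D.Bper _)
  choose m hm using h
  have h0 : ∀ j, 0 ≤ m j := fun j => (norm_nonneg _).trans (hm j 0)
  refine ⟨∑ j ∈ Finset.range (2 * D.M + 1), m j, Finset.sum_nonneg fun j _ => h0 j,
    fun j x hj => (hm j x).trans ?_⟩
  exact Finset.single_le_sum (f := m) (fun i _ => h0 i) (Finset.mem_range.2 (by omega))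

/-- TASK SHBasic (13). -/
theorem l_bounds (D : PD) : ∃ c C : ℝ, 0 < c ∧ ∀ x, c ≤ D.l x ∧ D.l x ≤ C := by
  obtain ⟨C, hC⟩ := SHBasC_bdd (f := D.l) D.lsm.continuous D.lper
  have hinv : Continuous fun x => (D.l x)⁻¹ :=
    D.lsm.continuous.inv₀ fun x => (D.lpos x).ne'
  have hper : Per fun x => (D.l x)⁻¹ := by
    intro x k
    show (D.l _)⁻¹ = (D.l x)⁻¹
    rw [D.lper x k]
  obtain ⟨C', hC'⟩ := SHBasC_bdd hinv hper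
  have h1 : ∀ x, (D.l x)⁻¹ ≤ C' := fun x => by
    have := hC' x
    rwa [Real.norm_of_nonneg (inv_pos.2 (D.lpos x)).le] at this
  have hC'0 : 0 < C' := lt_of_lt_of_le (inv_pos.2 (D.lpos 0)) (h1 0)
  refine ⟨C'⁻¹, C, inv_pos.2 hC'0, fun x => ⟨?_, ?_⟩⟩
  · exact inv_le_of_inv_le₀ (D.lpos x) (h1 x)
  · have := hC x
    rwa [Real.norm_of_nonneg (D.lpos x).le] at this

/-- TASK SHBasic (14).  `a Y^M = R - ∑_{k<M} B k Y^k`, the other terms are at most `C |Y|^(M-1)`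
for `|Y| ≥ l x ≥ c`. -/
theorem R_grow (D : PD) : ∃ C : ℝ, 0 < C ∧ ∀ (x : V2) (Y : ℂ), D.l x ≤ ‖Y‖ →
    ‖D.R 0 x Y - D.a * Y ^ D.M‖ ≤ C * ‖Y‖ ^ (D.M - 1) ∧
      ‖D.R 1 x Y - D.M * D.a * Y ^ (D.M - 1)‖ * ‖Y‖ ≤ C * ‖Y‖ ^ (D.M - 1) := by
  obtain ⟨c₀, C₀, hc₀, hl⟩ := D.l_bounds
  obtain ⟨b, hb0, hb⟩ := SHBasC_Bbdd D
  obtain ⟨c, hc⟩ : ∃ c : ℝ, c = min c₀ 1 := ⟨_, rfl⟩
  have hcpos : 0 < c := by rw [hc]; exact lt_min hc₀ one_pos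
  have hc1 : c ≤ 1 := by rw [hc]; exact min_le_right _ _
  have hM0 : (0 : ℝ) < D.M := by
    have := D.hM
    exact_mod_cast this
  have hM1 : (1 : ℝ) ≤ D.M := by exact_mod_cast D.hM
  have hK : 0 ≤ (2 * D.M : ℝ) * (b * D.M * (c⁻¹) ^ (2 * D.M)) := by positivity
  refine ⟨(2 * D.M : ℝ) * (b * D.M * (c⁻¹) ^ (2 * D.M)) + 1, by linarith, fun x Y hY => ?_⟩
  have hcY : c ≤ ‖Y‖ := by
    rw [hc]
    exact ((min_le_left _ _).trans (hl x).1).trans hY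
  have hY0 : 0 < ‖Y‖ := lt_of_lt_of_le hcpos hcY
  have hYM : 0 ≤ ‖Y‖ ^ (D.M - 1) := (pow_pos hY0 _).le
  have htop : D.B (((2 * D.M : ℕ) : ℤ) - D.M) x = D.a := by
    have e1 : (((2 * D.M : ℕ) : ℤ) - D.M) = D.M := by push_cast; ring
    rw [e1, D.top]
  constructor
  · have h1 := SHBasC_main D.M D.hM (fun j => D.B ((j : ℤ) - D.M) x) 0 b 1 c hb0
      (fun j hj => hb j x hj) (fun j _ => by rw [Grow_fall0, norm_one]) hcpos hc1 Y hcY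
    simp only [htop, Grow_fall0, mul_one, pow_zero, Nat.cast_zero, sub_zero, zpow_natCast] at h1
    refine le_trans h1 (mul_le_mul_of_nonneg_right ?_ hYM)
    have h2 : (2 * D.M : ℝ) * (b * (c⁻¹) ^ (2 * D.M)) ≤
        (2 * D.M : ℝ) * (b * D.M * (c⁻¹) ^ (2 * D.M)) := by
      refine mul_le_mul_of_nonneg_left (mul_le_mul_of_nonneg_right ?_ (by positivity))
        (by positivity)
      exact le_mul_of_one_le_right hb0 hM1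
    linarith
  · have h1 := SHBasC_main D.M D.hM (fun j => D.B ((j : ℤ) - D.M) x) 1 b D.M c hb0
      (fun j hj => hb j x hj) (fun j hj => by
        rw [Grow_fall1, Complex.norm_intCast]
        have h2 : |((j : ℤ) - D.M)| ≤ D.M := by
          rw [abs_le]
          omega
        have h3 : ((|((j : ℤ) - D.M)| : ℤ) : ℝ) ≤ ((D.M : ℤ) : ℝ) := Int.cast_le.2 h2
        rw [Int.cast_abs] at h3
        exact_mod_cast h3) hcpos hc1 Y hcY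
    have h4 : Y ^ ((D.M : ℤ) - (1 : ℕ)) = Y ^ (D.M - 1) := by
      rw [← zpow_natCast]
      congr 1
      have := D.hM
      omega
    simp only [htop, Grow_fall1, pow_one, h4, Int.cast_natCast] at h1
    have h5 : D.a * (D.M : ℂ) * Y ^ (D.M - 1) = D.M * D.a * Y ^ (D.M - 1) := by ring
    rw [h5] at h1
    refine le_trans h1 (mul_le_mul_of_nonneg_right ?_ hYM)
    linarith

/-- TASK SHBasic (15).  From (14). -/
theorem R_bound (D : PD) : ∃ C : ℝ, 0 < C ∧ (∀ (x : V2) (Y : ℂ), D.l x ≤ ‖Y‖ →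
    ‖Y‖ ≤ C * (1 + ‖D.R 0 x Y‖)) ∧
    (∀ (x : V2) (Y : ℂ), D.l x ≤ ‖Y‖ → D.R 1 x Y = 0 → ‖Y‖ ≤ C) := by
  obtain ⟨C, hC, h⟩ := D.R_grow
  have ha : 0 < ‖D.a‖ := norm_pos_iff.2 D.ha
  have hM1 : (1 : ℝ) ≤ D.M := by exact_mod_cast D.hM
  refine ⟨1 + 2 * C / ‖D.a‖ + 2 / ‖D.a‖, by positivity, ?_, ?_⟩
  · intro x Y hY
    have hY0 : 0 < ‖Y‖ := lt_of_lt_of_le (D.lpos x) hY
    have hR0 := norm_nonneg (D.R 0 x Y)
    have p1 : 0 < 2 * C / ‖D.a‖ := by positivity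
    have p2 : 0 < 2 / ‖D.a‖ := by positivity
    have hK : 0 ≤ 1 + 2 * C / ‖D.a‖ + 2 / ‖D.a‖ := by positivity
    have hKR : 0 ≤ (1 + 2 * C / ‖D.a‖ + 2 / ‖D.a‖) * ‖D.R 0 x Y‖ := mul_nonneg hK hR0
    have hexp : (1 + 2 * C / ‖D.a‖ + 2 / ‖D.a‖) * (1 + ‖D.R 0 x Y‖) =
        (1 + 2 * C / ‖D.a‖ + 2 / ‖D.a‖) +
          (1 + 2 * C / ‖D.a‖ + 2 / ‖D.a‖) * ‖D.R 0 x Y‖ := by ring
    by_cases h1 : ‖Y‖ ≤ 1 + 2 * C / ‖D.a‖
    · linarith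
    · push Not at h1
      have hY1 : 1 ≤ ‖Y‖ := by linarith
      have hY2 : 2 * C ≤ ‖Y‖ * ‖D.a‖ := by
        rw [← div_le_iff₀ ha]
        linarith
      have h2 := (h x Y hY).1
      have h3 : ‖D.a * Y ^ D.M‖ ≤ ‖D.R 0 x Y‖ + ‖D.R 0 x Y - D.a * Y ^ D.M‖ := by
        have h3 := norm_sub_le (D.R 0 x Y) (D.R 0 x Y - D.a * Y ^ D.M)
        rwa [sub_sub_cancel] at h3
      have h4 : ‖D.a * Y ^ D.M‖ = ‖D.a‖ * ‖Y‖ * ‖Y‖ ^ (D.M - 1) := by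
        rw [norm_mul, norm_pow, mul_assoc, ← pow_succ', Nat.sub_add_cancel D.hM]
      have h5 : 1 ≤ ‖Y‖ ^ (D.M - 1) := one_le_pow₀ hY1
      have h6 : (‖D.a‖ * ‖Y‖ - C) * ‖Y‖ ^ (D.M - 1) ≤ ‖D.R 0 x Y‖ := by
        rw [sub_mul]
        linarith
      have h7 : (‖D.a‖ * ‖Y‖ - C) * 1 ≤ (‖D.a‖ * ‖Y‖ - C) * ‖Y‖ ^ (D.M - 1) := by
        refine mul_le_mul_of_nonneg_left h5 ?_
        nlinarith
      have h8 : ‖Y‖ * ‖D.a‖ / 2 ≤ ‖D.R 0 x Y‖ := by nlinarith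
      have h9 : ‖Y‖ ≤ 2 / ‖D.a‖ * ‖D.R 0 x Y‖ := by
        rw [div_mul_eq_mul_div, le_div_iff₀ ha]
        linarith
      have h10 : (2 / ‖D.a‖) * ‖D.R 0 x Y‖ ≤
          (1 + 2 * C / ‖D.a‖ + 2 / ‖D.a‖) * ‖D.R 0 x Y‖ :=
        mul_le_mul_of_nonneg_right (by linarith) hR0
      linarith
  · intro x Y hY hR
    have hY0 : 0 < ‖Y‖ := lt_of_lt_of_le (D.lpos x) hY
    have h2 := (h x Y hY).2
    rw [hR, zero_sub, norm_neg, norm_mul, norm_mul, norm_pow, Complex.norm_natCast] at h2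
    have hYM : 0 < ‖Y‖ ^ (D.M - 1) := pow_pos hY0 _
    have h3 : (D.M * ‖D.a‖ * ‖Y‖) * ‖Y‖ ^ (D.M - 1) ≤ C * ‖Y‖ ^ (D.M - 1) := by
      refine le_trans (le_of_eq ?_) h2
      ring
    have h4 : D.M * ‖D.a‖ * ‖Y‖ ≤ C := le_of_mul_le_mul_right h3 hYM
    have h5 : 1 * (‖D.a‖ * ‖Y‖) ≤ D.M * (‖D.a‖ * ‖Y‖) :=
      mul_le_mul_of_nonneg_right hM1 (by positivity)
    have h6 : ‖Y‖ ≤ C / ‖D.a‖ := by
      rw [le_div_iff₀ ha]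
      linarith
    have h7 : 2 * C / ‖D.a‖ = C / ‖D.a‖ + C / ‖D.a‖ := by ring
    have h8 : 0 < C / ‖D.a‖ := by positivity
    have h9 : 0 < 2 / ‖D.a‖ := by positivity
    linarith

/-- TASK SHBasic (16).  `D.R k` is bounded on `c ≤ ‖Y‖ ≤ ρ`, uniformly in `x`. -/
theorem R_bdd (D : PD) (k : ℕ) (c ρ : ℝ) (hc : 0 < c) : ∃ C : ℝ, 0 < C ∧ ∀ (x : V2) (Y : ℂ),
    c ≤ ‖Y‖ → ‖Y‖ ≤ ρ → ‖D.R k x Y‖ ≤ C := by
  obtain ⟨b, hb0, hb⟩ := SHBasC_Bbdd D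
  obtain ⟨Q, hQ⟩ : ∃ Q : ℝ, Q = max 1 (max ρ c⁻¹) := ⟨_, rfl⟩
  have hQ1 : 1 ≤ Q := by rw [hQ]; exact le_max_left _ _
  have hQ0 : 0 < Q := by linarith
  have hQρ : ρ ≤ Q := by rw [hQ]; exact (le_max_left _ _).trans (le_max_right _ _)
  have hQc : c⁻¹ ≤ Q := by rw [hQ]; exact (le_max_right _ _).trans (le_max_right _ _)
  have hpow : ∀ (T : ℝ) (s : ℤ), c ≤ T → T ≤ ρ → T ^ s ≤ Q ^ s.natAbs := by
    intro T s h1 h2
    have hT0 : 0 < T := lt_of_lt_of_le hc h1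
    rcases s.natAbs_eq with h3 | h3
    · have e : T ^ s = T ^ s.natAbs := by
        conv_lhs => rw [h3, zpow_natCast]
      rw [e]
      exact pow_le_pow_left₀ hT0.le (h2.trans hQρ) _
    · have e : T ^ s = (T⁻¹) ^ s.natAbs := by
        conv_lhs => rw [h3, zpow_neg, zpow_natCast]
        rw [inv_pow]
      rw [e]
      exact pow_le_pow_left₀ (inv_pos.2 hT0).le ((inv_anti₀ hc h1).trans hQc) _
  have hS : 0 ≤ ∑ j ∈ Finset.range (2 * D.M + 1), b * ‖fall ((j : ℤ) - D.M) k‖ *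
      Q ^ ((j : ℤ) - D.M - k).natAbs := Finset.sum_nonneg fun j _ => by positivity
  refine ⟨∑ j ∈ Finset.range (2 * D.M + 1), b * ‖fall ((j : ℤ) - D.M) k‖ *
      Q ^ ((j : ℤ) - D.M - k).natAbs + 1, by linarith, fun x Y h1 h2 => ?_⟩
  have h3 : ‖D.R k x Y‖ ≤ ∑ j ∈ Finset.range (2 * D.M + 1), b * ‖fall ((j : ℤ) - D.M) k‖ *
      Q ^ ((j : ℤ) - D.M - k).natAbs := by
    unfold R LB Lk
    refine norm_sum_le_of_le _ fun j hj => ?_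
    rw [Finset.mem_range] at hj
    rw [norm_mul, norm_mul, norm_zpow]
    have h4 := hb j x (by omega)
    have h5 := hpow ‖Y‖ ((j : ℤ) - D.M - k) h1 h2
    exact mul_le_mul (mul_le_mul_of_nonneg_right h4 (norm_nonneg _)) h5
      (zpow_nonneg (norm_nonneg _) _) (by positivity)
  linarith

/-- TASK SHBasic (17).  Lipschitz in `x`: the coefficients are smooth and periodic. -/
theorem B_lip (D : PD) : ∃ C : ℝ, 0 < C ∧ ∀ (k : ℤ) (x x' : V2), -(D.M : ℤ) ≤ k → k ≤ D.M →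
    ‖D.B k x - D.B k x'‖ ≤ C * ‖x - x'‖ ∧
      ∀ u : V2, ‖fderiv ℝ (D.B k) x u - fderiv ℝ (D.B k) x' u‖ ≤ C * ‖x - x'‖ * ‖u‖ := by
  have h1 : ∀ k : ℤ, ∃ C : ℝ, 0 ≤ C ∧ ∀ x x', ‖D.B k x - D.B k x'‖ ≤ C * ‖x - x'‖ :=
    fun k => SHBasC_lip (D.Bsm k) (D.Bper k)
  have h2 : ∀ k : ℤ, ∃ C : ℝ, 0 ≤ C ∧ ∀ x x',
      ‖fderiv ℝ (D.B k) x - fderiv ℝ (D.B k) x'‖ ≤ C * ‖x - x'‖ :=
    fun k => SHBasC_lip ((D.Bsm k).fderiv_right (by simp)) (SHBasC_per (D.Bper k))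
  choose C1 hC1 hL1 using h1
  choose C2 hC2 hL2 using h2
  have hs : ∀ k ∈ Finset.Icc (-(D.M : ℤ)) D.M, C1 k + C2 k ≤
      ∑ k ∈ Finset.Icc (-(D.M : ℤ)) D.M, (C1 k + C2 k) := fun k hk =>
    Finset.single_le_sum (f := fun k => C1 k + C2 k) (fun i _ => add_nonneg (hC1 i) (hC2 i)) hk
  have hs0 : 0 ≤ ∑ k ∈ Finset.Icc (-(D.M : ℤ)) D.M, (C1 k + C2 k) :=
    Finset.sum_nonneg fun i _ => add_nonneg (hC1 i) (hC2 i)
  refine ⟨∑ k ∈ Finset.Icc (-(D.M : ℤ)) D.M, (C1 k + C2 k) + 1, by linarith,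
    fun k x x' hk1 hk2 => ?_⟩
  have h3 := hs k (Finset.mem_Icc.2 ⟨hk1, hk2⟩)
  have h4 := hC1 k
  have h5 := hC2 k
  refine ⟨(hL1 k x x').trans (mul_le_mul_of_nonneg_right (by linarith) (norm_nonneg _)),
    fun u => ?_⟩
  have h6 : fderiv ℝ (D.B k) x u - fderiv ℝ (D.B k) x' u =
      (fderiv ℝ (D.B k) x - fderiv ℝ (D.B k) x') u := by
    rw [sub_apply]
  rw [h6]
  refine ((fderiv ℝ (D.B k) x - fderiv ℝ (D.B k) x').le_opNorm u).trans ?_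
  refine mul_le_mul_of_nonneg_right ?_ (norm_nonneg _)
  exact (hL2 k x x').trans (mul_le_mul_of_nonneg_right (by linarith) (norm_nonneg _))

end PD

end Pool.W4b1b5d.SH
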