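import Pool.Agent.W_4b1b5d_h66.SHStrip

set_option autoImplicit false

namespace Pool.W4b1b5d.SH

open Pool.W4b1b5d.H3 Polynomial Set

namespace Sh

theorem SHGlueE_open (s τ : ℝ) : IsOpen (Ks s τ) := by
  have h : Continuous fun v : ℂ => s * v.im := continuous_const.mul Complex.continuous_im
  exact (isOpen_lt continuous_const h).inter (isOpen_lt h continuous_const)

theorem SHGlueE_sub (s τ : ℝ) : Ks s τ ⊆ Us s τ := fun _ hv => ⟨hv.1.le, hv.2⟩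

theorem SHGlueE_ne {D : PD} {e : ℕ} (he : 1 ≤ e) {s τ : ℝ} (S : Sh D e s τ)
    (j : Fin S.n) (x : V2) {v : ℂ} (hv : v ∈ Ks s τ) : S.P j x v ≠ 0 := by
  intro h
  have h1 := S.lt j x v hv
  rw [h, norm_zero, zero_pow (by omega)] at h1
  exact lt_asymm h1 (D.lpos x)

theorem SHGlueE_R1 {D : PD} {e : ℕ} {s τ : ℝ} (hH : Ks s τ ⊆ D.H) (S : Sh D e s τ)
    (j : Fin S.n) (x : V2) {v : ℂ} (hv : v ∈ Ks s τ) : D.R 1 x (S.P j x v ^ e) ≠ 0 := by
  refine D.E_R1 e (x, S.P j x v) ⟨S.lt j x v hv, ?_⟩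
  show D.R 0 x (S.P j x v ^ e) ∈ D.H
  rw [S.root j x v (SHGlueE_sub s τ hv)]
  exact hH hv

theorem SHGlueE_at {D : PD} {e : ℕ} {s τ : ℝ} (S : Sh D e s τ)
    (j : Fin S.n) (x : V2) {v : ℂ} (hv : v ∈ Ks s τ) :
    ContDiffAt ℝ (⊤ : ℕ∞) (fun z : V2 × ℂ => S.P j z.1 z.2) (x, v) :=
  (S.smooth j).contDiffAt ((isOpen_univ.prod (SHGlueE_open s τ)).mem_nhds ⟨mem_univ _, hv⟩)

theorem SHGlueE_diff {D : PD} {e : ℕ} {s τ : ℝ} (S : Sh D e s τ)
    (j : Fin S.n) (x : V2) {v : ℂ} (hv : v ∈ Ks s τ) :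
    DifferentiableAt ℝ (fun y => S.P j y v) x := by
  have h1 : DifferentiableAt ℝ (fun z : V2 × ℂ => S.P j z.1 z.2) (x, v) :=
    (SHGlueE_at S j x hv).differentiableAt (by simp)
  have h2 : DifferentiableAt ℝ (fun y : V2 => (y, v)) x := by fun_prop
  exact DifferentiableAt.comp (g := fun z : V2 × ℂ => S.P j z.1 z.2)
    (f := fun y : V2 => (y, v)) x h1 h2

/-- TASK SHGlue (5).  Derivatives inside the strip. -/
theorem dd_in {D : PD} {e : ℕ} (he : 1 ≤ e) {s τ : ℝ} (hH : Ks s τ ⊆ D.H) (S : Sh D e s τ)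
    (j : Fin S.n) (x : V2) (v : ℂ) (hv : v ∈ Ks s τ) (b : Fin 2 → ℂ) :
    (e : ℂ) * S.P j x v ^ (e - 1) * D.R 1 x (S.P j x v ^ e) * dd b (fun y => S.P j y v) x
      + LB D.M (fun k => dd b (D.B k)) 0 x (S.P j x v ^ e) = 0 ∧
      D.R 1 x (S.P j x v ^ e) ≠ 0 ∧ DifferentiableAt ℝ (fun y => S.P j y v) x := by
  have h1 := SHGlueE_diff S j x hv
  have h2 : (fun y => S.P j y v) x ≠ 0 := SHGlueE_ne he S j x hv
  have h3 : ∀ᶠ y in nhds x, D.R 0 y ((fun y => S.P j y v) y ^ e) = v :=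
    Filter.Eventually.of_forall fun y => S.root j y v (SHGlueE_sub s τ hv)
  have h4 := D.sol_dd e he b (q := fun y => S.P j y v) (x := x) h1 h2 v h3
  exact ⟨h4, SHGlueE_R1 hH S j x hv, h1⟩

/-- TASK SHGlue (6).  Holomorphic in `v`. -/
theorem dv_in {D : PD} {e : ℕ} (he : 1 ≤ e) {s τ : ℝ} (hH : Ks s τ ⊆ D.H) (S : Sh D e s τ)
    (j : Fin S.n) (x : V2) (v : ℂ) (hv : v ∈ Ks s τ) :
    HasDerivAt (fun u => S.P j x u)
      (((e : ℂ) * S.P j x v ^ (e - 1) * D.R 1 x (S.P j x v ^ e))⁻¹) v := by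
  have h1 : ContinuousAt (fun z : V2 × ℂ => S.P j z.1 z.2) (x, v) :=
    (SHGlueE_at S j x hv).continuousAt
  have h2 : ContinuousAt (fun u : ℂ => ((x, u) : V2 × ℂ)) v := by fun_prop
  have h3 : ContinuousAt (fun u => S.P j x u) v :=
    ContinuousAt.comp (f := fun u : ℂ => ((x, u) : V2 × ℂ))
      (g := fun z : V2 × ℂ => S.P j z.1 z.2) h1 h2
  have h4 : (fun u => S.P j x u) v ≠ 0 := SHGlueE_ne he S j x hv
  have h5 : ∀ᶠ w in nhds v, D.R 0 x ((fun u => S.P j x u) w ^ e) = w := by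
    filter_upwards [(SHGlueE_open s τ).mem_nhds hv] with w hw
    exact S.root j x w (SHGlueE_sub s τ hw)
  have h6 : D.R 1 x ((fun u => S.P j x u) v ^ e) ≠ 0 := SHGlueE_R1 hH S j x hv
  exact D.sol_dv e he x (q := fun u => S.P j x u) (v := v) h3 h4 h5 h6

/-- TASK SHGlue (7).  Closedness of the momentum forms inside the strip. -/
theorem closed_in {D : PD} {s τ : ℝ} (hH : Ks s τ ⊆ D.H) (S : Sh D 2 s τ) (j : Fin S.n) (x : V2)
    (v : ℂ) (hv : v ∈ Ks s τ) :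
    dd (cj D.al) (fun y => S.P j y v) x
      = dd D.al (fun y => (D.l y : ℂ) / S.P j y v) x := by
  have h1 := SHGlueE_diff S j x hv
  have h2 : (fun y => S.P j y v) x ≠ 0 := SHGlueE_ne (by norm_num) S j x hv
  have h3 : ∀ᶠ y in nhds x, D.R 0 y ((fun y => S.P j y v) y ^ 2) = v :=
    Filter.Eventually.of_forall fun y => S.root j y v (SHGlueE_sub s τ hv)
  have h4 : D.R 1 x ((fun y => S.P j y v) x ^ 2) ≠ 0 := SHGlueE_R1 hH S j x hv
  exact D.sol_closed (P := fun y => S.P j y v) (x := x) h1 h2 v h3 h4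

/-- TASK SHGlue (8).  On the circle the momentum is real: `l / P = conj P`. -/
theorem circle {D : PD} {s τ : ℝ} (S : Sh D 2 s τ) (j : Fin S.n) (x : V2) (v : ℂ)
    (h : ‖S.P j x v‖ ^ 2 = D.l x) : (D.l x : ℂ) / S.P j x v = (starRingEnd ℂ) (S.P j x v) := by
  have hne : S.P j x v ≠ 0 := by
    intro h0
    rw [h0, norm_zero, zero_pow (by norm_num)] at h
    exact (D.lpos x).ne h
  rw [div_eq_iff hne, ← h, mul_comm, Complex.mul_conj, Complex.normSq_eq_norm_sq]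

end Sh

end Pool.W4b1b5d.SH
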