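import Pool.Agent.W_4b1b5d_h66.SHDefs
import Pool.Agent.W_4b1b5d_h3.Branch
import Pool.Agent.W_4b1b5d_h3.BetaA

set_option autoImplicit false

namespace Pool.W4b1b5d.SH

open Pool.W4b1b5d.H3 Polynomial Set

/-- The covector `p` with `al·p = P`, `conj(al)·p = Q`. -/
noncomputable def cov (al : Fin 2 → ℂ) (P Q : ℂ) : Fin 2 → ℂ :=
  ![((starRingEnd ℂ) (al 1) * P - al 1 * Q) / (al 0 * (starRingEnd ℂ) (al 1) - al 1 * (starRingEnd ℂ) (al 0)),
    (al 0 * Q - (starRingEnd ℂ) (al 0) * P) / (al 0 * (starRingEnd ℂ) (al 1) - al 1 * (starRingEnd ℂ) (al 0))]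

theorem cov_det (al : Fin 2 → ℂ) (hal : ((starRingEnd ℂ) (al 0) * al 1).im ≠ 0) :
    al 0 * (starRingEnd ℂ) (al 1) - al 1 * (starRingEnd ℂ) (al 0) ≠ 0 := by
  intro h
  apply hal
  have h1 := congrArg Complex.im h
  simp only [Complex.sub_im, Complex.mul_im, Complex.conj_re, Complex.conj_im,
    Complex.zero_im] at h1 ⊢
  linarith

theorem cov0 (al : Fin 2 → ℂ) (P Q : ℂ) : cov al P Q 0
    = ((starRingEnd ℂ) (al 1) * P - al 1 * Q)
      / (al 0 * (starRingEnd ℂ) (al 1) - al 1 * (starRingEnd ℂ) (al 0)) := rfl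

theorem cov1 (al : Fin 2 → ℂ) (P Q : ℂ) : cov al P Q 1
    = (al 0 * Q - (starRingEnd ℂ) (al 0) * P)
      / (al 0 * (starRingEnd ℂ) (al 1) - al 1 * (starRingEnd ℂ) (al 0)) := rfl

/-- TASK SHLoc (7). -/
theorem cov_spec (al : Fin 2 → ℂ) (hal : ((starRingEnd ℂ) (al 0) * al 1).im ≠ 0) (P Q : ℂ) :
    al 0 * cov al P Q 0 + al 1 * cov al P Q 1 = P ∧
      (starRingEnd ℂ) (al 0) * cov al P Q 0 + (starRingEnd ℂ) (al 1) * cov al P Q 1 = Q := by
  have hd := cov_det al hal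
  rw [cov0, cov1]
  constructor
  · rw [mul_div_assoc', mul_div_assoc', ← add_div, div_eq_iff hd]
    ring
  · rw [mul_div_assoc', mul_div_assoc', ← add_div, div_eq_iff hd]
    ring

/-- TASK SHLoc (8).  `p` is real iff `Q = conj P`. -/
theorem cov_real (al : Fin 2 → ℂ) (hal : ((starRingEnd ℂ) (al 0) * al 1).im ≠ 0) (P : ℂ)
    (i : Fin 2) : (cov al P ((starRingEnd ℂ) P) i).im = 0 := by
  have hd := cov_det al hal
  rw [← Complex.conj_eq_iff_im]
  have hd' : (starRingEnd ℂ) (al 0 * (starRingEnd ℂ) (al 1) - al 1 * (starRingEnd ℂ) (al 0))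
      = -(al 0 * (starRingEnd ℂ) (al 1) - al 1 * (starRingEnd ℂ) (al 0)) := by
    simp only [map_sub, map_mul, Complex.conj_conj]
    ring
  fin_cases i
  · show (starRingEnd ℂ) (cov al P ((starRingEnd ℂ) P) 0) = cov al P ((starRingEnd ℂ) P) 0
    rw [cov0, map_div₀, hd', div_eq_div_iff (neg_ne_zero.mpr hd) hd]
    simp only [map_sub, map_mul, Complex.conj_conj]
    ring
  · show (starRingEnd ℂ) (cov al P ((starRingEnd ℂ) P) 1) = cov al P ((starRingEnd ℂ) P) 1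
    rw [cov1, map_div₀, hd', div_eq_div_iff (neg_ne_zero.mpr hd) hd]
    simp only [map_sub, map_mul, Complex.conj_conj]
    ring

/-- TASK SHLoc (9).  Curl: `db P = dd Q` means that the form `cov al P Q · dx` is closed. -/
theorem cov_closed (al : Fin 2 → ℂ) (hal : ((starRingEnd ℂ) (al 0) * al 1).im ≠ 0)
    {P Q : V2 → ℂ} {x : V2} (hP : DifferentiableAt ℝ P x) (hQ : DifferentiableAt ℝ Q x)
    (h : dd (cj al) P x = dd al Q x) :
    fderiv ℝ (fun y => cov al (P y) (Q y) 1) x (Pi.single 0 1)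
      = fderiv ℝ (fun y => cov al (P y) (Q y) 0) x (Pi.single 1 1) := by
  have hd := cov_det al hal
  set Δ := al 0 * (starRingEnd ℂ) (al 1) - al 1 * (starRingEnd ℂ) (al 0) with hΔ
  have h0 : HasFDerivAt (fun y => cov al (P y) (Q y) 0)
      (Δ⁻¹ • ((starRingEnd ℂ) (al 1) • fderiv ℝ P x - al 1 • fderiv ℝ Q x)) x := by
    have e : (fun y => cov al (P y) (Q y) 0)
        = fun y => Δ⁻¹ * ((starRingEnd ℂ) (al 1) * P y - al 1 * Q y) := by
      funext y
      rw [cov0, div_eq_inv_mul]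
    rw [e]
    exact ((hP.hasFDerivAt.const_mul _).sub (hQ.hasFDerivAt.const_mul _)).const_mul _
  have h1 : HasFDerivAt (fun y => cov al (P y) (Q y) 1)
      (Δ⁻¹ • (al 0 • fderiv ℝ Q x - (starRingEnd ℂ) (al 0) • fderiv ℝ P x)) x := by
    have e : (fun y => cov al (P y) (Q y) 1)
        = fun y => Δ⁻¹ * (al 0 * Q y - (starRingEnd ℂ) (al 0) * P y) := by
      funext y
      rw [cov1, div_eq_inv_mul]
    rw [e]
    exact ((hQ.hasFDerivAt.const_mul _).sub (hP.hasFDerivAt.const_mul _)).const_mul _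
  rw [h0.fderiv, h1.fderiv]
  unfold dd cj at h
  rw [Fin.sum_univ_two, Fin.sum_univ_two] at h
  simp only [smul_apply, sub_apply, smul_eq_mul]
  linear_combination (-Δ⁻¹) * h

end Pool.W4b1b5d.SH
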