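import Mathlib

set_option autoImplicit false

namespace Pool.W4b1b5d.SH

open Polynomial Set

theorem SHPoly_lower (s : Multiset ℂ) (f : ℂ → ℝ) (a : ℝ) (ha : 0 ≤ a) (h : ∀ r ∈ s, a ≤ f r) :
    a ^ s.card ≤ (s.map f).prod := by
  induction s using Multiset.induction_on with
  | empty => simp
  | cons r s ih =>
    rw [Multiset.card_cons, Multiset.map_cons, Multiset.prod_cons, pow_succ']
    have h1 := ih fun x hx => h x (Multiset.mem_cons_of_mem hx)
    have h2 := h r (Multiset.mem_cons_self r s)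
    exact mul_le_mul h2 h1 (pow_nonneg ha _) (ha.trans h2)

theorem SHPoly_upper (s : Multiset ℂ) (f g : ℂ → ℝ) (hf : ∀ r ∈ s, 0 ≤ f r)
    (h : ∀ r ∈ s, f r ≤ 2 * g r) :
    0 ≤ (s.map f).prod ∧ (s.map f).prod ≤ 2 ^ s.card * (s.map g).prod := by
  induction s using Multiset.induction_on with
  | empty => simp
  | cons r s ih =>
    rw [Multiset.card_cons, Multiset.map_cons, Multiset.map_cons, Multiset.prod_cons,
      Multiset.prod_cons]
    obtain ⟨h0, h1⟩ := ih (fun x hx => hf x (Multiset.mem_cons_of_mem hx))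
      fun x hx => h x (Multiset.mem_cons_of_mem hx)
    have h2 := h r (Multiset.mem_cons_self r s)
    have h3 := hf r (Multiset.mem_cons_self r s)
    refine ⟨mul_nonneg h3 h0, ?_⟩
    calc f r * (s.map f).prod ≤ (2 * g r) * (2 ^ s.card * (s.map g).prod) :=
          mul_le_mul h2 h1 h0 (h3.trans h2)
      _ = 2 ^ (s.card + 1) * (g r * (s.map g).prod) := by ring

theorem SHPoly_norm (p : ℂ[X]) (z : ℂ) :
    ‖p.eval z‖ = ‖p.leadingCoeff‖ * (p.roots.map fun r => ‖z - r‖).prod := by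
  have h1 := (IsAlgClosed.splits p).eval_eq_prod_roots z
  rw [h1, norm_mul]
  congr 1
  have h2 := map_multiset_prod (normHom : ℂ →*₀ ℝ) (p.roots.map (z - ·))
  rw [Multiset.map_map] at h2
  exact h2

/-- TASK SHPoly (1).  Nearest root.  Let `c` be a root of `p` nearest to `z` (the roots with
multiplicity are a multiset of `natDegree` elements, `p` splits over `ℂ`:
`p = C lead * ∏ (X - C r)`, `Polynomial.eval_eq_prod_roots...`, or `IsAlgClosed.splits`).  Then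
`‖p.eval z‖ = ‖lead‖ ∏ ‖z - r‖ ≥ ‖lead‖ ‖z - c‖^n`, and for `y` in the segment `[z,c]`
`‖y - r‖ ≤ ‖y - z‖ + ‖z - r‖ ≤ ‖z - c‖ + ‖z - r‖ ≤ 2 ‖z - r‖`, so
`‖p.eval y‖ ≤ 2^n ‖p.eval z‖`. -/
theorem near_root (p : ℂ[X]) (hp : 0 < p.natDegree) (z : ℂ) :
    ∃ c : ℂ, p.IsRoot c ∧ ‖p.leadingCoeff‖ * ‖z - c‖ ^ p.natDegree ≤ ‖p.eval z‖ ∧
      ∀ y ∈ segment ℝ z c, ‖p.eval y‖ ≤ 2 ^ p.natDegree * ‖p.eval z‖ := by
  have hcard := (IsAlgClosed.splits p).natDegree_eq_card_roots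
  have hp0 : p ≠ 0 := by
    rintro rfl
    simp at hp
  have hne : p.roots.toFinset.Nonempty := by
    rw [Multiset.toFinset_nonempty]
    intro h0
    rw [h0, Multiset.card_zero] at hcard
    omega
  obtain ⟨c, hc, hmin⟩ := Finset.exists_min_image p.roots.toFinset (fun r => ‖z - r‖) hne
  rw [Multiset.mem_toFinset] at hc
  have hmin' : ∀ r ∈ p.roots, ‖z - c‖ ≤ ‖z - r‖ := fun r hr =>
    hmin r (Multiset.mem_toFinset.2 hr)
  refine ⟨c, (mem_roots hp0).1 hc, ?_, fun y hy => ?_⟩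
  · rw [SHPoly_norm p z, hcard]
    exact mul_le_mul_of_nonneg_left
      (SHPoly_lower _ (fun r => ‖z - r‖) _ (norm_nonneg _) hmin') (norm_nonneg _)
  · rw [SHPoly_norm p z, SHPoly_norm p y, hcard]
    have h1 := (SHPoly_upper p.roots (fun r => ‖y - r‖) (fun r => ‖z - r‖)
      (fun r _ => norm_nonneg _) (fun r hr => by
        have h2 : ‖y - z‖ ≤ ‖z - c‖ := by
          obtain ⟨a, b, ha, hb, hab, rfl⟩ := hy
          have h3 : a • z + b • c - z = b • (c - z) := by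
            have h4 : a • z = z - b • z := by
              rw [eq_sub_iff_add_eq, ← add_smul, hab, one_smul]
            rw [h4, smul_sub]
            abel
          rw [h3, norm_smul, Real.norm_of_nonneg hb, norm_sub_rev c z]
          have h5 : b ≤ 1 := by linarith
          exact mul_le_of_le_one_left (norm_nonneg _) h5
        have h6 : ‖y - r‖ ≤ ‖y - z‖ + ‖z - r‖ := norm_sub_le_norm_sub_add_norm_sub y z r
        have h7 := hmin' r hr
        linarith)).2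
    calc ‖p.leadingCoeff‖ * (p.roots.map fun r => ‖y - r‖).prod
        ≤ ‖p.leadingCoeff‖ * (2 ^ p.roots.card * (p.roots.map fun r => ‖z - r‖).prod) :=
          mul_le_mul_of_nonneg_left h1 (norm_nonneg _)
      _ = 2 ^ p.roots.card * (‖p.leadingCoeff‖ * (p.roots.map fun r => ‖z - r‖).prod) := by ring

/-- TASK SHPoly (2).  A continuous path which stays `ε`-close to a finite set `s` moves by at most
`2 * card * ε`.  Proof.  `d t = ‖γ t - γ 0‖` is continuous, so by the intermediate value theorem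
`[0, d 1] ⊆ d '' [0,1] ⊆ ⋃ r ∈ s, [‖r - γ 0‖ - ε, ‖r - γ 0‖ + ε]`; compare Lebesgue measures
(`MeasureTheory.measure_biUnion_finset_le`, `Real.volume_Icc`). -/
theorem path_small {γ : ℝ → ℂ} (hγ : ContinuousOn γ (Icc 0 1)) (s : Finset ℂ) {ε : ℝ}
    (hε : 0 ≤ ε) (h : ∀ t ∈ Icc (0 : ℝ) 1, ∃ r ∈ s, ‖γ t - r‖ ≤ ε) :
    ‖γ 1 - γ 0‖ ≤ 2 * s.card * ε := by
  have hd : ContinuousOn (fun t => ‖γ t - γ 0‖) (Icc 0 1) := (hγ.sub continuousOn_const).norm
  have h1 := intermediate_value_Icc zero_le_one hd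
  have h2 : Icc (0 : ℝ) ‖γ 1 - γ 0‖ ⊆ ⋃ r ∈ s, Icc (‖r - γ 0‖ - ε) (‖r - γ 0‖ + ε) := by
    intro x hx
    have hx' : x ∈ Icc ((fun t => ‖γ t - γ 0‖) 0) ((fun t => ‖γ t - γ 0‖) 1) := by
      simpa using hx
    obtain ⟨t, ht, rfl⟩ := h1 hx'
    obtain ⟨r, hr, hr'⟩ := h t ht
    rw [Set.mem_iUnion₂]
    refine ⟨r, hr, ?_⟩
    have h3 : |‖γ t - γ 0‖ - ‖r - γ 0‖| ≤ ‖(γ t - γ 0) - (r - γ 0)‖ := abs_norm_sub_norm_le _ _
    rw [sub_sub_sub_cancel_right] at h3
    have h4 := abs_le.1 (h3.trans hr')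
    exact ⟨by linarith [h4.1], by linarith [h4.2]⟩
  have h3 := MeasureTheory.measure_mono (μ := MeasureTheory.volume) h2
  have h4 := h3.trans (MeasureTheory.measure_biUnion_finset_le (μ := MeasureTheory.volume) s
    fun r => Icc (‖r - γ 0‖ - ε) (‖r - γ 0‖ + ε))
  have h5 : ∀ r ∈ s, MeasureTheory.volume (Icc (‖r - γ 0‖ - ε) (‖r - γ 0‖ + ε)) =
      ENNReal.ofReal (2 * ε) := by
    intro r _
    rw [Real.volume_Icc]
    congr 1
    ring
  rw [Finset.sum_congr rfl h5, Real.volume_Icc, sub_zero, Finset.sum_const, nsmul_eq_mul,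
    ← ENNReal.ofReal_natCast, ← ENNReal.ofReal_mul (Nat.cast_nonneg _)] at h4
  have h6 : ‖γ 1 - γ 0‖ ≤ s.card * (2 * ε) := by
    rwa [ENNReal.ofReal_le_ofReal_iff (by positivity)] at h4
  linarith

/-- TASK SHPoly (3).  From (1), (2) with `s = p.roots.toFinset` (`card ≤ natDegree`). -/
theorem root_path (p : ℂ[X]) (hp : 0 < p.natDegree) {γ : ℝ → ℂ} (hγ : ContinuousOn γ (Icc 0 1))
    {δ : ℝ} (hδ : 0 ≤ δ)
    (h : ∀ t ∈ Icc (0 : ℝ) 1, ‖p.eval (γ t)‖ ≤ ‖p.leadingCoeff‖ * δ ^ p.natDegree) :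
    ‖γ 1 - γ 0‖ ≤ 2 * p.natDegree * δ := by
  have hp0 : p ≠ 0 := by
    rintro rfl
    simp at hp
  have hl : 0 < ‖p.leadingCoeff‖ := norm_pos_iff.2 (leadingCoeff_ne_zero.2 hp0)
  have h1 := path_small hγ p.roots.toFinset hδ (fun t ht => by
    obtain ⟨c, hc, h2, _⟩ := near_root p hp (γ t)
    refine ⟨c, Multiset.mem_toFinset.2 ((mem_roots hp0).2 hc), ?_⟩
    have h3 := h2.trans (h t ht)
    have h4 : ‖γ t - c‖ ^ p.natDegree ≤ δ ^ p.natDegree := le_of_mul_le_mul_left h3 hl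
    exact (pow_le_pow_iff_left₀ (norm_nonneg _) hδ hp.ne').1 h4)
  have h2 : (p.roots.toFinset.card : ℝ) ≤ p.natDegree := by
    have h3 : p.roots.toFinset.card ≤ p.natDegree :=
      (Multiset.toFinset_card_le _).trans (card_roots' p)
    exact_mod_cast h3
  calc ‖γ 1 - γ 0‖ ≤ 2 * p.roots.toFinset.card * δ := h1
    _ ≤ 2 * p.natDegree * δ := by
      have h3 : (0 : ℝ) ≤ 2 := by norm_num
      exact mul_le_mul_of_nonneg_right (mul_le_mul_of_nonneg_left h2 h3) hδ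

end Pool.W4b1b5d.SH
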