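import Pool.Agent.W_4b1b5d_h3.DefsI
import Pool.Agent.W_4b1b5d_h3.LkDer

set_option autoImplicit false

namespace Pool.W4b1b5d.SH

open Pool.W4b1b5d.H3

/-- `LB M B k x Y` is the `k`-th derivative in `Y` of `∑_{|j| ≤ M} B j x * Y^j`. -/
noncomputable def LB (M : ℕ) (B : ℤ → V2 → ℂ) (k : ℕ) (x : V2) (Y : ℂ) : ℂ :=
  Lk M (fun j => B ((j : ℤ) - M) x) k Y

/-- Data at one energy level: `R(x,Y) = ∑_{|k| ≤ M} B k x * Y^k` with constant top coefficient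
`a ≠ 0`, real on the circle `|Y| = l x` (`l > 0`), satisfying the transport equation
`(l/Y) dd R + db R + 2 (dd l) R_Y = 0` (`dd = al·∇`, `db = conj(al)·∇`), and such that `dd R = 0` at
all critical points outside of the circle. -/
structure PD where
  al : Fin 2 → ℂ
  hal : ((starRingEnd ℂ) (al 0) * al 1).im ≠ 0
  M : ℕ
  hM : 1 ≤ M
  B : ℤ → V2 → ℂ
  l : V2 → ℝ
  a : ℂ
  ha : a ≠ 0
  Bsm : ∀ k, ContDiff ℝ (⊤ : ℕ∞) (B k)
  Bper : ∀ k, Per (B k)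
  lsm : ContDiff ℝ (⊤ : ℕ∞) l
  lper : Per l
  lpos : ∀ x, 0 < l x
  top : ∀ x, B M x = a
  big : ∀ (k : ℤ) x, (M : ℤ) < k → B k x = 0
  neg : ∀ (k : ℕ) x, B (-(k : ℤ)) x = (l x : ℂ) ^ (2 * k) * (starRingEnd ℂ) (B k x)
  trans : ∀ (k : ℤ) x, dd (cj al) (B k) x + (l x : ℂ) * dd al (B (k + 1)) x
      + 2 * ((k : ℂ) + 1) * ddr al l x * B (k + 1) x = 0
  crit : ∀ (x : V2) (Y : ℂ), l x < ‖Y‖ → LB M B 1 x Y = 0 →
    LB M (fun k => dd al (B k)) 0 x Y = 0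

namespace PD

/-- `D.R k x Y` is the `k`-th `Y`-derivative of `R(x,Y)`. -/
noncomputable def R (D : PD) (k : ℕ) (x : V2) (Y : ℂ) : ℂ := LB D.M D.B k x Y

/-- `Y`-derivatives of `dd R`. -/
noncomputable def R1 (D : PD) (k : ℕ) (x : V2) (Y : ℂ) : ℂ :=
  LB D.M (fun j => dd D.al (D.B j)) k x Y

/-- `Y`-derivatives of `db R`. -/
noncomputable def R2 (D : PD) (k : ℕ) (x : V2) (Y : ℂ) : ℂ :=
  LB D.M (fun j => dd (cj D.al) (D.B j)) k x Y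

/-- `Y^M R(x,Y)` as a polynomial in `Y`. -/
noncomputable def pol (D : PD) (x : V2) : Polynomial ℂ :=
  ∑ j ∈ Finset.range (2 * D.M + 1), Polynomial.C (D.B ((j : ℤ) - D.M) x) * Polynomial.X ^ j

/-- `Y^(M+1) R_Y(x,Y)` as a polynomial in `Y`. -/
noncomputable def dpol (D : PD) (x : V2) : Polynomial ℂ :=
  ∑ j ∈ Finset.range (2 * D.M + 1),
    Polynomial.C (((j : ℂ) - D.M) * D.B ((j : ℤ) - D.M) x) * Polynomial.X ^ j

/-- The nonreal critical values outside of the circle (at `x = 0`; they do not depend on `x`, see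
`CV_all`). -/
def CV (D : PD) : Set ℂ :=
  {v | v.im ≠ 0 ∧ ∃ Y : ℂ, D.l 0 < ‖Y‖ ∧ D.R 1 0 Y = 0 ∧ D.R 0 0 Y = v}

/-- The real critical values outside of the circle, for all `x` (a countable set, see
`CR_countable`). -/
def CR (D : PD) : Set ℝ :=
  {w | ∃ (x : V2) (Y : ℂ), D.l x < ‖Y‖ ∧ D.R 1 x Y = 0 ∧ D.R 0 x Y = (w : ℂ)}

/-- The nonreal noncritical values. -/
def H (D : PD) : Set ℂ := {v | v.im ≠ 0 ∧ v ∉ D.CV}

/-- The total space of the covering `(x,P) ↦ (x, R(x,P^e))`. -/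
def E (D : PD) (e : ℕ) : Set (V2 × ℂ) :=
  {z | D.l z.1 < ‖z.2‖ ^ e ∧ D.R 0 z.1 (z.2 ^ e) ∈ D.H}

/-- The covering map. -/
noncomputable def F (D : PD) (e : ℕ) (z : V2 × ℂ) : V2 × ℂ := (z.1, D.R 0 z.1 (z.2 ^ e))

end PD

end Pool.W4b1b5d.SH
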