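import Pool.Agent.W_MP_4b1b5d_h66.Main
import Pool.Agent.W_MP_4b1b5d_h66.Saddle

set_option autoImplicit false

/-!
# MP_4b1b5d_an, part (i) for every metric and every Morse potential

For every smooth metric on the 2-torus and every smooth potential which is a Morse function, or which
has at least one non-resonant critical point, every integral polynomial in the momenta is even in the
momenta.  In particular there is no integral of odd degree.
-/

namespace Pool.W4b1b5d.H66.NonresonantCritical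

open Pool.Agent.W_MP_4b1b5d_h66

/-- `x` is a critical point of `U`. -/
def Crit (U : (Fin 2 → ℝ) → ℝ) (x : Fin 2 → ℝ) : Prop := fderiv ℝ U x = 0

/-- The matrix of second partial derivatives of `U` at `x`. -/
noncomputable def Hess (U : (Fin 2 → ℝ) → ℝ) (x : Fin 2 → ℝ) : Matrix (Fin 2) (Fin 2) ℝ :=
  Matrix.of (fun i j => fderiv ℝ (fun y => fderiv ℝ U y (Pi.single i 1)) x (Pi.single j 1))

/-- The eigenvalues `a, b` of `M` satisfy `k² a ≠ l² b` for all integers `(k, l) ≠ (0, 0)`;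
in terms of `det M = a b` and `tr M = a + b`:
`(k² a - l² b) (k² b - l² a) = (k² + l²)² det M - k² l² (tr M)²`. -/
def Nonresonant (M : Matrix (Fin 2) (Fin 2) ℝ) : Prop :=
  ∀ k l : ℤ, ¬ (k = 0 ∧ l = 0) →
    ((k : ℝ) ^ 2 + (l : ℝ) ^ 2) ^ 2 * M.det ≠ (k : ℝ) ^ 2 * (l : ℝ) ^ 2 * M.trace ^ 2

theorem result :
  ∀ (ginv : (Fin 2 → ℝ) → Matrix (Fin 2) (Fin 2) ℝ) (U : (Fin 2 → ℝ) → ℝ)
    (H : (Fin 2 → ℝ) → (Fin 2 → ℝ) → ℝ)
    (IsInt : ((Fin 2 → ℝ) → MvPolynomial (Fin 2) ℝ) → Prop),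
    (∀ x, (ginv x).PosDef) →
    (∀ i j, ContDiff ℝ (⊤ : ℕ∞) (fun x => ginv x i j)) →
    (∀ (x : Fin 2 → ℝ) (k : Fin 2 → ℤ), ginv (x + fun i => (k i : ℝ)) = ginv x) →
    ContDiff ℝ (⊤ : ℕ∞) U →
    (∀ (x : Fin 2 → ℝ) (k : Fin 2 → ℤ), U (x + fun i => (k i : ℝ)) = U x) →
    (∀ x p, H x p = (1 / 2 : ℝ) * ∑ i, ∑ j, ginv x i j * p i * p j + U x) →
    (∀ F : (Fin 2 → ℝ) → MvPolynomial (Fin 2) ℝ, IsInt F ↔
      ((∀ m, ContDiff ℝ (⊤ : ℕ∞) (fun x => (F x).coeff m)) ∧
       (∀ (x : Fin 2 → ℝ) (k : Fin 2 → ℤ), F (x + fun i => (k i : ℝ)) = F x) ∧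
       (∃ N : ℕ, ∀ x, (F x).totalDegree ≤ N) ∧
       (∀ x p : Fin 2 → ℝ, ∑ i : Fin 2,
          (deriv (fun t => H x (Function.update p i t)) (p i) *
              deriv (fun t => MvPolynomial.eval p (F (Function.update x i t))) (x i) -
            deriv (fun t => H (Function.update x i t) p) (x i) *
              deriv (fun t => MvPolynomial.eval (Function.update p i t) (F x)) (p i)) = 0))) →
    ((∀ x, Crit U x → (Hess U x).det ≠ 0) ∨
      (∃ x, Crit U x ∧ ((Hess U x).det < 0 ∨ Nonresonant (Hess U x * ginv x)))) →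
    ((∀ F, IsInt F → ∀ x p : Fin 2 → ℝ,
        MvPolynomial.eval (-p) (F x) = MvPolynomial.eval p (F x)) ∧
      ¬ ∃ (F : (Fin 2 → ℝ) → MvPolynomial (Fin 2) ℝ) (n : ℕ), IsInt F ∧ Odd n ∧
          (∀ x, (F x).totalDegree ≤ n) ∧ (∃ x, (F x).totalDegree = n)) := by
  intro ginv U H IsInt hpos hgs hgper hU hUper hH hInt hcase
  have hcase2 : ∃ x, Crit U x ∧ ((Hess U x).det < 0 ∨ Nonresonant (Hess U x * ginv x)) := by
    rcases hcase with hM | h
    · let Us : Sm := ⟨U, hU⟩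
      have hper : Per Us := hUper
      have e : ∀ i j x, ((par i (par j Us) : Sm) : (Fin 2 → ℝ) → ℝ) x = Hess U x j i :=
        fun i j x => rfl
      have hs : ∀ x, Hess U x 0 1 = Hess U x 1 0 := by
        intro x
        rw [← e, ← e, par_comm]
      have hcr : ∀ x, (par 0 Us : (Fin 2 → ℝ) → ℝ) x = 0 → (par 1 Us : (Fin 2 → ℝ) → ℝ) x = 0 →
          Crit U x := by
        intro x h0 h1
        show fderiv ℝ U x = 0
        have h0' : fderiv ℝ U x (Pi.single 0 1) = 0 := h0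
        have h1' : fderiv ℝ U x (Pi.single 1 1) = 0 := h1
        ext v
        have hv : v = v 0 • (Pi.single 0 (1 : ℝ) : Fin 2 → ℝ)
            + v 1 • (Pi.single 1 (1 : ℝ) : Fin 2 → ℝ) := by
          ext j
          fin_cases j <;> simp
        rw [hv, map_add, map_smul, map_smul, h0', h1']
        simp
      have hdet : ∀ x, ((par 0 (par 0 Us) * par 1 (par 1 Us) - par 0 (par 1 Us) * par 0 (par 1 Us)
          : Sm) : (Fin 2 → ℝ) → ℝ) x = (Hess U x).det := by
        intro x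
        rw [sm_sub, sm_mul, sm_mul, e, e, e, Matrix.det_fin_two, hs]
      obtain ⟨x, h0, h1, h2⟩ := exists_saddle Us hper (by
        intro x h0 h1
        rw [hdet]
        exact hM x (hcr x h0 h1))
      rw [hdet] at h2
      exact ⟨x, hcr x h0 h1, Or.inl h2⟩
    · exact h
  obtain ⟨x0, hc, hr⟩ := hcase2
  have hres : NonResR (hess U x0 * ginv x0) := by
    rcases hr with h | h
    · apply nonResR_of_det_neg
      have h' : (hess U x0).det < 0 := h
      rw [Matrix.det_mul]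
      exact mul_neg_of_neg_of_pos h' (hpos x0).det_pos
    · exact h
  have hcrit : ∀ k, fderiv ℝ U x0 (Pi.single k 1) = 0 := by
    intro k
    have : fderiv ℝ U x0 = 0 := hc
    rw [this]
    rfl
  have heven : ∀ F, IsInt F → ∀ x p : Fin 2 → ℝ,
      MvPolynomial.eval (-p) (F x) = MvPolynomial.eval p (F x) := by
    intro F hF x p
    obtain ⟨hF1, -, hF3, hF4⟩ := (hInt F).mp hF
    exact even_of_nonres ginv U H hpos hgs hU hH x0 hcrit hres F hF1 hF3 hF4 x p
  refine ⟨heven, ?_⟩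
  rintro ⟨F, n, hF, hn, -, x, hx⟩
  exact not_odd_of_even (heven F hF x) hn hx

end Pool.W4b1b5d.H66.NonresonantCritical
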