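import Pool.Agent.W_4b1b5d_h3.DefsI
import Pool.Agent.W_4b1b5d_h3.BetaA
import Pool.Agent.W_4b1b5d_h3.LkDer

set_option autoImplicit false

namespace Pool.W4b1b5d.PlG

open Pool.W4b1b5d.H3

/-- Coefficient families `f m`, `m : ℤ`, smooth, which satisfy on `S` the transport equation and the
relation `J(f, κ) = 0` for `κ = k Y + w + conj k l² / Y` (coefficientwise). -/
structure TJ (al : Fin 2 → ℂ) (l : V2 → ℝ) (θ : ℂ) (S : Set V2) (f : ℤ → V2 → ℂ) : Prop where
  sm : ∀ m, ContDiff ℝ (⊤ : ℕ∞) (f m)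
  tr : ∀ x ∈ S, ∀ m : ℤ, dd (cj al) (f m) x + (l x : ℂ) * dd al (f (m + 1)) x
      + 2 * ((m : ℂ) + 1) * ddr al l x * f (m + 1) x = 0
  jr : ∀ x ∈ S, ∀ m : ℤ, dd al (f m) x - θ * (l x : ℂ) ^ 2 * dd al (f (m + 2)) x
      = ((m : ℂ) + 1) * f (m + 1) x * (-2 * θ * ddr (cj al) l x)
        + ((m : ℂ) + 2) * f (m + 2) x * (2 * θ * (l x : ℂ) * ddr al l x)

variable {al : Fin 2 → ℂ} {l : V2 → ℝ} {θ : ℂ} {S : Set V2} {f g : ℤ → V2 → ℂ}

theorem dd_of_zero (b : Fin 2 → ℂ) {F : V2 → ℂ} (hS : IsOpen S) (h : ∀ x ∈ S, F x = 0) :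
    ∀ x ∈ S, dd b F x = 0 := fun x hx => dd_zero_of_open b hS h x hx

theorem TJ.sub (hf : TJ al l θ S f) (hg : TJ al l θ S g) (c : ℂ) :
    TJ al l θ S (fun m x => f m x - c * g m x) := by
  have hF : ∀ m x, DifferentiableAt ℝ (f m) x := fun m x => (hf.sm m).differentiable (by simp) x
  have hG : ∀ m x, DifferentiableAt ℝ (fun y => c * g m y) x := fun m x =>
    ((hg.sm m).differentiable (by simp) x).const_mul c
  have hd : ∀ (b : Fin 2 → ℂ) m x, dd b (fun y => f m y - c * g m y) x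
      = dd b (f m) x - c * dd b (g m) x := by
    intro b m x
    unfold dd
    rw [Finset.mul_sum, ← Finset.sum_sub_distrib]
    refine Finset.sum_congr rfl fun i _ => ?_
    have h1 : HasFDerivAt (fun y => f m y - c * g m y)
        (fderiv ℝ (f m) x - c • fderiv ℝ (g m) x) x :=
      (hF m x).hasFDerivAt.sub (((hg.sm m).differentiable (by simp) x).hasFDerivAt.const_mul c)
    rw [h1.fderiv]
    simp only [sub_apply, smul_apply, smul_eq_mul]
    ring
  refine ⟨fun m => (hf.sm m).sub (contDiff_const.mul (hg.sm m)), fun x hx m => ?_, fun x hx m => ?_⟩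
  · rw [hd, hd]
    linear_combination hf.tr x hx m - c * hg.tr x hx m
  · rw [hd, hd]
    linear_combination hf.jr x hx m - c * hg.jr x hx m

/-- multiplication by `κ`. -/
noncomputable def mulK (k : ℂ) (w l : V2 → ℝ) (f : ℤ → V2 → ℂ) (m : ℤ) (x : V2) : ℂ :=
  k * f (m - 1) x + (w x : ℂ) * f m x + (starRingEnd ℂ) k * (l x : ℂ) ^ 2 * f (m + 1) x

/-- the powers of `κ`. -/
noncomputable def kap (k : ℂ) (w l : V2 → ℝ) : ℕ → ℤ → V2 → ℂ
  | 0 => fun m _ => if m = 0 then 1 else 0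
  | i + 1 => mulK k w l (kap k w l i)

theorem TJ.zero : TJ al l θ S (fun m _ => if m = 0 then 1 else 0) := by
  have h0 : ∀ (b : Fin 2 → ℂ) (m : ℤ) (x : V2),
      dd b (fun _ => if m = 0 then (1 : ℂ) else 0) x = 0 := fun b m x => BetaA_const b _ x
  refine ⟨fun m => contDiff_const, fun x hx m => ?_, fun x hx m => ?_⟩
  · rw [h0, h0]
    by_cases h : m + 1 = 0
    · have : (m : ℂ) + 1 = 0 := by exact_mod_cast congrArg (fun z : ℤ => (z : ℂ)) h
      simp [this]
    · simp [h]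
  · rw [h0, h0]
    have e1 : ((m : ℂ) + 1) * (if m + 1 = 0 then (1 : ℂ) else 0) = 0 := by
      by_cases h : m + 1 = 0
      · have : (m : ℂ) + 1 = 0 := by exact_mod_cast congrArg (fun z : ℤ => (z : ℂ)) h
        simp [this]
      · simp [h]
    have e2 : ((m : ℂ) + 2) * (if m + 2 = 0 then (1 : ℂ) else 0) = 0 := by
      by_cases h : m + 2 = 0
      · have : (m : ℂ) + 2 = 0 := by exact_mod_cast congrArg (fun z : ℤ => (z : ℂ)) h
        simp [this]
      · simp [h]
    rw [e1, e2]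
    ring

theorem TJ.mulK {k : ℂ} {w : V2 → ℝ} (hf : TJ al l θ S f)
    (hθ : θ * k = (starRingEnd ℂ) k)
    (hw : ContDiff ℝ (⊤ : ℕ∞) w) (hl : ContDiff ℝ (⊤ : ℕ∞) l)
    (hdw : ∀ x ∈ S, ddr al w x = -2 * (starRingEnd ℂ) k * ddr (cj al) l x)
    (hbw : ∀ x ∈ S, ddr (cj al) w x = -2 * k * ddr al l x) :
    TJ al l θ S (mulK k w l f) := by
  have hF : ∀ m x, DifferentiableAt ℝ (f m) x := fun m x => (hf.sm m).differentiable (by simp) x
  have hwc : ContDiff ℝ (⊤ : ℕ∞) fun x => (w x : ℂ) := Complex.ofRealCLM.contDiff.comp hw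
  have hlc : ContDiff ℝ (⊤ : ℕ∞) fun x => (l x : ℂ) := Complex.ofRealCLM.contDiff.comp hl
  have hW : ∀ x, DifferentiableAt ℝ (fun y => (w y : ℂ)) x := fun x =>
    hwc.differentiable (by simp) x
  have hL : ∀ x, DifferentiableAt ℝ (fun y => (l y : ℂ)) x := fun x =>
    hlc.differentiable (by simp) x
  have hd : ∀ (b : Fin 2 → ℂ) (m : ℤ) (x : V2), dd b (PlG.mulK k w l f m) x
      = k * dd b (f (m - 1)) x + (ddr b w x * f m x + (w x : ℂ) * dd b (f m) x)
        + (starRingEnd ℂ) k * (2 * (l x : ℂ) * ddr b l x * f (m + 1) x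
          + (l x : ℂ) ^ 2 * dd b (f (m + 1)) x) := by
    intro b m x
    have e1 : PlG.mulK k w l f m = fun y => (k * f (m - 1) y + (w y : ℂ) * f m y)
        + (starRingEnd ℂ) k * ((l y : ℂ) ^ 2 * f (m + 1) y) := by
      funext y
      unfold PlG.mulK
      ring
    have hc : ∀ (c : ℂ) (F : V2 → ℂ), DifferentiableAt ℝ F x →
        dd b (fun y => c * F y) x = c * dd b F x := by
      intro c F hF'
      rw [dd_mul b (differentiableAt_const c) hF', BetaA_const, zero_mul, zero_add]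
    have d1 : DifferentiableAt ℝ (fun y => k * f (m - 1) y) x := (hF _ x).const_mul k
    have d2 : DifferentiableAt ℝ (fun y => (w y : ℂ) * f m y) x := (hW x).mul (hF _ x)
    have d3 : DifferentiableAt ℝ (fun y => (l y : ℂ) ^ 2) x := (hL x).pow 2
    have d4 : DifferentiableAt ℝ (fun y => (l y : ℂ) ^ 2 * f (m + 1) y) x := d3.mul (hF _ x)
    have d5 : DifferentiableAt ℝ
        (fun y => (starRingEnd ℂ) k * ((l y : ℂ) ^ 2 * f (m + 1) y)) x := d4.const_mul _
    have q1 := dd_add b (f := fun y => k * f (m - 1) y + (w y : ℂ) * f m y)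
      (g := fun y => (starRingEnd ℂ) k * ((l y : ℂ) ^ 2 * f (m + 1) y)) (d1.add d2) d5
    have q2 := dd_add b (f := fun y => k * f (m - 1) y) (g := fun y => (w y : ℂ) * f m y) d1 d2
    have q3 := dd_mul b (f := fun y => (w y : ℂ)) (g := f m) (hW x) (hF _ x)
    have q4 := dd_mul b (f := fun y => (l y : ℂ) ^ 2) (g := f (m + 1)) d3 (hF _ x)
    have q5 := dd_pow b (f := fun y => (l y : ℂ)) (hL x) 2
    beta_reduce at q1 q2 q3 q4 q5
    have q5' : dd b (fun y => (l y : ℂ) ^ 2) x = 2 * (l x : ℂ) * dd b (fun y => (l y : ℂ)) x := by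
      rw [q5]
      push_cast
      ring
    rw [e1, q1, q2, hc k _ (hF _ x), hc _ _ d4, q3, q4, q5']
    unfold ddr
    ring
  refine ⟨fun m => ?_, fun x hx m => ?_, fun x hx m => ?_⟩
  · unfold PlG.mulK
    exact ((contDiff_const.mul (hf.sm _)).add (hwc.mul (hf.sm _))).add
      ((contDiff_const.mul (hlc.pow 2)).mul (hf.sm _))
  · rw [hd, hd]
    have t0 := hf.tr x hx (m - 1)
    have t1 := hf.tr x hx m
    have t2 := hf.tr x hx (m + 1)
    have a1 : m - 1 + 1 = m := by ring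
    have a2 : m + 1 - 1 = m := by ring
    have a3 : m + 1 + 1 = m + 2 := by ring
    rw [a1] at t0
    rw [a3] at t2
    rw [a2, a3, hbw x hx, hdw x hx]
    unfold PlG.mulK
    rw [a2, a3]
    push_cast at t0 t1 t2 ⊢
    linear_combination k * t0 + (w x : ℂ) * t1 + (starRingEnd ℂ) k * (l x : ℂ) ^ 2 * t2
  · rw [hd, hd]
    have t0 := hf.jr x hx (m - 1)
    have t1 := hf.jr x hx m
    have t2 := hf.jr x hx (m + 1)
    have a1 : m - 1 + 1 = m := by ring
    have a2 : m + 1 - 1 = m := by ring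
    have a3 : m + 1 + 1 = m + 2 := by ring
    have a4 : m - 1 + 2 = m + 1 := by ring
    have a5 : m + 2 - 1 = m + 1 := by ring
    have a6 : m + 2 + 1 = m + 3 := by ring
    have a7 : m + 1 + 2 = m + 3 := by ring
    rw [a1, a4] at t0
    rw [a3, a7] at t2
    rw [a5, a6, hdw x hx]
    unfold PlG.mulK
    rw [a2, a3, a5, a6]
    push_cast at t0 t1 t2 ⊢
    linear_combination k * t0 + (w x : ℂ) * t1 + (starRingEnd ℂ) k * (l x : ℂ) ^ 2 * t2
      + (2 * ddr (cj al) l x * f m x - 2 * (l x : ℂ) * ddr al l x * f (m + 1) x) * hθ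

end Pool.W4b1b5d.PlG
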