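import Pool.Agent.W_4b1b5d_h66.PlGA

set_option autoImplicit false

namespace Pool.W4b1b5d.PlG

open Pool.W4b1b5d.H3

variable {al : Fin 2 → ℂ} {l w : V2 → ℝ} {θ k : ℂ} {S : Set V2} {f g : ℤ → V2 → ℂ}

/-- The top coefficient is constant on `S`. -/
theorem TJ.top_const (hal : ((starRingEnd ℂ) (al 0) * al 1).im ≠ 0) (hS : IsOpen S)
    (hSp : IsPreconnected S) (hf : TJ al l θ S f) (r : ℤ)
    (hz : ∀ m, r < m → ∀ x ∈ S, f m x = 0) : ∃ c, ∀ x ∈ S, f r x = c := by
  have hF : ∀ m, Differentiable ℝ (f m) := fun m => (hf.sm m).differentiable (by simp)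
  refine hS.exists_is_const_of_fderiv_eq_zero hSp (hF r).differentiableOn fun x hx => ?_
  have z1 : f (r + 1) x = 0 := hz _ (by omega) x hx
  have z2 : f (r + 2) x = 0 := hz _ (by omega) x hx
  have d1 : dd al (f (r + 1)) x = 0 := dd_zero_of_open al hS (hz _ (by omega)) x hx
  have d2 : dd al (f (r + 2)) x = 0 := dd_zero_of_open al hS (hz _ (by omega)) x hx
  have t := hf.tr x hx r
  have j := hf.jr x hx r
  rw [z1, d1] at t
  rw [z1, z2, d2] at j
  have e1 : dd (cj al) (f r) x = 0 := by linear_combination t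
  have e2 : dd al (f r) x = 0 := by linear_combination j
  ext v
  obtain ⟨lam, -, hlam⟩ := dir_decomp al hal v
  rw [hlam (f r) x (hF r x), e1, e2]
  simp

/-- support of the powers of `κ`. -/
theorem kap_zero (i : ℕ) : ∀ (m : ℤ) (x : V2), (i : ℤ) < |m| → kap k w l i m x = 0 := by
  induction i with
  | zero =>
    intro m x hm
    have : m ≠ 0 := by
      rintro rfl
      simp at hm
    simp [kap, this]
  | succ i ih =>
    intro m x hm
    push_cast at hm
    rw [lt_abs] at hm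
    have h1 : kap k w l i (m - 1) x = 0 := ih _ _ (by rw [lt_abs]; omega)
    have h2 : kap k w l i m x = 0 := ih _ _ (by rw [lt_abs]; omega)
    have h3 : kap k w l i (m + 1) x = 0 := ih _ _ (by rw [lt_abs]; omega)
    simp [kap, mulK, h1, h2, h3]

theorem kap_top (i : ℕ) (x : V2) : kap k w l i i x = k ^ i := by
  induction i with
  | zero => simp [kap]
  | succ i ih =>
    have h2 : kap k w l i ((i : ℤ) + 1) x = 0 := kap_zero i _ x (by
      rw [abs_of_nonneg (by positivity)]; omega)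
    have h3 : kap k w l i ((i : ℤ) + 1 + 1) x = 0 := kap_zero i _ x (by
      rw [abs_of_nonneg (by positivity)]; omega)
    have e : ((i + 1 : ℕ) : ℤ) = (i : ℤ) + 1 := by push_cast; ring
    simp only [kap, mulK]
    rw [e, h2, h3, add_sub_cancel_right, ih]
    ring

theorem kap_TJ (hθ : θ * k = (starRingEnd ℂ) k)
    (hw : ContDiff ℝ (⊤ : ℕ∞) w) (hl : ContDiff ℝ (⊤ : ℕ∞) l)
    (hdw : ∀ x ∈ S, ddr al w x = -2 * (starRingEnd ℂ) k * ddr (cj al) l x)
    (hbw : ∀ x ∈ S, ddr (cj al) w x = -2 * k * ddr al l x) (i : ℕ) :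
    TJ al l θ S (kap k w l i) := by
  induction i with
  | zero => exact TJ.zero
  | succ i ih => exact ih.mulK hθ hw hl hdw hbw

/-- symmetry `f (-m) = l^(2m) conj (f m)`. -/
def Sy (l : V2 → ℝ) (f : ℤ → V2 → ℂ) (x : V2) : Prop :=
  ∀ m : ℕ, f (-(m : ℤ)) x = (l x : ℂ) ^ (2 * m) * (starRingEnd ℂ) (f m x)

/-- `k^(-m) f m` is real. -/
def Rl (k : ℂ) (f : ℤ → V2 → ℂ) (x : V2) : Prop :=
  ∀ m : ℕ, ∃ r : ℝ, f m x = k ^ m * r

theorem Sy.mulK (x : V2) (hf : Sy l f x) : Sy l (mulK k w l f) x := by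
  intro m
  unfold PlG.mulK
  rcases m with _ | m
  · have h1 := hf 1
    have h0 := hf 0
    have e1 : (0 : ℤ) - 1 = -((1 : ℕ) : ℤ) := by norm_num
    simp only [Nat.cast_zero, neg_zero, mul_zero, pow_zero, one_mul] at h0 ⊢
    rw [e1, h1]
    simp only [map_add, map_mul, map_pow, Complex.conj_ofReal, Complex.conj_conj, zero_add]
    rw [← h0]
    have h2 : (starRingEnd ℂ) (f (-((1 : ℕ) : ℤ)) x) = (l x : ℂ) ^ 2 * f 1 x := by
      rw [h1]
      simp
    rw [h1] at h2
    push_cast at h1 h2 ⊢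
    simp only [map_mul, map_pow, Complex.conj_ofReal, Complex.conj_conj] at h2 ⊢
    ring
  · have h0 := hf m
    have h1 := hf (m + 1)
    have h2 := hf (m + 2)
    have e0 : -((m + 1 : ℕ) : ℤ) - 1 = -((m + 2 : ℕ) : ℤ) := by push_cast; ring
    have e2 : -((m + 1 : ℕ) : ℤ) + 1 = -(m : ℤ) := by push_cast; ring
    have e3 : ((m + 1 : ℕ) : ℤ) - 1 = (m : ℤ) := by push_cast; ring
    have e4 : ((m + 1 : ℕ) : ℤ) + 1 = ((m + 2 : ℕ) : ℤ) := by push_cast; ring
    rw [e0, e2, e3, e4, h0, h1, h2]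
    simp only [map_add, map_mul, map_pow, Complex.conj_ofReal, Complex.conj_conj]
    ring

theorem kap_Sy (i : ℕ) (x : V2) : Sy l (kap k w l i) x := by
  induction i with
  | zero =>
    intro m
    rcases m with _ | m
    · simp [kap]
    · have e1 : (-((m + 1 : ℕ) : ℤ)) ≠ 0 := by omega
      have e2 : ((m + 1 : ℕ) : ℤ) ≠ 0 := by omega
      simp only [kap]
      rw [if_neg e1, if_neg e2]
      simp
  | succ i ih => exact ih.mulK x

/-- `k^(-m) kap i m` is real for all integers `m`. -/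
theorem kap_Rl (hk : k * (starRingEnd ℂ) k = 1) (i : ℕ) (x : V2) :
    ∀ m : ℤ, ∃ r : ℝ, kap k w l i m x = k ^ m * r := by
  have hk0 : k ≠ 0 := by
    rintro rfl
    simp at hk
  induction i with
  | zero =>
    intro m
    by_cases h : m = 0
    · exact ⟨1, by simp [kap, h]⟩
    · exact ⟨0, by simp [kap, h]⟩
  | succ i ih =>
    intro m
    obtain ⟨r0, h0⟩ := ih (m - 1)
    obtain ⟨r1, h1⟩ := ih m
    obtain ⟨r2, h2⟩ := ih (m + 1)
    refine ⟨r0 + w x * r1 + (l x) ^ 2 * r2, ?_⟩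
    simp only [kap, mulK]
    rw [h0, h1, h2]
    have e0 : k * k ^ (m - 1) = k ^ m := by
      rw [← zpow_one_add₀ hk0]
      congr 1
      ring
    have e2 : (starRingEnd ℂ) k * k ^ (m + 1) = k ^ m := by
      rw [zpow_add_one₀ hk0]
      linear_combination k ^ m * hk
    push_cast
    linear_combination (r0 : ℂ) * e0 + (l x : ℂ) ^ 2 * r2 * e2

end Pool.W4b1b5d.PlG
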