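import Pool.Agent.W_4b1b5d_h66.PlGB

set_option autoImplicit false

namespace Pool.W4b1b5d.PlG

open Pool.W4b1b5d.H3

variable {al : Fin 2 → ℂ} {l w : V2 → ℝ} {θ k : ℂ} {S : Set V2} {f g : ℤ → V2 → ℂ}

/-- the rest after subtracting `∑ c i κ^i`. -/
noncomputable def rest (k : ℂ) (w l : V2 → ℝ) (f : ℤ → V2 → ℂ) (M : ℕ) (c : ℕ → ℂ) (m : ℤ)
    (x : V2) : ℂ :=
  f m x - ∑ i ∈ Finset.range (M + 1), c i * kap k w l i m x

/-- Peeling of the top coefficients. -/
theorem TJ.peel (hal : ((starRingEnd ℂ) (al 0) * al 1).im ≠ 0) (hS : IsOpen S)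
    (hSp : IsPreconnected S) (hk : k * (starRingEnd ℂ) k = 1) (hθ : θ * k = (starRingEnd ℂ) k)
    (hw : ContDiff ℝ (⊤ : ℕ∞) w) (hl : ContDiff ℝ (⊤ : ℕ∞) l)
    (hdw : ∀ x ∈ S, ddr al w x = -2 * (starRingEnd ℂ) k * ddr (cj al) l x)
    (hbw : ∀ x ∈ S, ddr (cj al) w x = -2 * k * ddr al l x)
    (hf : TJ al l θ S f) (M : ℕ) (hz : ∀ m, (M : ℤ) < m → ∀ x ∈ S, f m x = 0) (j : ℕ)
    (hj : j ≤ M + 1) :
    ∃ c : ℕ → ℂ, TJ al l θ S (rest k w l f M c) ∧
      ∀ m : ℤ, (M : ℤ) - j < m → ∀ x ∈ S, rest k w l f M c m x = 0 := by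
  have hk0 : k ≠ 0 := by
    rintro rfl
    simp at hk
  induction j with
  | zero =>
    refine ⟨fun _ => 0, ?_, ?_⟩
    · have e : rest k w l f M (fun _ => 0) = f := by
        funext m x
        simp [rest]
      rw [e]
      exact hf
    · intro m hm x hx
      simp only [rest, zero_mul, Finset.sum_const_zero, sub_zero]
      exact hz m (by simpa using hm) x hx
  | succ j ih =>
    obtain ⟨c, hc, hc0⟩ := ih (by omega)
    set r : ℕ := M - j with hr
    have hrM : (r : ℤ) = (M : ℤ) - j := by omega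
    obtain ⟨e, he⟩ := hc.top_const hal hS hSp (r : ℤ) (fun m hm => hc0 m (by omega))
    refine ⟨Function.update c r (c r + e / k ^ r), ?_, ?_⟩
    · have e1 : rest k w l f M (Function.update c r (c r + e / k ^ r))
          = fun m x => rest k w l f M c m x - (e / k ^ r) * kap k w l r m x := by
        funext m x
        simp only [rest]
        have hmem : r ∈ Finset.range (M + 1) := Finset.mem_range.mpr (by omega)
        rw [← Finset.add_sum_erase _ _ hmem, ← Finset.add_sum_erase _ _ hmem,
          Function.update_self]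
        have e2 : ∑ i ∈ (Finset.range (M + 1)).erase r,
            Function.update c r (c r + e / k ^ r) i * kap k w l i m x
              = ∑ i ∈ (Finset.range (M + 1)).erase r, c i * kap k w l i m x :=
          Finset.sum_congr rfl fun i hi => by
            rw [Function.update_of_ne (Finset.ne_of_mem_erase hi)]
        rw [e2]
        ring
      rw [e1]
      exact hc.sub (kap_TJ hθ hw hl hdw hbw r) _
    · intro m hm x hx
      have e1 : rest k w l f M (Function.update c r (c r + e / k ^ r)) m x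
          = rest k w l f M c m x - (e / k ^ r) * kap k w l r m x := by
        simp only [rest]
        have hmem : r ∈ Finset.range (M + 1) := Finset.mem_range.mpr (by omega)
        rw [← Finset.add_sum_erase _ _ hmem, ← Finset.add_sum_erase _ _ hmem,
          Function.update_self]
        have e2 : ∑ i ∈ (Finset.range (M + 1)).erase r,
            Function.update c r (c r + e / k ^ r) i * kap k w l i m x
              = ∑ i ∈ (Finset.range (M + 1)).erase r, c i * kap k w l i m x :=
          Finset.sum_congr rfl fun i hi => by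
            rw [Function.update_of_ne (Finset.ne_of_mem_erase hi)]
        rw [e2]
        ring
      rw [e1]
      rcases eq_or_ne m (r : ℤ) with h | h
      · rw [h, he x hx, kap_top]
        field_simp
        ring
      · have hm' : (r : ℤ) < m := by
          push_cast at hm
          omega
        rw [hc0 m (by omega) x hx, kap_zero r m x (by rw [lt_abs]; omega)]
        ring

/-- If the coefficients `m ≥ 0` vanish on `S` and all vanish at one point, all vanish on `S`. -/
theorem TJ.neg_zero (hal : ((starRingEnd ℂ) (al 0) * al 1).im ≠ 0) (hS : IsOpen S)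
    (hSp : IsPreconnected S) (hf : TJ al l θ S f) (hz : ∀ m, 0 ≤ m → ∀ x ∈ S, f m x = 0)
    {x' : V2} (hx' : x' ∈ S) (h' : ∀ m, m < 0 → f m x' = 0) : ∀ m, ∀ x ∈ S, f m x = 0 := by
  have key : ∀ n : ℕ, ∀ m : ℤ, -(n : ℤ) ≤ m → ∀ x ∈ S, f m x = 0 := by
    intro n
    induction n with
    | zero => intro m hm; exact hz m (by simpa using hm)
    | succ n ih =>
      intro m hm x hx
      rcases eq_or_ne m (-((n + 1 : ℕ) : ℤ)) with h | h
      · obtain ⟨c, hc⟩ := hf.top_const hal hS hSp (-((n + 1 : ℕ) : ℤ))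
          (fun m' hm' => ih m' (by push_cast at hm'; omega))
        rw [h, hc x hx, ← hc x' hx']
        exact h' _ (by omega)
      · exact ih m (by push_cast at hm h; omega) x hx
  intro m x hx
  exact key m.natAbs m (by omega) x hx

/-- At a point with `l = 0` the negative coefficients of `κ^i` vanish. -/
theorem kap_neg (i : ℕ) {x : V2} (hx : l x = 0) : ∀ m : ℤ, m < 0 → kap k w l i m x = 0 := by
  induction i with
  | zero =>
    intro m hm
    simp [kap, hm.ne]
  | succ i ih =>
    intro m hm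
    have h1 : kap k w l i (m - 1) x = 0 := ih _ (by omega)
    have h2 : kap k w l i m x = 0 := ih _ hm
    simp [kap, mulK, h1, h2, hx]

theorem shift1 (N : ℕ) (u : ℤ → ℂ) (h1 : u (-(N : ℤ) - 1) = 0) (h2 : u N = 0) :
    ∑ j ∈ Finset.range (2 * N + 1), u ((j : ℤ) - N - 1)
      = ∑ j ∈ Finset.range (2 * N + 1), u ((j : ℤ) - N) := by
  rw [Finset.sum_range_succ', Finset.sum_range_succ]
  have e1 : ((0 : ℕ) : ℤ) - N - 1 = -(N : ℤ) - 1 := by push_cast; ring
  have e2 : ((2 * N : ℕ) : ℤ) - N = N := by push_cast; ring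
  rw [e1, e2, h1, h2]
  congr 1
  refine Finset.sum_congr rfl fun j _ => ?_
  congr 1
  push_cast
  ring

theorem shift2 (N : ℕ) (u : ℤ → ℂ) (h1 : u (-(N : ℤ)) = 0) (h2 : u ((N : ℤ) + 1) = 0) :
    ∑ j ∈ Finset.range (2 * N + 1), u ((j : ℤ) - N + 1)
      = ∑ j ∈ Finset.range (2 * N + 1), u ((j : ℤ) - N) := by
  rw [Finset.sum_range_succ, Finset.sum_range_succ']
  have e1 : ((0 : ℕ) : ℤ) - N = -(N : ℤ) := by push_cast; ring
  have e2 : ((2 * N : ℕ) : ℤ) - N + 1 = (N : ℤ) + 1 := by push_cast; ring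
  rw [e1, e2, h1, h2]
  congr 1
  refine Finset.sum_congr rfl fun j _ => ?_
  congr 1
  push_cast
  ring

/-- The coefficients `kap i` are those of `κ^i`. -/
theorem kap_eval (i : ℕ) (x : V2) {Y : ℂ} (hY : Y ≠ 0) : ∀ N : ℕ, i ≤ N →
    ∑ j ∈ Finset.range (2 * N + 1), kap k w l i ((j : ℤ) - N) x * Y ^ ((j : ℤ) - N)
      = (k * Y + (w x : ℂ) + (starRingEnd ℂ) k * (l x : ℂ) ^ 2 / Y) ^ i := by
  induction i with
  | zero =>
    intro N _
    rw [pow_zero, Finset.sum_eq_single N]
    · simp [kap]
    · intro j _ hj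
      have : (j : ℤ) - N ≠ 0 := by
        intro h
        apply hj
        omega
      simp [kap, this]
    · intro h
      exact absurd (Finset.mem_range.mpr (by omega)) h
  | succ i ih =>
    intro N hN
    have hi := ih N (by omega)
    set u : ℤ → ℂ := fun m => kap k w l i m x * Y ^ m with hu
    have u1 : u (-(N : ℤ) - 1) = 0 := by
      simp only [hu]
      rw [kap_zero i _ x (by rw [lt_abs]; omega), zero_mul]
    have u2 : u N = 0 := by
      simp only [hu]
      rw [kap_zero i _ x (by rw [lt_abs]; omega), zero_mul]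
    have u3 : u (-(N : ℤ)) = 0 := by
      simp only [hu]
      rw [kap_zero i _ x (by rw [lt_abs]; omega), zero_mul]
    have u4 : u ((N : ℤ) + 1) = 0 := by
      simp only [hu]
      rw [kap_zero i _ x (by rw [lt_abs]; omega), zero_mul]
    have s1 := shift1 N u u1 u2
    have s2 := shift2 N u u3 u4
    have e : ∀ j ∈ Finset.range (2 * N + 1),
        kap k w l (i + 1) ((j : ℤ) - N) x * Y ^ ((j : ℤ) - N)
          = k * Y * u ((j : ℤ) - N - 1) + (w x : ℂ) * u ((j : ℤ) - N)
            + (starRingEnd ℂ) k * (l x : ℂ) ^ 2 / Y * u ((j : ℤ) - N + 1) := by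
      intro j _
      simp only [kap, mulK, hu]
      have z1 : Y ^ ((j : ℤ) - N) = Y * Y ^ ((j : ℤ) - N - 1) := by
        rw [← zpow_one_add₀ hY]
        congr 1
        ring
      have z2 : Y ^ ((j : ℤ) - N + 1) = Y ^ ((j : ℤ) - N) * Y := zpow_add_one₀ hY _
      rw [z2]
      field_simp
      rw [z1]
      ring
    rw [Finset.sum_congr rfl e, Finset.sum_add_distrib, Finset.sum_add_distrib,
      ← Finset.mul_sum, ← Finset.mul_sum, ← Finset.mul_sum, s1, s2, hi, pow_succ]
    ring

end Pool.W4b1b5d.PlG
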