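import Pool.Agent.W_4b1b5d_h66.PlGC
import Pool.Agent.W_4b1b5d_h66.SHInst
import Pool.Agent.W_4b1b5d_h63.PlS
import Pool.Agent.W_4b1b5d_h78.HPops

set_option autoImplicit false

namespace Pool.W4b1b5d.PlG

open Pool.W4b1b5d.H3 Pool.W4b1b5d.E Pool.W4b1b5d.H63 Pool.W4b1b5d.SH

/-- The function `w_h = Re (k b_0)`. -/
noncomputable def wk (I : ID) (V : Uni I) (k : ℂ) (h : ℝ) (x : V2) : ℝ := (k * V.b 0 h x).re

theorem HP_smooth {m : ℕ} {f : ℝ → V2 → ℂ} (hf : HP m f) (h : ℝ) :
    ContDiff ℝ (⊤ : ℕ∞) (f h) ∧ Per (f h) := by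
  obtain ⟨c, h1, h2, h3⟩ := hf
  have e : f h = fun x => ∑ k ∈ Finset.range (m + 1), c k x * (h : ℂ) ^ k := funext (h3 h)
  rw [e]
  refine ⟨ContDiff.sum fun k _ => (h1 k).mul contDiff_const, fun x j => ?_⟩
  refine Finset.sum_congr rfl fun k _ => ?_
  rw [h2 k x j]

theorem wk_smooth (I : ID) (V : Uni I) (k : ℂ) (h : ℝ) : ContDiff ℝ (⊤ : ℕ∞) (wk I V k h) := by
  unfold wk
  exact Complex.reCLM.contDiff.comp (contDiff_const.mul (HP_smooth (V.bHP 0) h).1)

theorem wk_per (I : ID) (V : Uni I) (k : ℂ) (h : ℝ) : Per (wk I V k h) := by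
  intro x j
  unfold wk
  rw [(HP_smooth (V.bHP 0) h).2 x j]

/-- derivatives of `w` on `S`. -/
theorem wk_dd (I : ID) (V : Uni I) {θ k : ℂ}
    (hθ : θ * k = (starRingEnd ℂ) k) (h : ℝ) {x : V2} (hx : GA I V θ x) :
    ddr I.al (wk I V k h) x = -2 * (starRingEnd ℂ) k * ddr (cj I.al) (I.ell h) x ∧
      ddr (cj I.al) (wk I V k h) x = -2 * k * ddr I.al (I.ell h) x := by
  have hb := (HP_smooth (V.bHP 0) h).1
  have hd : DifferentiableAt ℝ (V.b 0 h) x := hb.differentiable (by simp) x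
  have hkd : DifferentiableAt ℝ (fun y => k * V.b 0 h y) x := hd.const_mul k
  have hkc : DifferentiableAt ℝ (fun y => (starRingEnd ℂ) (k * V.b 0 h y)) x :=
    ((Complex.conjCLE : ℂ →L[ℝ] ℂ).differentiableAt).comp x hkd
  have hl : DifferentiableAt ℝ (I.ell h) x := (I.ell_smooth h).differentiable (by simp) x
  have hc : ∀ b : Fin 2 → ℂ, dd b (fun y => k * V.b 0 h y) x = k * dd b (V.b 0 h) x := by
    intro b
    rw [dd_mul b (differentiableAt_const k) hd, BetaA_const, zero_mul, zero_add]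
  have hw : ∀ b : Fin 2 → ℂ, ddr b (wk I V k h) x
      = (dd b (fun y => k * V.b 0 h y) x
        + dd b (fun y => (starRingEnd ℂ) (k * V.b 0 h y)) x) / 2 := by
    intro b
    have e1 : (fun y => ((wk I V k h y : ℝ) : ℂ))
        = fun y => (1 / 2 : ℂ) * (k * V.b 0 h y + (starRingEnd ℂ) (k * V.b 0 h y)) := by
      funext y
      unfold wk
      rw [Complex.add_conj]
      push_cast
      ring
    have e0 := dd_mul b (f := fun _ => (1 / 2 : ℂ))
      (g := fun y => k * V.b 0 h y + (starRingEnd ℂ) (k * V.b 0 h y))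
      (differentiableAt_const (1 / 2 : ℂ)) (hkd.add hkc)
    have e2 := dd_add b (f := fun y => k * V.b 0 h y)
      (g := fun y => (starRingEnd ℂ) (k * V.b 0 h y)) hkd hkc
    beta_reduce at e0 e2
    unfold ddr
    rw [e1, e0, BetaA_const, zero_mul, zero_add, e2]
    ring
  have hcj : cj (cj I.al) = I.al := by
    ext i
    simp [cj]
  have c1 : dd (cj I.al) (fun y => (starRingEnd ℂ) (k * V.b 0 h y)) x
      = (starRingEnd ℂ) (dd I.al (fun y => k * V.b 0 h y) x) := dd_conj I.al hkd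
  have c2 : dd I.al (fun y => (starRingEnd ℂ) (k * V.b 0 h y)) x
      = (starRingEnd ℂ) (dd (cj I.al) (fun y => k * V.b 0 h y) x) := by
    have := dd_conj (cj I.al) hkd
    rwa [hcj] at this
  have a0 : dd I.al (V.b 0 h) x = -2 * θ * ddr (cj I.al) (I.ell h) x := by
    rw [← V.A0]
    exact (hx h).1
  have b0 : dd (cj I.al) (V.b 0 h) x = -2 * ddr I.al (I.ell h) x := V.db0 h x
  have r1 : ddr (cj I.al) (I.ell h) x = (starRingEnd ℂ) (ddr I.al (I.ell h) x) :=
    ddr_conj I.al hl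
  have hθ' : (starRingEnd ℂ) θ * (starRingEnd ℂ) k = k := by
    rw [← map_mul, hθ, Complex.conj_conj]
  constructor
  · rw [hw, c2, hc, hc, a0, b0, r1]
    simp only [map_mul, map_neg, map_ofNat]
    linear_combination (-(starRingEnd ℂ) (ddr I.al (I.ell h) x)) * hθ
  · rw [hw, c1, hc, hc, a0, b0, r1]
    simp only [map_mul, map_neg, map_ofNat, Complex.conj_conj]
    linear_combination (-(ddr I.al (I.ell h) x)) * hθ'

/-- `TJ` for the coefficients of the integral. -/
theorem TJ_Bt (I : ID) (V : Uni I) (θ : ℂ) (S : Set V2) (hGA : ∀ x ∈ S, GA I V θ x) (h : ℝ) :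
    TJ I.al (I.ell h) θ S (Bt I h) := by
  refine ⟨fun m => Bt_smooth I h m, fun x _ m => Bt_trans I h m x, fun x hx m => ?_⟩
  have hg := hGA x hx
  rw [J_rel I V hg h m, (hg h).1, (hg h).2.1]

/-- The set of values of `U` on `S` is infinite. -/
theorem U_infinite (I : ID) {S : Set V2} (hS : IsOpen S) (hSp : IsPreconnected S) {x1 : V2}
    (hx1 : x1 ∈ S) (hU : fderiv ℝ I.U x1 ≠ 0) : (I.U '' S).Infinite := by
  have hc : ContinuousOn I.U S := I.Usm.continuous.continuousOn
  have hpc : IsPreconnected (I.U '' S) := hSp.image _ hc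
  by_contra hfin
  rw [Set.not_infinite] at hfin
  have hsub : (I.U '' S).Subsingleton := by
    intro a ha b hb
    by_contra hne
    rcases lt_or_gt_of_ne hne with h | h
    · exact (Set.Icc_infinite h) (hfin.subset (hpc.Icc_subset ha hb))
    · exact (Set.Icc_infinite h) (hfin.subset (hpc.Icc_subset hb ha))
  apply hU
  have h1 : I.U =ᶠ[nhds x1] fun _ => I.U x1 := by
    filter_upwards [hS.mem_nhds hx1] with y hy
    exact hsub ⟨y, hy, rfl⟩ ⟨x1, hx1, rfl⟩
  rw [h1.fderiv_eq]
  simp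

/-- Coefficient form of the structure theorem on `S` at all energies. -/
theorem PlG_coef (I : ID) (V : Uni I) (M : ℕ)
    (hbig : ∀ (k : ℤ) (h : ℝ) (x : V2), (M : ℤ) < k → Bt I h k x = 0) {θ k : ℂ}
    (hk : k * (starRingEnd ℂ) k = 1) (hθ : θ * k = (starRingEnd ℂ) k) {S : Set V2}
    (hS : IsOpen S) (hSp : IsPreconnected S) (hGA : ∀ x ∈ S, GA I V θ x) {x1 : V2}
    (hx1 : x1 ∈ S) (hU : fderiv ℝ I.U x1 ≠ 0) (h : ℝ) :
    ∃ c : ℕ → ℝ, ∀ x ∈ S, ∀ m : ℤ,
      Bt I h m x = ∑ i ∈ Finset.range (M + 1), (c i : ℂ) * kap k (wk I V k h) (I.ell h) i m x := by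
  have hk0 : k ≠ 0 := by
    rintro rfl
    simp at hk
  -- the peeling at all energies
  have hpeel : ∀ h : ℝ, ∃ c : ℕ → ℂ, TJ I.al (I.ell h) θ S
      (rest k (wk I V k h) (I.ell h) (Bt I h) M c) ∧
      ∀ m : ℤ, 0 ≤ m → ∀ x ∈ S, rest k (wk I V k h) (I.ell h) (Bt I h) M c m x = 0 := by
    intro h
    obtain ⟨c, hc1, hc2⟩ := (TJ_Bt I V θ S hGA h).peel I.hal hS hSp hk hθ (wk_smooth I V k h)
      (I.ell_smooth h) (fun x hx => (wk_dd I V hθ h (hGA x hx)).1)
      (fun x hx => (wk_dd I V hθ h (hGA x hx)).2) M (fun m hm x _ => hbig m h x hm) (M + 1) le_rfl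
    exact ⟨c, hc1, fun m hm x hx => hc2 m (by push_cast; omega) x hx⟩
  -- reality of `k^(-m) Bt m` for `h` in `U(S)`
  have hreal1 : ∀ x ∈ S, ∀ h ∈ I.U '' S, h ≠ I.U x → ∀ m : ℕ, ∃ r : ℝ, Bt I h m x = k ^ m * r := by
    rintro x hx h ⟨x', hx', rfl⟩ hne m
    obtain ⟨c, hc1, hc2⟩ := hpeel (I.U x')
    have hl0 : I.ell (I.U x') x' = 0 := by simp [ID.ell]
    have hl : I.ell (I.U x') x ≠ 0 := by
      unfold ID.ell
      exact div_ne_zero (sub_ne_zero.mpr hne) (I.mupos x).ne'
    have hall := hc1.neg_zero I.hal hS hSp hc2 hx' (fun m hm => by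
      unfold rest
      obtain ⟨n, rfl⟩ : ∃ n : ℕ, m = -(n : ℤ) := ⟨m.natAbs, by omega⟩
      have hn : n ≠ 0 := by omega
      rw [Bt_neg, hl0]
      have e1 : ∀ i ∈ Finset.range (M + 1),
          c i * kap k (wk I V k (I.U x')) (I.ell (I.U x')) i (-(n : ℤ)) x' = 0 := by
        intro i _
        rw [kap_neg i hl0 _ hm, mul_zero]
      rw [Finset.sum_eq_zero e1]
      simp [hn])
    set W := wk I V k (I.U x') with hW
    set L := I.ell (I.U x') with hL
    choose r hr using fun i => kap_Rl (k := k) (w := W) (l := L) hk i x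
    set T : ℂ := ∑ i ∈ Finset.range (M + 1), c i * (r i m : ℂ) with hT
    have p1 : Bt I (I.U x') m x = k ^ m * T := by
      have := hall m x hx
      unfold rest at this
      rw [sub_eq_zero] at this
      rw [this, hT, Finset.mul_sum]
      refine Finset.sum_congr rfl fun i _ => ?_
      rw [hr i m, zpow_natCast]
      ring
    have p2 : Bt I (I.U x') (-(m : ℤ)) x = (L x : ℂ) ^ (2 * m) * ((starRingEnd ℂ) k ^ m * T) := by
      have := hall (-(m : ℤ)) x hx
      unfold rest at this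
      rw [sub_eq_zero] at this
      rw [this, hT, Finset.mul_sum, Finset.mul_sum]
      refine Finset.sum_congr rfl fun i _ => ?_
      rw [kap_Sy i x m, hr i m, zpow_natCast]
      simp only [map_mul, map_pow, Complex.conj_ofReal]
      ring
    rw [Bt_neg, p1] at p2
    have hL0 : ((I.ell (I.U x') x : ℂ)) ^ (2 * m) ≠ 0 :=
      pow_ne_zero _ (Complex.ofReal_ne_zero.mpr hl)
    have p3 := mul_left_cancel₀ hL0 p2
    simp only [map_mul, map_pow] at p3
    have hkc : (starRingEnd ℂ) k ^ m ≠ 0 := pow_ne_zero _ (by simpa using hk0)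
    have p4 : (starRingEnd ℂ) T = T := mul_left_cancel₀ hkc p3
    refine ⟨T.re, ?_⟩
    rw [p1, Complex.conj_eq_iff_re.mp p4]
  -- reality for all `h`
  have hreal : ∀ x ∈ S, ∀ (h : ℝ) (m : ℕ), ∃ r : ℝ, Bt I h m x = k ^ m * r := by
    intro x hx h m
    have hinf : ((I.U '' S) \ {I.U x}).Infinite :=
      (U_infinite I hS hSp hx1 hU).sdiff (Set.finite_singleton _)
    obtain ⟨p, _, hp⟩ := (HP.Bt I (m : ℤ)).poly x
    set q : Polynomial ℂ := Polynomial.C ((starRingEnd ℂ) k ^ m) * p with hq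
    have hqe : ∀ t : ℝ, q.eval (t : ℂ) = (starRingEnd ℂ) k ^ m * Bt I t m x := by
      intro t
      rw [hq, Polynomial.eval_mul, Polynomial.eval_C, hp t]
    have hkk : (starRingEnd ℂ) k ^ m * k ^ m = 1 := by
      rw [← mul_pow, mul_comm, hk, one_pow]
    have hqq : q = q.map (starRingEnd ℂ) := by
      refine Polynomial.eq_of_infinite_eval_eq _ _ ?_
      have h2 : ((fun t : ℝ => (t : ℂ)) '' ((I.U '' S) \ {I.U x})).Infinite :=
        hinf.image (Complex.ofReal_injective.injOn)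
      refine h2.mono ?_
      rintro z ⟨t, ht, rfl⟩
      change q.eval (t : ℂ) = (q.map (starRingEnd ℂ)).eval (t : ℂ)
      have e1 : (q.map (starRingEnd ℂ)).eval (t : ℂ) = (starRingEnd ℂ) (q.eval (t : ℂ)) := by
        conv_lhs => rw [← Complex.conj_ofReal t]
        rw [Polynomial.eval_map, Polynomial.eval₂_hom]
      obtain ⟨r, hr⟩ := hreal1 x hx t ht.1 ht.2 m
      rw [e1, hqe, hr, ← mul_assoc, hkk, one_mul, Complex.conj_ofReal]
    have e2 : (starRingEnd ℂ) (q.eval (h : ℂ)) = q.eval (h : ℂ) := by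
      conv_rhs => rw [hqq, ← Complex.conj_ofReal h, Polynomial.eval_map, Polynomial.eval₂_hom]
    refine ⟨(q.eval (h : ℂ)).re, ?_⟩
    rw [Complex.conj_eq_iff_re.mp e2, hqe, ← mul_assoc, mul_comm (k ^ m), hkk, one_mul]
  -- the coefficients are real
  obtain ⟨c, hc1, hc2⟩ := hpeel h
  set W := wk I V k h with hW
  set L := I.ell h with hL
  choose r hr using fun i => kap_Rl (k := k) (w := W) (l := L) hk i x1
  have him : ∀ n m : ℕ, m + n = M → (c m).im = 0 := by
    intro n
    induction n using Nat.strong_induction_on with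
    | _ n ih =>
      intro m hm
      obtain ⟨s, hs⟩ := hreal x1 hx1 h m
      have h1 := hc2 m (by positivity) x1 hx1
      unfold rest at h1
      rw [sub_eq_zero, hs] at h1
      have h2 : k ^ m * (s : ℂ) = k ^ m * ∑ i ∈ Finset.range (M + 1), c i * (r i m : ℂ) := by
        rw [h1, Finset.mul_sum]
        refine Finset.sum_congr rfl fun i _ => ?_
        rw [hr i m, zpow_natCast]
        ring
      have h3 := mul_left_cancel₀ (pow_ne_zero m hk0) h2
      have h4 := congrArg Complex.im h3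
      rw [Complex.ofReal_im, Complex.im_sum] at h4
      have hmem : m ∈ Finset.range (M + 1) := Finset.mem_range.mpr (by omega)
      rw [Finset.sum_eq_single_of_mem m hmem] at h4
      · have h5 : (r m m : ℂ) = 1 := by
          have := hr m m
          rw [kap_top, zpow_natCast] at this
          have h6 : k ^ m * (1 : ℂ) = k ^ m * (r m m : ℂ) := by rw [mul_one]; exact this
          exact (mul_left_cancel₀ (pow_ne_zero m hk0) h6).symm
        rw [h5, mul_one] at h4
        exact h4.symm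
      · intro i hi hne
        rw [Complex.im_mul_ofReal]
        rcases lt_or_gt_of_ne hne with hlt | hgt
        · have h7 : kap k W L i (m : ℤ) x1 = 0 := kap_zero i _ x1 (by rw [lt_abs]; omega)
          have h8 : (r i m : ℂ) = 0 := by
            have := hr i m
            rw [h7, zpow_natCast] at this
            rcases mul_eq_zero.mp this.symm with h9 | h9
            · exact absurd h9 (pow_ne_zero m hk0)
            · exact h9
          have h9 : r i m = 0 := by exact_mod_cast h8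
          rw [h9, mul_zero]
        · have hi' := Finset.mem_range.mp hi
          rw [ih (M - i) (by omega) i (by omega), zero_mul]
  have hcr : ∀ i ∈ Finset.range (M + 1), c i = ((c i).re : ℂ) := by
    intro i hi
    have hi' := Finset.mem_range.mp hi
    refine Complex.ext (by simp) ?_
    rw [him (M - i) i (by omega), Complex.ofReal_im]
  refine ⟨fun i => (c i).re, fun x hx m => ?_⟩
  have hpos : ∀ m : ℤ, 0 ≤ m → Bt I h m x
      = ∑ i ∈ Finset.range (M + 1), ((c i).re : ℂ) * kap k W L i m x := by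
    intro m hm
    have h1 := hc2 m hm x hx
    unfold rest at h1
    rw [sub_eq_zero] at h1
    rw [h1]
    exact Finset.sum_congr rfl fun i hi => by rw [← hcr i hi]
  rcases le_or_gt 0 m with hm | hm
  · exact hpos m hm
  · obtain ⟨n, rfl⟩ : ∃ n : ℕ, m = -(n : ℤ) := ⟨m.natAbs, by omega⟩
    rw [Bt_neg, hpos n (by positivity), map_sum, Finset.mul_sum]
    refine Finset.sum_congr rfl fun i _ => ?_
    rw [kap_Sy i x n, map_mul, Complex.conj_ofReal]
    ring

/-- **The structure theorem on `S` at every real energy**: `R_h(x,Y)` is a real polynomial in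
`κ = k Y + w_h + conj k l² / Y`, independent of `x ∈ S`. -/
theorem PlG_main (I : ID) (V : Uni I) (M : ℕ)
    (hbig : ∀ (k : ℤ) (h : ℝ) (x : V2), (M : ℤ) < k → Bt I h k x = 0) {θ k : ℂ}
    (hk : k * (starRingEnd ℂ) k = 1) (hθ : θ * k = (starRingEnd ℂ) k) {S : Set V2}
    (hS : IsOpen S) (hSp : IsPreconnected S) (hGA : ∀ x ∈ S, GA I V θ x) {x1 : V2}
    (hx1 : x1 ∈ S) (hU : fderiv ℝ I.U x1 ≠ 0) (h : ℝ) :
    ∃ g : Polynomial ℝ, g.natDegree ≤ M ∧ (∀ x ∈ S, Bt I h M x = k ^ M * (g.coeff M : ℂ)) ∧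
      ∀ x ∈ S, ∀ Y : ℂ, Y ≠ 0 → LB M (Bt I h) 0 x Y = (g.map (algebraMap ℝ ℂ)).eval
        (k * Y + (wk I V k h x : ℂ) + (starRingEnd ℂ) k * (I.ell h x : ℂ) ^ 2 / Y) := by
  obtain ⟨c, hc⟩ := PlG_coef I V M hbig hk hθ hS hSp hGA hx1 hU h
  refine ⟨∑ i ∈ Finset.range (M + 1), Polynomial.C (c i) * Polynomial.X ^ i, ?_, ?_, ?_⟩
  · refine Polynomial.natDegree_sum_le_of_forall_le _ _ fun i hi => ?_
    have := Finset.mem_range.mp hi
    exact (Polynomial.natDegree_C_mul_X_pow_le _ _).trans (by omega)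
  · intro x hx
    rw [hc x hx M, Finset.sum_eq_single_of_mem M (Finset.mem_range.mpr (by omega))]
    · rw [kap_top, Polynomial.finsetSum_coeff,
        Finset.sum_eq_single_of_mem M (Finset.mem_range.mpr (by omega))]
      · rw [Polynomial.coeff_C_mul, Polynomial.coeff_X_pow_self, mul_one, mul_comm]
      · intro i _ hi
        rw [Polynomial.coeff_C_mul, Polynomial.coeff_X_pow, if_neg (Ne.symm hi), mul_zero]
    · intro i hi hne
      have := Finset.mem_range.mp hi
      rw [kap_zero i _ x (by rw [lt_abs]; omega), mul_zero]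
  · intro x hx Y hY
    have e1 : LB M (Bt I h) 0 x Y
        = ∑ j ∈ Finset.range (2 * M + 1), Bt I h ((j : ℤ) - M) x * Y ^ ((j : ℤ) - M) := by
      unfold LB Lk
      refine Finset.sum_congr rfl fun j _ => ?_
      rw [fall_zero]
      simp
    rw [e1, Polynomial.eval_map, Polynomial.eval₂_finsetSum]
    have e2 : ∀ j ∈ Finset.range (2 * M + 1), Bt I h ((j : ℤ) - M) x * Y ^ ((j : ℤ) - M)
        = ∑ i ∈ Finset.range (M + 1), (c i : ℂ) *
          (kap k (wk I V k h) (I.ell h) i ((j : ℤ) - M) x * Y ^ ((j : ℤ) - M)) := by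
      intro j _
      rw [hc x hx, Finset.sum_mul]
      exact Finset.sum_congr rfl fun i _ => by ring
    rw [Finset.sum_congr rfl e2, Finset.sum_comm]
    refine Finset.sum_congr rfl fun i hi => ?_
    have hi' := Finset.mem_range.mp hi
    rw [← Finset.mul_sum, kap_eval i x hY M (by omega)]
    simp [Polynomial.eval₂_mul, Polynomial.eval₂_pow]

end Pool.W4b1b5d.PlG
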