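import Pool.Agent.W_4b1b5d_h66.PlGD
import Pool.Agent.W_4b1b5d_h33.Lab

set_option autoImplicit false

namespace Pool.W4b1b5d.PlG

open Pool.W4b1b5d.H3 Pool.W4b1b5d.E Pool.W4b1b5d.H63 Pool.W4b1b5d.SH Pool.W4b1b5d.H33

theorem unit_of_norm {k : ℂ} (hk : ‖k‖ = 1) : k * (starRingEnd ℂ) k = 1 := by
  rw [Complex.mul_conj, Complex.normSq_eq_norm_sq, hk]
  simp

/-- a square root `k` of `conj θ`. -/
theorem exists_k {θ : ℂ} (hθ : ‖θ‖ = 1) : ∃ k : ℂ, ‖k‖ = 1 ∧ k ^ 2 = (starRingEnd ℂ) θ ∧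
    θ * k = (starRingEnd ℂ) k := by
  obtain ⟨k, hk⟩ := IsAlgClosed.exists_pow_nat_eq ((starRingEnd ℂ) θ) (n := 2) (by norm_num)
  have h1 : ‖k‖ ^ 2 = 1 := by
    rw [← norm_pow, hk, RCLike.norm_conj, hθ]
  have h2 : ‖k‖ = 1 := by
    have := norm_nonneg k
    nlinarith
  refine ⟨k, h2, hk, ?_⟩
  have h3 := unit_of_norm h2
  have h4 : θ = (starRingEnd ℂ) k ^ 2 := by
    rw [← map_pow, hk, Complex.conj_conj]
  rw [h4]
  linear_combination (starRingEnd ℂ) k * h3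

/-- The plateau structure `PS` at an energy `h` with `ell h > 0` and nonzero top coefficient. -/
noncomputable def mkPS (I : ID) (V : Uni I) (N : ℕ) (hN : I.n = 2 * N) (M : ℕ) (hM : 1 ≤ M)
    (hbig : ∀ (k : ℤ) (h : ℝ) (x : V2), (M : ℤ) < k → Bt I h k x = 0) {θ k : ℂ} (hk : ‖k‖ = 1)
    (hθ : θ * k = (starRingEnd ℂ) k) {S : Set V2}
    (hS : IsOpen S) (hSp : IsPreconnected S) (hGA : ∀ x ∈ S, GA I V θ x) {x1 : V2}
    (hx1 : x1 ∈ S) (hU : fderiv ℝ I.U x1 ≠ 0) (h : ℝ) (a : ℂ) (ha : a ≠ 0)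
    (htop : ∀ x, Bt I h M x = a) (hl : ∀ x, 0 < I.ell h x) :
    PS (mkPD I N hN M hM h a ha htop (fun k x => hbig k h x) hl) where
  k := k
  hk := hk
  w := wk I V k h
  wc := (wk_smooth I V k h).continuous
  g := ((PlG_main I V M hbig (unit_of_norm hk) hθ hS hSp hGA hx1 hU h).choose).map
    (algebraMap ℝ ℂ)
  greal := by
    intro T
    generalize (PlG_main I V M hbig (unit_of_norm hk) hθ hS hSp hGA hx1 hU h).choose = g
    have h1 : ((g.map (algebraMap ℝ ℂ)).map (starRingEnd ℂ)) = g.map (algebraMap ℝ ℂ) := by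
      rw [Polynomial.map_map]
      congr 1
      ext r
      simp
    conv_lhs => rw [← h1, Polynomial.eval_map, Polynomial.eval₂_hom]
  gdeg := by
    have hg := (PlG_main I V M hbig (unit_of_norm hk) hθ hS hSp hGA hx1 hU h).choose_spec
    generalize (PlG_main I V M hbig (unit_of_norm hk) hθ hS hSp hGA hx1 hU h).choose = g at hg
    obtain ⟨h1, h2, -⟩ := hg
    have h3 := h2 x1 hx1
    rw [htop x1] at h3
    have h4 : g.coeff M ≠ 0 := by
      intro h5
      rw [h5] at h3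
      simp at h3
      exact ha h3
    have h6 : g.natDegree = M := le_antisymm h1 (Polynomial.le_natDegree_of_ne_zero h4)
    rw [Polynomial.natDegree_map, h6]
    rfl
  S := S
  So := hS
  Sp := hSp
  Sne := ⟨x1, hx1⟩
  str := by
    intro x hx Y hY
    exact (PlG_main I V M hbig (unit_of_norm hk) hθ hS hSp hGA hx1 hU h).choose_spec.2.2 x hx Y hY

end Pool.W4b1b5d.PlG
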