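import Pool.Agent.W_4b1b5d_h66.SHBasic
import Pool.Agent.W_4b1b5d_h66.SHPoly

set_option autoImplicit false

namespace Pool.W4b1b5d.SH

open Pool.W4b1b5d.H3 Polynomial Set

namespace PD

/-- TASK SHStrip (1).  Asymptotics: for `|v|` large the solutions are large and
`a P^(eM) / v` is close to `1` (`R_grow`, `R_bdd`). -/
theorem asym_root (D : PD) (e : ℕ) (he : 1 ≤ e) (ε ρ' : ℝ) (hε : 0 < ε) :
    ∃ ρ : ℝ, 0 < ρ ∧ ∀ (x : V2) (P v : ℂ), ρ ≤ ‖v‖ → D.l x ≤ ‖P‖ ^ e → D.R 0 x (P ^ e) = v →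
      ρ' ≤ ‖P‖ ∧ ‖D.a * P ^ (e * D.M) / v - 1‖ ≤ ε := by
  obtain ⟨c, C0, hc, hl⟩ := l_bounds D
  obtain ⟨C1, hC1, hg⟩ := R_grow D
  have ha : 0 < ‖D.a‖ := norm_pos_iff.2 D.ha
  have hM := D.hM
  obtain ⟨T, hT⟩ : ∃ T : ℝ, T = 1 + |ρ'| ^ e + 2 * C1 / ‖D.a‖ + 2 * C1 / (‖D.a‖ * ε) := ⟨_, rfl⟩
  have h0 : 0 ≤ |ρ'| ^ e := pow_nonneg (abs_nonneg _) _
  have h1 : 0 ≤ 2 * C1 / ‖D.a‖ := by positivity
  have h2 : 0 ≤ 2 * C1 / (‖D.a‖ * ε) := by positivity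
  have hT1 : 1 ≤ T := by rw [hT]; linarith
  have hT2 : |ρ'| ^ e ≤ T := by rw [hT]; linarith
  have hT3 : 2 * C1 ≤ ‖D.a‖ * T := by
    have h3 : 2 * C1 / ‖D.a‖ ≤ T := by rw [hT]; linarith
    rw [div_le_iff₀ ha] at h3
    linarith
  have hT4 : 2 * C1 ≤ ‖D.a‖ * ε * T := by
    have h3 : 2 * C1 / (‖D.a‖ * ε) ≤ T := by rw [hT]; linarith
    rw [div_le_iff₀ (by positivity)] at h3
    linarith
  obtain ⟨C2, hC2, hb⟩ := R_bdd D 0 c T hc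
  refine ⟨C2 + 1, by linarith, ?_⟩
  intro x P v hv hP hR
  have hY : T < ‖P ^ e‖ := by
    by_contra hcon
    rw [not_lt] at hcon
    have h3 := hb x (P ^ e) ((hl x).1.trans (by rw [norm_pow]; exact hP)) hcon
    rw [hR] at h3
    linarith
  have hPY : ‖P ^ e‖ = ‖P‖ ^ e := norm_pow _ _
  have hYpos : 0 < ‖P ^ e‖ := by linarith
  constructor
  · by_contra hcon
    rw [not_le] at hcon
    have h3 : ‖P‖ ^ e ≤ |ρ'| ^ e :=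
      pow_le_pow_left₀ (norm_nonneg _) (hcon.le.trans (le_abs_self _)) _
    linarith
  · have h3 := (hg x (P ^ e) (by rw [hPY]; exact hP)).1
    rw [hR] at h3
    have hvpos : 0 < ‖v‖ := by linarith
    have hv0 : v ≠ 0 := norm_pos_iff.1 hvpos
    have h4 : ‖P ^ e‖ ^ D.M = ‖P ^ e‖ ^ (D.M - 1) * ‖P ^ e‖ := by
      rw [← pow_succ]
      congr 1
      omega
    have h5 : 0 < ‖P ^ e‖ ^ (D.M - 1) := pow_pos hYpos _
    have h6 : ‖D.a * (P ^ e) ^ D.M‖ = ‖D.a‖ * (‖P ^ e‖ ^ (D.M - 1) * ‖P ^ e‖) := by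
      rw [norm_mul, norm_pow, h4]
    have h7 : ‖D.a * (P ^ e) ^ D.M‖ ≤ ‖v‖ + ‖v - D.a * (P ^ e) ^ D.M‖ := by
      have h8 : D.a * (P ^ e) ^ D.M = v - (v - D.a * (P ^ e) ^ D.M) := by ring
      calc ‖D.a * (P ^ e) ^ D.M‖ = ‖v - (v - D.a * (P ^ e) ^ D.M)‖ := by rw [← h8]
        _ ≤ _ := norm_sub_le _ _
    have h9 : ‖D.a * P ^ (e * D.M) / v - 1‖ = ‖v - D.a * (P ^ e) ^ D.M‖ / ‖v‖ := by
      rw [← norm_div, ← norm_neg]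
      congr 1
      rw [pow_mul]
      field_simp
      ring
    rw [h9, div_le_iff₀ hvpos]
    -- the main estimate
    have h10 : ‖D.a‖ * (‖P ^ e‖ ^ (D.M - 1) * T) ≤ ‖D.a‖ * (‖P ^ e‖ ^ (D.M - 1) * ‖P ^ e‖) :=
      mul_le_mul_of_nonneg_left (mul_le_mul_of_nonneg_left hY.le h5.le) ha.le
    have h11 : ‖D.a‖ * (‖P ^ e‖ ^ (D.M - 1) * ‖P ^ e‖) ≤ ‖v‖ + C1 * ‖P ^ e‖ ^ (D.M - 1) := by
      rw [← h6]
      linarith
    have h12 : 2 * C1 * ‖P ^ e‖ ^ (D.M - 1) ≤ ‖D.a‖ * T * ‖P ^ e‖ ^ (D.M - 1) :=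
      mul_le_mul_of_nonneg_right hT3 h5.le
    have h13 : 2 * C1 * ‖P ^ e‖ ^ (D.M - 1) ≤ ‖D.a‖ * ε * T * ‖P ^ e‖ ^ (D.M - 1) :=
      mul_le_mul_of_nonneg_right hT4 h5.le
    have h14 : ‖D.a‖ * T * ‖P ^ e‖ ^ (D.M - 1) ≤ 2 * ‖v‖ := by nlinarith
    have h15 : ε * (‖D.a‖ * T * ‖P ^ e‖ ^ (D.M - 1)) ≤ ε * (2 * ‖v‖) :=
      mul_le_mul_of_nonneg_left h14 hε.le
    nlinarith

theorem SHAsyA_pow (n : ℕ) (A P : ℂ) (δ : ℝ) (hδ : 0 ≤ δ) (h : ‖P - A‖ ≤ δ * ‖A‖)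
    (h2 : ‖P‖ ≤ 2 * ‖A‖) : ‖P ^ n - A ^ n‖ ≤ n * δ * 2 ^ n * ‖A‖ ^ n := by
  induction n with
  | zero => simp
  | succ n ih =>
    have h3 : P ^ (n + 1) - A ^ (n + 1) = P ^ n * (P - A) + (P ^ n - A ^ n) * A := by ring
    have h4 : ‖P ^ n‖ ≤ 2 ^ n * ‖A‖ ^ n := by
      rw [norm_pow, ← mul_pow]
      exact pow_le_pow_left₀ (norm_nonneg _) h2 _
    have h5 : ‖P ^ n * (P - A)‖ ≤ (2 ^ n * ‖A‖ ^ n) * (δ * ‖A‖) := by
      rw [norm_mul]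
      exact mul_le_mul h4 h (norm_nonneg _) (by positivity)
    have h6 : ‖(P ^ n - A ^ n) * A‖ ≤ (n * δ * 2 ^ n * ‖A‖ ^ n) * ‖A‖ := by
      rw [norm_mul]
      exact mul_le_mul_of_nonneg_right ih (norm_nonneg _)
    rw [h3]
    refine (norm_add_le _ _).trans ((add_le_add h5 h6).trans ?_)
    have h7 : 0 ≤ ((n : ℝ) + 1) * δ * 2 ^ n * (‖A‖ ^ n * ‖A‖) := by positivity
    push_cast
    rw [pow_succ, pow_succ]
    nlinarith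

/-- TASK SHStrip (2).  Injectivity near infinity.  `f(P) = R(x,P^e)` has derivative
`e P^(e-1) R_Y(x,P^e) = e M a P^(eM-1) (1 + O(|P|^(-e)))`; for `‖P - A‖ ≤ δ ‖A‖`, `δ` small, `‖A‖`
large, `‖f'(P) - e M a A^(eM-1)‖ ≤ (1/2) ‖e M a A^(eM-1)‖`, so `f` is injective on this ball
(mean value inequality, `Convex.norm_image_sub_le_of_norm_hasDerivWithin_le` for
`f(P) - e M a A^(eM-1) P`). -/
theorem asym_inj (D : PD) (e : ℕ) (he : 1 ≤ e) : ∃ ρ δ : ℝ, 0 < ρ ∧ 0 < δ ∧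
    ∀ (x : V2) (A B : ℂ), ρ ≤ ‖A‖ → ‖B - A‖ ≤ δ * ‖A‖ →
      D.R 0 x (A ^ e) = D.R 0 x (B ^ e) → A = B := by
  obtain ⟨c, C0, hc, hl⟩ := l_bounds D
  obtain ⟨C1, hC1, hg⟩ := R_grow D
  have ha : 0 < ‖D.a‖ := norm_pos_iff.2 D.ha
  have hM := D.hM
  have hMR : (1 : ℝ) ≤ D.M := by exact_mod_cast hM
  have heR : (1 : ℝ) ≤ e := by exact_mod_cast he
  have heM : 1 ≤ e * D.M := Nat.mul_pos he hM
  obtain ⟨n, hn⟩ : ∃ n, n = e * D.M - 1 := ⟨_, rfl⟩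
  obtain ⟨δ, hδ⟩ : ∃ δ : ℝ, δ = 1 / (4 * (n + 1) * 2 ^ n) := ⟨_, rfl⟩
  have hδpos : 0 < δ := by rw [hδ]; positivity
  have h2n : (1 : ℝ) ≤ 2 ^ n := one_le_pow₀ (by norm_num)
  have hnn : (0 : ℝ) ≤ n := Nat.cast_nonneg _
  have hδ1 : 4 * ((n + 1) * δ * 2 ^ n) = 1 := by
    rw [hδ]
    field_simp
  have hδ2 : δ ≤ 1 / 2 := by
    have h3 : δ * 1 ≤ δ * (((n : ℝ) + 1) * 2 ^ n) :=
      mul_le_mul_of_nonneg_left (by nlinarith) hδpos.le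
    nlinarith
  have hδ3 : (n * δ * 2 ^ n) ≤ 1 / 4 := by nlinarith
  obtain ⟨ρ, hρ⟩ : ∃ ρ : ℝ, ρ = 2 * (1 + |C0| + 4 * C1 * 2 ^ n / ‖D.a‖) := ⟨_, rfl⟩
  have h1 : 0 ≤ 4 * C1 * 2 ^ n / ‖D.a‖ := by positivity
  have hρ1 : 1 ≤ ρ / 2 := by rw [hρ]; have := abs_nonneg C0; linarith
  have hρ2 : C0 ≤ ρ / 2 := by rw [hρ]; have := le_abs_self C0; linarith
  have hρ3 : 4 * C1 * 2 ^ n ≤ ‖D.a‖ * (ρ / 2) := by
    have h3 : 4 * C1 * 2 ^ n / ‖D.a‖ ≤ ρ / 2 := by rw [hρ]; have := abs_nonneg C0; linarith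
    rw [div_le_iff₀ ha] at h3
    linarith
  refine ⟨ρ, δ, by linarith, hδpos, ?_⟩
  intro x A B hA hB hR
  have hApos : 0 < ‖A‖ := by linarith
  obtain ⟨K, hK⟩ : ∃ K : ℂ, K = e * D.M * D.a * A ^ n := ⟨_, rfl⟩
  have hKn : ‖K‖ = e * D.M * ‖D.a‖ * ‖A‖ ^ n := by
    rw [hK]
    simp [norm_mul, norm_pow]
  have hKpos : 0 < ‖K‖ := by
    rw [hKn]
    positivity
  have hball : ∀ P ∈ Metric.closedBall A (δ * ‖A‖), ‖P - A‖ ≤ δ * ‖A‖ ∧ ‖P‖ ≤ 2 * ‖A‖ ∧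
      ρ / 2 ≤ ‖P‖ := by
    intro P hP
    rw [Metric.mem_closedBall, dist_eq_norm] at hP
    have h3 : δ * ‖A‖ ≤ 1 / 2 * ‖A‖ := mul_le_mul_of_nonneg_right hδ2 hApos.le
    have h4 : ‖P‖ ≤ ‖P - A‖ + ‖A‖ := by
      calc ‖P‖ = ‖(P - A) + A‖ := by rw [sub_add_cancel]
        _ ≤ _ := norm_add_le _ _
    have h5 : ‖A‖ ≤ ‖P‖ + ‖P - A‖ := by
      calc ‖A‖ = ‖P - (P - A)‖ := by rw [sub_sub_cancel]
        _ ≤ _ := norm_sub_le _ _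
    exact ⟨hP, by linarith, by linarith⟩
  have hder : ∀ P ∈ Metric.closedBall A (δ * ‖A‖),
      HasDerivWithinAt (fun P => D.R 0 x (P ^ e) - K * P)
        (D.R 1 x (P ^ e) * (e * P ^ (e - 1)) - K) (Metric.closedBall A (δ * ‖A‖)) P := by
    intro P hP
    obtain ⟨h3, h4, h5⟩ := hball P hP
    have hP0 : P ≠ 0 := by
      rw [← norm_pos_iff]
      linarith
    have h6 := R_hasDerivAt D 0 x (pow_ne_zero e hP0)
    have h7 : HasDerivAt (fun P : ℂ => P ^ e) (e * P ^ (e - 1)) P := hasDerivAt_pow e P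
    have h8 := HasDerivAt.comp P h6 h7
    have h9 : HasDerivAt (fun P : ℂ => K * P) K P := by
      simpa using (hasDerivAt_id P).const_mul K
    exact (h8.sub h9).hasDerivWithinAt
  have hbd : ∀ P ∈ Metric.closedBall A (δ * ‖A‖),
      ‖D.R 1 x (P ^ e) * (e * P ^ (e - 1)) - K‖ ≤ 1 / 2 * ‖K‖ := by
    intro P hP
    obtain ⟨h3, h4, h5⟩ := hball P hP
    have hPpos : 0 < ‖P‖ := by linarith
    have hP1 : 1 ≤ ‖P‖ := by linarith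
    have hPe : ‖P‖ ≤ ‖P‖ ^ e := le_self_pow₀ hP1 (by omega)
    have h6 := (hg x (P ^ e) (by rw [norm_pow]; linarith [(hl x).2])).2
    have h7 := SHAsyA_pow n A P δ hδpos.le h3 h4
    have hne : D.M * e - e + (e - 1) = n := by
      rw [hn]
      have : e ≤ D.M * e := Nat.le_mul_of_pos_left e hM
      have : D.M * e = e * D.M := Nat.mul_comm _ _
      omega
    have h8 : ((P ^ e) ^ (D.M - 1)) * P ^ (e - 1) = P ^ n := by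
      rw [← pow_mul, ← pow_add]
      congr 1
      rw [Nat.mul_sub, mul_one, ← hne]
      congr 2
      exact Nat.mul_comm _ _
    have h9 : D.R 1 x (P ^ e) * (e * P ^ (e - 1)) - K =
        (D.R 1 x (P ^ e) - D.M * D.a * (P ^ e) ^ (D.M - 1)) * (e * P ^ (e - 1)) +
          e * D.M * D.a * (P ^ n - A ^ n) := by
      rw [hK, ← h8]
      ring
    -- first term
    have h10 : ‖(D.R 1 x (P ^ e) - D.M * D.a * (P ^ e) ^ (D.M - 1)) * (e * P ^ (e - 1))‖ *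
        ‖P ^ e‖ ≤ C1 * e * ‖P‖ ^ n := by
      have h11 : ‖(e : ℂ) * P ^ (e - 1)‖ = e * ‖P‖ ^ (e - 1) := by
        simp [norm_mul, norm_pow]
      rw [norm_mul, h11]
      have h12 : ‖P‖ ^ n = ‖P ^ e‖ ^ (D.M - 1) * ‖P‖ ^ (e - 1) := by
        rw [← norm_pow P n, ← h8, norm_mul, norm_pow (P ^ e) (D.M - 1), norm_pow P (e - 1)]
      rw [h12]
      have h13 : 0 ≤ (e : ℝ) * ‖P‖ ^ (e - 1) := by positivity
      have h14 := mul_le_mul_of_nonneg_right h6 h13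
      nlinarith
    have h15 : ‖P‖ ^ n ≤ 2 ^ n * ‖A‖ ^ n := by
      rw [← mul_pow]
      exact pow_le_pow_left₀ hPpos.le h4 _
    have h16 : ρ / 2 ≤ ‖P ^ e‖ := by rw [norm_pow]; linarith
    have hAn : 0 < ‖A‖ ^ n := pow_pos hApos _
    have h17 : ‖(D.R 1 x (P ^ e) - D.M * D.a * (P ^ e) ^ (D.M - 1)) * (e * P ^ (e - 1))‖ ≤
        1 / 4 * ‖K‖ := by
      have h18 : ‖(D.R 1 x (P ^ e) - D.M * D.a * (P ^ e) ^ (D.M - 1)) * (e * P ^ (e - 1))‖ *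
          (ρ / 2) ≤ C1 * e * (2 ^ n * ‖A‖ ^ n) :=
        (mul_le_mul_of_nonneg_left h16 (norm_nonneg _)).trans
          (h10.trans (mul_le_mul_of_nonneg_left h15 (by positivity)))
      have h19 : C1 * e * (2 ^ n * ‖A‖ ^ n) ≤ 1 / 4 * ‖K‖ * (ρ / 2) := by
        rw [hKn]
        have h20 : 4 * C1 * 2 ^ n * (e * ‖A‖ ^ n) ≤ ‖D.a‖ * (ρ / 2) * (e * ‖A‖ ^ n) :=
          mul_le_mul_of_nonneg_right hρ3 (by positivity)
        have h21 : ‖D.a‖ * (ρ / 2) * (e * ‖A‖ ^ n) ≤ ‖D.a‖ * (ρ / 2) * (e * ‖A‖ ^ n) * D.M := by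
          have : 0 ≤ ‖D.a‖ * (ρ / 2) * (e * ‖A‖ ^ n) := by positivity
          nlinarith
        nlinarith
      exact le_of_mul_le_mul_right (h18.trans h19) (by linarith)
    have h22 : ‖(e : ℂ) * D.M * D.a * (P ^ n - A ^ n)‖ ≤ 1 / 4 * ‖K‖ := by
      have h23 : ‖(e : ℂ) * D.M * D.a * (P ^ n - A ^ n)‖ =
          e * D.M * ‖D.a‖ * ‖P ^ n - A ^ n‖ := by
        simp [norm_mul]
      rw [h23, hKn]
      have h24 : ‖P ^ n - A ^ n‖ ≤ 1 / 4 * ‖A‖ ^ n :=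
        h7.trans (mul_le_mul_of_nonneg_right hδ3 hAn.le)
      have h25 : 0 ≤ (e : ℝ) * D.M * ‖D.a‖ := by positivity
      have h26 := mul_le_mul_of_nonneg_left h24 h25
      nlinarith
    rw [h9]
    refine (norm_add_le _ _).trans ?_
    linarith
  have hmv := Convex.norm_image_sub_le_of_norm_hasDerivWithin_le hder hbd
    (convex_closedBall A (δ * ‖A‖))
    (Metric.mem_closedBall_self (by positivity))
    (show B ∈ Metric.closedBall A (δ * ‖A‖) by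
      rw [Metric.mem_closedBall, dist_eq_norm]
      exact hB)
  have h30 : D.R 0 x (B ^ e) - K * B - (D.R 0 x (A ^ e) - K * A) = -(K * (B - A)) := by
    rw [hR]
    ring
  rw [h30, norm_neg, norm_mul] at hmv
  have h31 : ‖B - A‖ = 0 := by
    by_contra hcon
    have h32 : 0 < ‖B - A‖ := lt_of_le_of_ne (norm_nonneg _) (Ne.symm hcon)
    nlinarith [mul_pos hKpos h32]
  rw [norm_eq_zero, sub_eq_zero] at h31
  exact h31.symm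

end PD

end Pool.W4b1b5d.SH
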