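import Pool.Agent.W_4b1b5d_h66.SHAsyA

set_option autoImplicit false

namespace Pool.W4b1b5d.SH

open Pool.W4b1b5d.H3 Polynomial Set

namespace PD

/-- TASK SHStrip (3).  For `|v|` large, continuation of a solution along `x + t k` (`k ∈ ℤ^2`) closes
up.  Proof.  `q t = γ t / γ 0` satisfies `‖q t ^ (eM) - 1‖ ≤ 3ε` by `asym_root`; `root_path` for the
polynomial `X^(eM) - 1` gives `‖q 1 - 1‖ ≤ 2 e M (3ε)^(1/(eM)) ≤ δ`; `asym_inj` and `R_per` give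
`γ 1 = γ 0`. -/
theorem loop_close (D : PD) (e : ℕ) (he : 1 ≤ e) : ∃ ρ : ℝ, 0 < ρ ∧ ∀ (x : V2) (k : Fin 2 → ℤ)
    (v : ℂ) (γ : ℝ → ℂ), ρ ≤ ‖v‖ → ContinuousOn γ (Icc 0 1) →
    (∀ t ∈ Icc (0 : ℝ) 1, D.l (x + t • fun i => (k i : ℝ)) ≤ ‖γ t‖ ^ e ∧
      D.R 0 (x + t • fun i => (k i : ℝ)) (γ t ^ e) = v) → γ 1 = γ 0 := by
  obtain ⟨ρ₁, δ₁, hρ₁, hδ₁, hinj⟩ := asym_inj D e he
  obtain ⟨n, hn⟩ : ∃ n, n = e * D.M := ⟨_, rfl⟩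
  have hn1 : 0 < n := hn ▸ Nat.mul_pos he D.hM
  have hn0 : (0 : ℝ) < n := by exact_mod_cast hn1
  obtain ⟨δ, hδ⟩ : ∃ δ : ℝ, δ = δ₁ / (2 * n) := ⟨_, rfl⟩
  have hδ0 : 0 < δ := by
    rw [hδ]
    positivity
  obtain ⟨ε, hε⟩ : ∃ ε : ℝ, ε = min (1 / 3) (δ ^ n / 3) := ⟨_, rfl⟩
  have hε0 : 0 < ε := by
    rw [hε]
    exact lt_min (by norm_num) (by positivity)
  have hε1 : ε ≤ 1 / 3 := hε ▸ min_le_left _ _
  have hε2 : 3 * ε ≤ δ ^ n := by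
    have : ε ≤ δ ^ n / 3 := hε ▸ min_le_right _ _
    linarith
  obtain ⟨ρ, hρ, hroot⟩ := asym_root D e he ε ρ₁ hε0
  refine ⟨ρ, hρ, fun x k v γ hv hγ h => ?_⟩
  have hv0 : v ≠ 0 := by
    rintro rfl
    rw [norm_zero] at hv
    linarith
  have hall : ∀ t ∈ Icc (0 : ℝ) 1, ρ₁ ≤ ‖γ t‖ ∧ ‖D.a * γ t ^ n / v - 1‖ ≤ ε := by
    intro t ht
    rw [hn]
    exact hroot _ _ _ hv (h t ht).1 (h t ht).2
  have h00 : (0 : ℝ) ∈ Icc (0 : ℝ) 1 := ⟨le_rfl, zero_le_one⟩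
  have h11 : (1 : ℝ) ∈ Icc (0 : ℝ) 1 := ⟨zero_le_one, le_rfl⟩
  obtain ⟨hg0, hz0⟩ := hall 0 h00
  have hγ0 : γ 0 ≠ 0 := by
    intro h0
    rw [h0, norm_zero] at hg0
    linarith
  have hq : ∀ t ∈ Icc (0 : ℝ) 1, ‖(γ t / γ 0) ^ n - 1‖ ≤ δ ^ n := by
    intro t ht
    obtain ⟨_, hzt⟩ := hall t ht
    have hw0 : D.a * γ 0 ^ n / v ≠ 0 :=
      div_ne_zero (mul_ne_zero D.ha (pow_ne_zero _ hγ0)) hv0
    have e1 : (γ t / γ 0) ^ n = (D.a * γ t ^ n / v) / (D.a * γ 0 ^ n / v) := by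
      have h1 := D.ha
      have h2 : γ 0 ^ n ≠ 0 := pow_ne_zero _ hγ0
      rw [div_pow]
      field_simp
    have e2 : (γ t / γ 0) ^ n - 1 =
        ((D.a * γ t ^ n / v - 1) - (D.a * γ 0 ^ n / v - 1)) / (D.a * γ 0 ^ n / v) := by
      rw [e1, sub_sub_sub_cancel_right, sub_div, div_self hw0]
    have e3 : 2 / 3 ≤ ‖D.a * γ 0 ^ n / v‖ := by
      have h1 : ‖(1 : ℂ)‖ ≤ ‖D.a * γ 0 ^ n / v‖ + ‖D.a * γ 0 ^ n / v - 1‖ := by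
        have h2 : (1 : ℂ) = D.a * γ 0 ^ n / v - (D.a * γ 0 ^ n / v - 1) := by ring
        calc ‖(1 : ℂ)‖ = ‖D.a * γ 0 ^ n / v - (D.a * γ 0 ^ n / v - 1)‖ := by rw [← h2]
          _ ≤ _ := norm_sub_le _ _
      rw [norm_one] at h1
      linarith
    rw [e2, norm_div, div_le_iff₀ (by linarith)]
    have h3 := (norm_sub_le (D.a * γ t ^ n / v - 1) (D.a * γ 0 ^ n / v - 1))
    have h4 : 0 ≤ δ ^ n := by positivity
    have h5 : δ ^ n * (2 / 3) ≤ δ ^ n * ‖D.a * γ 0 ^ n / v‖ := mul_le_mul_of_nonneg_left e3 h4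
    linarith
  have hdeg : (X ^ n - C (1 : ℂ)).natDegree = n := natDegree_X_pow_sub_C
  have hlead : (X ^ n - C (1 : ℂ)).leadingCoeff = 1 := leadingCoeff_X_pow_sub_C hn1
  have hpath := root_path (X ^ n - C (1 : ℂ)) (by rw [hdeg]; exact hn1)
    (γ := fun t => γ t / γ 0) (hγ.div_const _) hδ0.le (fun t ht => by
      rw [hdeg, hlead, norm_one, one_mul, eval_sub, eval_pow, eval_X, eval_C]
      exact hq t ht)
  rw [hdeg] at hpath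
  beta_reduce at hpath
  rw [div_self hγ0] at hpath
  have e4 : 2 * (n : ℝ) * δ = δ₁ := by
    rw [hδ]
    field_simp
  rw [e4] at hpath
  have e5 : γ 1 - γ 0 = (γ 1 / γ 0 - 1) * γ 0 := by
    field_simp
  have h5 : ‖γ 1 - γ 0‖ ≤ δ₁ * ‖γ 0‖ := by
    rw [e5, norm_mul]
    exact mul_le_mul_of_nonneg_right hpath (norm_nonneg _)
  have h6 := (h 0 h00).2
  rw [zero_smul, add_zero] at h6
  have h7 := (h 1 h11).2
  rw [one_smul] at h7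
  have h8 := R_per D 0 (γ 1 ^ e) x k
  beta_reduce at h8
  rw [h8] at h7
  exact (hinj x (γ 0) (γ 1) hg0 h5 (h6.trans h7.symm)).symm

end PD

end Pool.W4b1b5d.SH
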