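import Pool.Agent.W_4b1b5d_h66.SHDefs
import Pool.Agent.W_4b1b5d_h3.Branch
import Pool.Agent.W_4b1b5d_h3.Grow
import Pool.Agent.W_4b1b5d_h3.BetaA

set_option autoImplicit false

namespace Pool.W4b1b5d.SH

open Pool.W4b1b5d.H3 Polynomial Set

namespace PD

theorem SHBasA_fall0 (s : ℤ) : fall s 0 = 1 := by
  unfold fall
  rw [Finset.prod_range_zero]

theorem SHBasA_fall1 (s : ℤ) : fall s 1 = s := by
  unfold fall
  rw [Finset.prod_range_one]
  simp

theorem SHBasA_deg (M : ℕ) (b : ℕ → ℂ) (h : b (2 * M) ≠ 0) :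
    (∑ j ∈ Finset.range (2 * M + 1), Polynomial.C (b j) * Polynomial.X ^ j).natDegree = 2 * M ∧
    (∑ j ∈ Finset.range (2 * M + 1), Polynomial.C (b j) * Polynomial.X ^ j).leadingCoeff =
      b (2 * M) := by
  have hc : (∑ j ∈ Finset.range (2 * M + 1), Polynomial.C (b j) * Polynomial.X ^ j).coeff (2 * M)
      = b (2 * M) := by
    rw [Polynomial.finsetSum_coeff]
    simp only [Polynomial.coeff_C_mul_X_pow]
    rw [Finset.sum_ite_eq]
    simp
  have hd : (∑ j ∈ Finset.range (2 * M + 1), Polynomial.C (b j) * Polynomial.X ^ j).natDegree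
      = 2 * M := by
    apply Polynomial.natDegree_eq_of_le_of_coeff_ne_zero
    · apply Polynomial.natDegree_sum_le_of_forall_le
      intro j hj
      rw [Finset.mem_range] at hj
      exact (Polynomial.natDegree_C_mul_X_pow_le _ _).trans (by omega)
    · rw [hc]
      exact h
  refine ⟨hd, ?_⟩
  rw [Polynomial.leadingCoeff, hd, hc]

/-- TASK SHBasic (1). -/
theorem R_pol (D : PD) (x : V2) {Y : ℂ} (hY : Y ≠ 0) :
    D.R 0 x Y * Y ^ D.M = (D.pol x).eval Y := by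
  unfold R LB Lk pol
  rw [Finset.sum_mul, Polynomial.eval_finsetSum]
  refine Finset.sum_congr rfl fun j _ => ?_
  rw [SHBasA_fall0, Polynomial.eval_mul, Polynomial.eval_C, Polynomial.eval_pow,
    Polynomial.eval_X, mul_one, mul_assoc]
  congr 1
  rw [← zpow_natCast Y D.M, ← zpow_add₀ hY, ← zpow_natCast Y j]
  congr 1
  push_cast
  ring

/-- TASK SHBasic (2). -/
theorem R_dpol (D : PD) (x : V2) {Y : ℂ} (hY : Y ≠ 0) :
    D.R 1 x Y * Y ^ (D.M + 1) = (D.dpol x).eval Y := by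
  unfold R LB Lk dpol
  rw [Finset.sum_mul, Polynomial.eval_finsetSum]
  refine Finset.sum_congr rfl fun j _ => ?_
  rw [SHBasA_fall1, Polynomial.eval_mul, Polynomial.eval_C, Polynomial.eval_pow,
    Polynomial.eval_X, mul_assoc]
  have h : Y ^ ((j : ℤ) - D.M - ((1 : ℕ) : ℤ)) * Y ^ (D.M + 1) = Y ^ j := by
    rw [← zpow_natCast Y (D.M + 1), ← zpow_add₀ hY, ← zpow_natCast Y j]
    congr 1
    push_cast
    ring
  rw [h]
  push_cast
  ring

/-- TASK SHBasic (3). -/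
theorem pol_deg (D : PD) (x : V2) :
    (D.pol x).natDegree = 2 * D.M ∧ (D.pol x).leadingCoeff = D.a := by
  have h := D.top x
  have h1 : D.B (((2 * D.M : ℕ) : ℤ) - D.M) x = D.a := by
    rw [← h]
    congr 1
    push_cast
    ring
  have h2 := SHBasA_deg D.M (fun j => D.B ((j : ℤ) - D.M) x) (by rw [h1]; exact D.ha)
  rw [h1] at h2
  exact h2

/-- TASK SHBasic (4). -/
theorem dpol_deg (D : PD) (x : V2) :
    (D.dpol x).natDegree = 2 * D.M ∧ (D.dpol x).leadingCoeff = D.M * D.a := by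
  have h := D.top x
  have h1 : (((2 * D.M : ℕ) : ℂ) - D.M) * D.B (((2 * D.M : ℕ) : ℤ) - D.M) x = D.M * D.a := by
    rw [← h]
    have h3 : (((2 * D.M : ℕ) : ℤ) - D.M) = D.M := by
      push_cast
      ring
    rw [h3]
    push_cast
    ring
  have hM : (D.M : ℂ) ≠ 0 := by
    have := D.hM
    exact_mod_cast (by omega : D.M ≠ 0)
  have h2 := SHBasA_deg D.M (fun j => ((j : ℂ) - D.M) * D.B ((j : ℤ) - D.M) x)
    (by rw [h1]; exact mul_ne_zero hM D.ha)
  rw [h1] at h2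
  exact h2

/-- TASK SHBasic (5).  `B (-k) = l^(2k) conj (B k)` and its conjugate. -/
theorem R_symm (D : PD) (x : V2) {Y : ℂ} (hY : Y ≠ 0) :
    D.R 0 x ((D.l x : ℂ) ^ 2 / (starRingEnd ℂ) Y) = (starRingEnd ℂ) (D.R 0 x Y) := by
  have hcY : (starRingEnd ℂ) Y ≠ 0 := (_root_.map_ne_zero _).2 hY
  have hl : (D.l x : ℂ) ≠ 0 := by
    rw [Ne, Complex.ofReal_eq_zero]
    exact (D.lpos x).ne'
  have hB : ∀ k : ℤ, D.B (-k) x = ((D.l x : ℂ) ^ 2) ^ k * (starRingEnd ℂ) (D.B k x) := by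
    intro k
    obtain ⟨m, rfl | rfl⟩ := k.eq_nat_or_neg
    · rw [D.neg, zpow_natCast, pow_mul]
    · rw [D.neg, neg_neg, zpow_neg, zpow_natCast, map_mul, map_pow, Complex.conj_ofReal,
        Complex.conj_conj, pow_mul, ← mul_assoc, inv_mul_cancel₀ (pow_ne_zero _ (pow_ne_zero _ hl)),
        one_mul]
  unfold R LB Lk
  rw [← Finset.sum_range_reflect, map_sum]
  refine Finset.sum_congr rfl fun j hj => ?_
  rw [Finset.mem_range] at hj
  rw [SHBasA_fall0, SHBasA_fall0, mul_one, mul_one, map_mul, map_zpow₀]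
  have h1 : ((2 * D.M + 1 - 1 - j : ℕ) : ℤ) - D.M = -((j : ℤ) - D.M) := by
    rw [Nat.cast_sub (by omega)]
    push_cast
    ring
  have h2 : ((2 * D.M + 1 - 1 - j : ℕ) : ℤ) - D.M - ((0 : ℕ) : ℤ) = -((j : ℤ) - D.M) := by
    rw [h1]
    simp
  have h3 : (j : ℤ) - D.M - ((0 : ℕ) : ℤ) = (j : ℤ) - D.M := by simp
  show D.B (((2 * D.M + 1 - 1 - j : ℕ) : ℤ) - D.M) x * _ = (starRingEnd ℂ) (D.B ((j : ℤ) - D.M) x) * _
  rw [h2, h1, h3, hB, div_zpow, zpow_neg, zpow_neg]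
  have h4 : ((D.l x : ℂ) ^ 2) ^ ((j : ℤ) - D.M) ≠ 0 := zpow_ne_zero _ (pow_ne_zero _ hl)
  have h5 : ((starRingEnd ℂ) Y) ^ ((j : ℤ) - D.M) ≠ 0 := zpow_ne_zero _ hcY
  field_simp

/-- TASK SHBasic (6).  On the circle `Y = l^2 / conj Y`. -/
theorem R_real (D : PD) (x : V2) {Y : ℂ} (hY : ‖Y‖ = D.l x) : (D.R 0 x Y).im = 0 := by
  have hY0 : Y ≠ 0 := by
    rw [← norm_ne_zero_iff, hY]
    exact (D.lpos x).ne'
  have hcY : (starRingEnd ℂ) Y ≠ 0 := (_root_.map_ne_zero _).2 hY0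
  have h1 : Y * (starRingEnd ℂ) Y = (D.l x : ℂ) ^ 2 := by
    rw [Complex.mul_conj, Complex.normSq_eq_norm_sq, hY]
    push_cast
    ring
  have h2 := R_symm D x hY0
  rw [← h1, mul_div_assoc, div_self hcY, mul_one] at h2
  exact Complex.conj_eq_iff_im.1 h2.symm

end PD

end Pool.W4b1b5d.SH
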