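import Pool.Agent.W_4b1b5d_h66.SHBasic
import Pool.Agent.W_4b1b5d_h66.SHPoly

set_option autoImplicit false

namespace Pool.W4b1b5d.SH

open Pool.W4b1b5d.H3 Polynomial Set

namespace PD

/-- TASK SHCrit (3).  Existence of a nearby critical point: `near_root` for `dpol x` at `Y0`, whose
value tends to `0` for `x → x0`. -/
theorem crit_near (D : PD) (x0 : V2) (Y0 : ℂ) (h : D.l x0 < ‖Y0‖) (h1 : D.R 1 x0 Y0 = 0) (ε : ℝ)
    (hε : 0 < ε) : ∃ δ : ℝ, 0 < δ ∧ ∀ x : V2, ‖x - x0‖ < δ → ∃ Y : ℂ, ‖Y - Y0‖ < ε ∧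
      D.l x < ‖Y‖ ∧ D.R 1 x Y = 0 := by
  have hl0 : 0 < D.l x0 := D.lpos x0
  have hY0 : Y0 ≠ 0 := by
    rw [← norm_pos_iff]
    linarith
  have hM : 0 < D.M := D.hM
  have hg : 0 < ‖Y0‖ - D.l x0 := by linarith
  obtain ⟨ε', hε'⟩ : ∃ ε' : ℝ, ε' = min ε ((‖Y0‖ - D.l x0) / 2) := ⟨_, rfl⟩
  have hε'0 : 0 < ε' := by
    rw [hε']
    exact lt_min hε (by linarith)
  have hε'1 : ε' ≤ ε := by rw [hε']; exact min_le_left _ _
  have hε'2 : ε' ≤ (‖Y0‖ - D.l x0) / 2 := by rw [hε']; exact min_le_right _ _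
  have hlead : (D.M : ℂ) * D.a ≠ 0 := mul_ne_zero (by exact_mod_cast hM.ne') D.ha
  have hB : 0 < ‖(D.M : ℂ) * D.a‖ * ε' ^ (2 * D.M) :=
    mul_pos (norm_pos_iff.mpr hlead) (pow_pos hε'0 _)
  have hc1 : ContinuousAt (fun x : V2 => D.R 1 x Y0 * Y0 ^ (D.M + 1)) x0 := by
    have h2 : ContinuousAt (fun z : V2 × ℂ => D.R 1 z.1 z.2) (x0, Y0) :=
      (D.R_smooth 1 (z := (x0, Y0)) hY0).continuousAt
    have h3 : ContinuousAt (fun x : V2 => (x, Y0)) x0 := by fun_prop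
    have h4 : ContinuousAt (fun x : V2 => D.R 1 x Y0) x0 :=
      ContinuousAt.comp (f := fun x : V2 => (x, Y0)) (g := fun z : V2 × ℂ => D.R 1 z.1 z.2) h2 h3
    exact h4.mul continuousAt_const
  have hc2 : ContinuousAt D.l x0 := D.lsm.continuous.continuousAt
  rw [Metric.continuousAt_iff] at hc1 hc2
  obtain ⟨δ1, hδ1, H1⟩ := hc1 _ hB
  obtain ⟨δ2, hδ2, H2⟩ := hc2 ((‖Y0‖ - D.l x0) / 2) (by linarith)
  refine ⟨min δ1 δ2, lt_min hδ1 hδ2, fun x hx => ?_⟩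
  have hx1 := H1 (x := x) (by rw [dist_eq_norm]; exact lt_of_lt_of_le hx (min_le_left _ _))
  have hx2 := H2 (x := x) (by rw [dist_eq_norm]; exact lt_of_lt_of_le hx (min_le_right _ _))
  rw [h1, zero_mul, dist_zero_right, D.R_dpol x hY0] at hx1
  rw [Real.dist_eq] at hx2
  obtain ⟨hdeg, hlc⟩ := D.dpol_deg x
  obtain ⟨c, hc, hcn, -⟩ := near_root (D.dpol x) (by rw [hdeg]; omega) Y0
  rw [hdeg, hlc] at hcn
  have hpow : ‖Y0 - c‖ ^ (2 * D.M) < ε' ^ (2 * D.M) :=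
    lt_of_mul_lt_mul_left (lt_of_le_of_lt hcn hx1) (norm_nonneg _)
  have hd : ‖Y0 - c‖ < ε' := lt_of_pow_lt_pow_left₀ _ hε'0.le hpow
  have hcl : D.l x < ‖c‖ := by
    have h5 : ‖Y0‖ - ‖c‖ ≤ ‖Y0 - c‖ := norm_sub_norm_le _ _
    have h6 := (abs_lt.mp hx2).2
    linarith
  have hc0 : c ≠ 0 := by
    rw [← norm_pos_iff]
    exact (D.lpos x).trans hcl
  refine ⟨c, ?_, hcl, ?_⟩
  · rw [norm_sub_rev]
    exact lt_of_lt_of_le hd hε'1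
  · have h7 := D.R_dpol x hc0
    rw [show (D.dpol x).eval c = 0 from hc] at h7
    exact (mul_eq_zero.mp h7).resolve_right (pow_ne_zero _ hc0)

end PD

end Pool.W4b1b5d.SH
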