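import Pool.Agent.W_4b1b5d_h66.SHCritB
import Pool.Agent.W_4b1b5d_h66.SHCritC

set_option autoImplicit false

namespace Pool.W4b1b5d.SH

open Pool.W4b1b5d.H3 Polynomial Set

namespace PD

theorem SHCrit_cont (D : PD) (k : ℕ) {z : V2 × ℂ} (hz : z.2 ≠ 0) :
    ContinuousAt (fun z : V2 × ℂ => D.R k z.1 z.2) z := (D.R_smooth k hz).continuousAt

/-- Set of the definition. -/
def SHCrit_X (D : PD) (v : ℂ) : Set V2 :=
  {x | ∃ Y : ℂ, D.l x < ‖Y‖ ∧ D.R 1 x Y = 0 ∧ D.R 0 x Y = v}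

theorem SHCrit_open (D : PD) (v : ℂ) : IsOpen (SHCrit_X D v) := by
  rw [Metric.isOpen_iff]
  rintro x0 ⟨Y0, h, h1, h2⟩
  obtain ⟨ε, hε, hc⟩ := crit_const D x0 Y0 h h1
  obtain ⟨δ, hδ, hn⟩ := crit_near D x0 Y0 h h1 ε hε
  refine ⟨min ε δ, lt_min hε hδ, ?_⟩
  intro x hx
  rw [Metric.mem_ball, dist_eq_norm] at hx
  obtain ⟨Y, hY1, hY2, hY3⟩ := hn x (lt_of_lt_of_le hx (min_le_right _ _))
  exact ⟨Y, hY2, hY3, (hc x Y (lt_of_lt_of_le hx (min_le_left _ _)) hY1 hY3).trans h2⟩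

theorem SHCrit_closed (D : PD) (v : ℂ) (hv : v.im ≠ 0) : IsClosed (SHCrit_X D v) := by
  rw [← isSeqClosed_iff_isClosed]
  intro x x0 hx hlim
  choose Y hY1 hY2 hY3 using hx
  obtain ⟨C, hC, -, hb⟩ := D.R_bound
  have hYb : ∀ n, Y n ∈ Metric.closedBall (0 : ℂ) C := by
    intro n
    rw [mem_closedBall_zero_iff]
    exact hb _ _ (hY1 n).le (hY2 n)
  obtain ⟨Y0, -, φ, hφ, hY0⟩ := (isCompact_closedBall (0 : ℂ) C).tendsto_subseq hYb
  have hx0 : Filter.Tendsto (x ∘ φ) Filter.atTop (nhds x0) := hlim.comp hφ.tendsto_atTop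
  have hl : Filter.Tendsto (fun n => D.l (x (φ n))) Filter.atTop (nhds (D.l x0)) :=
    (D.lsm.continuous.tendsto x0).comp hx0
  have hle : D.l x0 ≤ ‖Y0‖ :=
    le_of_tendsto_of_tendsto' hl hY0.norm (fun n => (hY1 (φ n)).le)
  have hYne : Y0 ≠ 0 := by
    intro h0
    rw [h0, norm_zero] at hle
    exact absurd (D.lpos x0) (not_lt.2 hle)
  have hz : Filter.Tendsto (fun n => ((x (φ n), Y (φ n)) : V2 × ℂ)) Filter.atTop (nhds (x0, Y0)) :=
    hx0.prodMk_nhds hY0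
  have hR : ∀ k, Filter.Tendsto (fun n => D.R k (x (φ n)) (Y (φ n))) Filter.atTop
      (nhds (D.R k x0 Y0)) := by
    intro k
    have hg : Filter.Tendsto (fun z : V2 × ℂ => D.R k z.1 z.2) (nhds (x0, Y0))
        (nhds (D.R k x0 Y0)) := D.SHCrit_cont k (z := (x0, Y0)) hYne
    have hcomp := Filter.Tendsto.comp hg hz
    rw [Function.comp_def] at hcomp
    exact hcomp
  have h1 : D.R 1 x0 Y0 = 0 := by
    refine tendsto_nhds_unique (hR 1) ?_
    simp only [hY2]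
    exact tendsto_const_nhds
  have h0 : D.R 0 x0 Y0 = v := by
    refine tendsto_nhds_unique (hR 0) ?_
    simp only [hY3]
    exact tendsto_const_nhds
  refine ⟨Y0, lt_of_le_of_ne hle ?_, h1, h0⟩
  intro h
  apply hv
  rw [← h0]
  exact D.R_real x0 h.symm

/-- TASK SHCrit (4).  A nonreal critical value outside of the circle is a critical value outside of
the circle for every `x`.

Proof.  Fix `v` nonreal.  `X = {x | ∃ Y, l x < ‖Y‖ ∧ R 1 x Y = 0 ∧ R 0 x Y = v}` is open by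
`crit_near` and `crit_const`, and closed: if `x_n → x`, `Y_n` as in the definition, `‖Y_n‖ ≤ C`
(`R_bound`), so a subsequence converges to `Y` with `l x ≤ ‖Y‖`, `R 1 x Y = 0`, `R 0 x Y = v`, and
`‖Y‖ ≠ l x` by `R_real`.  `V2` is connected, so `0 ∈ X` if `X` is not empty. -/
theorem CV_all (D : PD) (x : V2) (Y : ℂ) (h : D.l x < ‖Y‖) (h1 : D.R 1 x Y = 0)
    (h2 : (D.R 0 x Y).im ≠ 0) : D.R 0 x Y ∈ D.CV := by
  refine ⟨h2, ?_⟩
  have hu : SHCrit_X D (D.R 0 x Y) = univ :=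
    IsClopen.eq_univ ⟨SHCrit_closed D _ h2, SHCrit_open D _⟩ ⟨x, Y, h, h1, rfl⟩
  have h0 : (0 : V2) ∈ SHCrit_X D (D.R 0 x Y) := by
    rw [hu]; exact mem_univ _
  exact h0

/-- TASK SHCrit (5).  Image of the finite set of roots of `dpol 0`. -/
theorem CV_finite (D : PD) : D.CV.Finite := by
  have hne : D.dpol 0 ≠ 0 := by
    intro h0
    have h1 := (D.dpol_deg 0).2
    rw [h0, leadingCoeff_zero] at h1
    have h2 : (D.M : ℂ) * D.a ≠ 0 := by
      refine mul_ne_zero ?_ D.ha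
      exact_mod_cast (Nat.one_le_iff_ne_zero.1 D.hM)
    exact h2 h1.symm
  refine Set.Finite.subset (((D.dpol 0).roots.toFinset.finite_toSet).image (fun Y => D.R 0 0 Y)) ?_
  rintro v ⟨-, Y, hY1, hY2, rfl⟩
  have hY0 : Y ≠ 0 := by
    intro h0
    rw [h0, norm_zero] at hY1
    exact absurd (D.lpos 0) (not_lt.2 hY1.le)
  refine ⟨Y, ?_, rfl⟩
  rw [Finset.mem_coe, Multiset.mem_toFinset, mem_roots hne, IsRoot.def, ← D.R_dpol 0 hY0, hY2,
    zero_mul]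

/-- TASK SHCrit (6).  The critical set `{(x,Y) | l x < ‖Y‖, R 1 x Y = 0}` is second countable, so it
is covered by countably many of the neighbourhoods of `crit_const`
(`TopologicalSpace.isOpen_iUnion_countable` or `TopologicalSpace.countable_cover_nhds`...). -/
theorem CR_countable (D : PD) : D.CR.Countable := by
  set S : Set (V2 × ℂ) := {z | D.l z.1 < ‖z.2‖ ∧ D.R 1 z.1 z.2 = 0} with hS
  have hU : ∀ z ∈ S, ∃ U ∈ nhds z, ∀ z' ∈ U, z' ∈ S → D.R 0 z'.1 z'.2 = D.R 0 z.1 z.2 := by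
    rintro ⟨x0, Y0⟩ ⟨h, h1⟩
    obtain ⟨ε, hε, hc⟩ := crit_const D x0 Y0 h h1
    refine ⟨Metric.ball x0 ε ×ˢ Metric.ball Y0 ε, prod_mem_nhds (Metric.ball_mem_nhds _ hε)
      (Metric.ball_mem_nhds _ hε), ?_⟩
    rintro ⟨x, Y⟩ ⟨hx, hY⟩ ⟨-, h2⟩
    rw [Metric.mem_ball, dist_eq_norm] at hx hY
    exact hc x Y hx hY h2
  choose! f hf1 hf2 using hU
  obtain ⟨t, hts, htc, hcov⟩ := TopologicalSpace.countable_cover_nhdsWithin
    (fun z hz => mem_nhdsWithin_of_mem_nhds (hf1 z hz) : ∀ z ∈ S, f z ∈ nhdsWithin z S)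
  refine (htc.image (fun z : V2 × ℂ => (D.R 0 z.1 z.2).re)).mono ?_
  rintro w ⟨x, Y, h, h1, h2⟩
  have hz : ((x, Y) : V2 × ℂ) ∈ S := ⟨h, h1⟩
  have := hcov hz
  rw [mem_iUnion₂] at this
  obtain ⟨z, hzt, hzf⟩ := this
  refine ⟨z, hzt, ?_⟩
  have h3 := hf2 z (hts hzt) _ hzf hz
  show (D.R 0 z.1 z.2).re = w
  rw [← h3]
  show (D.R 0 x Y).re = w
  rw [h2, Complex.ofReal_re]

/-- TASK SHCrit (7). -/
theorem H_open (D : PD) : IsOpen D.H := by
  have h1 : IsOpen {v : ℂ | v.im ≠ 0} := isOpen_ne_fun Complex.continuous_im continuous_const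
  have h2 : IsOpen (D.CVᶜ) := (D.CV_finite.isClosed).isOpen_compl
  exact h1.inter h2

/-- TASK SHCrit (8).  `D.CV` is finite, its points are not real. -/
theorem exists_tau (D : PD) : ∃ τ : ℝ, 0 < τ ∧ ∀ v : ℂ, 0 < |v.im| → |v.im| < τ → v ∈ D.H := by
  have key : ∀ s : Finset ℂ, (∀ v ∈ s, v.im ≠ 0) → ∃ τ : ℝ, 0 < τ ∧ ∀ v ∈ s, τ ≤ |v.im| := by
    intro s
    induction s using Finset.induction_on with
    | empty => intro _; exact ⟨1, one_pos, by simp⟩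
    | insert a s _ ih =>
      intro h
      obtain ⟨τ, hτ, h1⟩ := ih (fun v hv => h v (Finset.mem_insert_of_mem hv))
      refine ⟨min τ |a.im|, lt_min hτ (abs_pos.2 (h a (Finset.mem_insert_self _ _))), ?_⟩
      intro v hv
      rcases Finset.mem_insert.1 hv with rfl | hv
      · exact min_le_right _ _
      · exact (min_le_left _ _).trans (h1 v hv)
  obtain ⟨τ, hτ, h1⟩ := key D.CV_finite.toFinset (fun v hv => (D.CV_finite.mem_toFinset.1 hv).1)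
  refine ⟨τ, hτ, fun v hv hv' => ⟨abs_pos.1 hv, fun hmem => ?_⟩⟩
  exact absurd (h1 v (D.CV_finite.mem_toFinset.2 hmem)) (not_le.2 hv')

end PD

end Pool.W4b1b5d.SH
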