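import Pool.Agent.W_4b1b5d_h66.SHLoc
import Pool.Agent.W_4b1b5d_h66.SHCrit

set_option autoImplicit false

namespace Pool.W4b1b5d.SH

open Pool.W4b1b5d.H3 Polynomial Set

namespace PD

/-- The covering map between the subtypes. -/
noncomputable def p (D : PD) (e : ℕ) (z : D.E e) : V2 × D.H :=
  (z.1.1, ⟨D.R 0 z.1.1 (z.1.2 ^ e), z.2.2⟩)

/-- TASK SHCov (1).  On `E` the derivative `R 1` does not vanish (`CV_all`). -/
theorem E_R1 (D : PD) (e : ℕ) (z : V2 × ℂ) (hz : z ∈ D.E e) : D.R 1 z.1 (z.2 ^ e) ≠ 0 := by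
  intro h1
  have h2 : D.l z.1 < ‖z.2 ^ e‖ := by
    rw [norm_pow]
    exact hz.1
  exact hz.2.2 (D.CV_all z.1 (z.2 ^ e) h2 h1 hz.2.1)

theorem SHCovA_ne (D : PD) (e : ℕ) {z : V2 × ℂ} (hz : D.l z.1 ≤ ‖z.2‖ ^ e) : z.2 ^ e ≠ 0 := by
  rw [← norm_pos_iff, norm_pow]
  exact (D.lpos z.1).trans_le hz

theorem SHCovA_comp {f : V2 × ℂ → ℂ} {e : ℕ} {z : V2 × ℂ} (h : ContinuousAt f (z.1, z.2 ^ e)) :
    ContinuousAt (fun z : V2 × ℂ => f (z.1, z.2 ^ e)) z := by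
  have h2 : ContinuousAt (fun z : V2 × ℂ => (z.1, z.2 ^ e)) z := by fun_prop
  exact ContinuousAt.comp (f := fun z : V2 × ℂ => (z.1, z.2 ^ e)) h h2

theorem SHCovA_cont (D : PD) (e : ℕ) {z : V2 × ℂ} (hz : D.l z.1 ≤ ‖z.2‖ ^ e) :
    ContinuousAt (fun z : V2 × ℂ => D.R 0 z.1 (z.2 ^ e)) z := by
  have h1 : ContinuousAt (fun w : V2 × ℂ => D.R 0 w.1 w.2) (z.1, z.2 ^ e) :=
    (D.R_smooth 0 (D.SHCovA_ne e hz)).continuousAt
  exact SHCovA_comp h1

/-- TASK SHCov (2). -/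
theorem p_cont (D : PD) (e : ℕ) (he : 1 ≤ e) : Continuous (D.p e) := by
  have h1 : Continuous fun z : D.E e => D.R 0 z.1.1 (z.1.2 ^ e) := by
    refine continuous_iff_continuousAt.2 fun z => ?_
    exact ContinuousAt.comp (f := fun z : D.E e => z.1)
      (g := fun z : V2 × ℂ => D.R 0 z.1 (z.2 ^ e)) (D.SHCovA_cont e z.2.1.le)
      continuous_subtype_val.continuousAt
  exact (continuous_fst.comp continuous_subtype_val).prodMk (h1.subtype_mk _)

/-- TASK SHCov (4).  Finite fibres: `P^e` is a root of `pol x - v X^M`. -/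
theorem p_fin (D : PD) (e : ℕ) (he : 1 ≤ e) (y : V2 × D.H) : (D.p e ⁻¹' {y}).Finite := by
  obtain ⟨x, v, hv⟩ := y
  set q : ℂ[X] := D.pol x - C v * X ^ D.M with hq
  have hM := D.hM
  obtain ⟨hd, hlc⟩ := D.pol_deg x
  have hq0 : q ≠ 0 := by
    intro h
    have h1 : q.coeff (2 * D.M) = D.a := by
      rw [hq, coeff_sub, coeff_C_mul, coeff_X_pow, if_neg (by omega), mul_zero, sub_zero, ← hlc,
        leadingCoeff, hd]
    rw [h, coeff_zero] at h1
    exact D.ha h1.symm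
  set Q : ℂ[X] := q.comp (X ^ e) with hQ
  have hQ0 : Q ≠ 0 := by
    intro h
    rcases comp_eq_zero_iff.1 h with h1 | ⟨-, h2⟩
    · exact hq0 h1
    · have h3 : (X ^ e : ℂ[X]).natDegree = e := natDegree_X_pow e
      rw [h2, natDegree_C] at h3
      omega
  have hfin : {P : ℂ | Q.IsRoot P}.Finite := by
    refine (Q.roots.toFinset.finite_toSet).subset fun P hP => ?_
    rw [Finset.mem_coe, Multiset.mem_toFinset, mem_roots hQ0]
    exact hP
  refine Set.Finite.of_finite_image (f := fun z : D.E e => z.1.2) (hfin.subset ?_) ?_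
  · rintro _ ⟨z, hz, rfl⟩
    have h1 : D.p e z = (x, ⟨v, hv⟩) := hz
    have h2 : z.1.1 = x := congrArg Prod.fst h1
    have h3 : D.R 0 z.1.1 (z.1.2 ^ e) = v := congrArg (fun w : V2 × D.H => (w.2 : ℂ)) h1
    have h4 := D.R_pol z.1.1 (D.SHCovA_ne e z.2.1.le)
    rw [h3, h2] at h4
    change Q.eval z.1.2 = 0
    rw [hQ, eval_comp, eval_pow, eval_X, hq, eval_sub, eval_mul, eval_C, eval_pow, eval_X, ← h4,
      sub_self]
  · intro z hz z' hz' h
    have h1 : D.p e z = (x, ⟨v, hv⟩) := hz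
    have h2 : D.p e z' = (x, ⟨v, hv⟩) := hz'
    have h3 : z.1.1 = x := congrArg Prod.fst h1
    have h4 : z'.1.1 = x := congrArg Prod.fst h2
    exact Subtype.ext (Prod.ext (h3.trans h4.symm) h)

end PD

end Pool.W4b1b5d.SH
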