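import Pool.Agent.W_4b1b5d_h66.SHCovA

set_option autoImplicit false

namespace Pool.W4b1b5d.SH

open Pool.W4b1b5d.H3 Polynomial Set

namespace PD

/-- TASK SHCov (3).  `p` is proper: for compact `K ⊆ V2 × H` the preimage is closed and bounded in
`V2 × ℂ`: `‖P^e‖ ≤ C (1 + ‖v‖)` (`R_bound`), and a limit point has `l x ≤ ‖P‖^e`, where equality is
excluded by `R_real` (the values in `K` are not real).  `isProperMap_iff_isCompact_preimage`. -/
theorem p_proper (D : PD) (e : ℕ) (he : 1 ≤ e) : IsProperMap (D.p e) := by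
  have hlc : LocallyCompactSpace D.H := D.H_open.locallyCompactSpace
  rw [isProperMap_iff_isCompact_preimage]
  refine ⟨D.p_cont e he, fun K hK => ?_⟩
  rw [Subtype.isCompact_iff]
  set K' : Set (V2 × ℂ) := (fun w : V2 × D.H => (w.1, (w.2 : ℂ))) '' K with hK'
  have hK'c : IsCompact K' := hK.image (by fun_prop)
  set S0 : Set (V2 × ℂ) := {w | D.l w.1 ≤ ‖w.2‖ ^ e} with hS0
  have hS0c : IsClosed S0 := by
    refine isClosed_le ?_ ?_
    · exact D.lsm.continuous.comp continuous_fst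
    · fun_prop
  have hS : IsClosed (S0 ∩ (fun w : V2 × ℂ => (w.1, D.R 0 w.1 (w.2 ^ e))) ⁻¹' K') := by
    refine ContinuousOn.preimage_isClosed_of_isClosed ?_ hS0c hK'c.isClosed
    intro w hw
    exact (continuousAt_fst.prodMk (D.SHCovA_cont e hw)).continuousWithinAt
  obtain ⟨C, hC, hR, -⟩ := D.R_bound
  obtain ⟨ρ, hρ⟩ := hK'c.isBounded.exists_norm_le
  have hρ0 : ∀ w ∈ K', 0 ≤ ρ := fun w hw => (norm_nonneg _).trans (hρ w hw)
  have hbd : Bornology.IsBounded (S0 ∩ (fun w : V2 × ℂ => (w.1, D.R 0 w.1 (w.2 ^ e))) ⁻¹' K') := by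
    rw [isBounded_iff_forall_norm_le]
    refine ⟨max ρ (1 + C * (1 + ρ)), fun w hw => ?_⟩
    have h1 : (w.1, D.R 0 w.1 (w.2 ^ e)) ∈ K' := hw.2
    have h2 := hρ _ h1
    have hρn := hρ0 _ h1
    rw [Prod.norm_def] at h2 ⊢
    refine max_le_max ((le_max_left _ _).trans h2) ?_
    have h3 : ‖D.R 0 w.1 (w.2 ^ e)‖ ≤ ρ := (le_max_right _ _).trans h2
    have h4 := hR w.1 (w.2 ^ e) (by rw [norm_pow]; exact hw.1)
    rw [norm_pow] at h4
    have h5 : ‖w.2‖ ^ e ≤ C * (1 + ρ) :=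
      h4.trans (mul_le_mul_of_nonneg_left (by linarith) hC.le)
    rcases le_total ‖w.2‖ 1 with h6 | h6
    · have : 0 ≤ C * (1 + ρ) := by positivity
      linarith
    · have h7 : ‖w.2‖ ≤ ‖w.2‖ ^ e := le_self_pow₀ h6 (by omega)
      linarith
  have hcomp := Metric.isCompact_of_isClosed_isBounded hS hbd
  have heq : Subtype.val '' (D.p e ⁻¹' K) =
      S0 ∩ (fun w : V2 × ℂ => (w.1, D.R 0 w.1 (w.2 ^ e))) ⁻¹' K' := by
    refine Set.ext fun w => ?_
    constructor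
    · rintro ⟨z, hz, rfl⟩
      exact ⟨z.2.1.le, _, hz, rfl⟩
    · rintro ⟨h1, u, hu, h2⟩
      have h3 : u.1 = w.1 := congrArg Prod.fst h2
      have h4 : (u.2 : ℂ) = D.R 0 w.1 (w.2 ^ e) := congrArg Prod.snd h2
      have hH : D.R 0 w.1 (w.2 ^ e) ∈ D.H := by
        rw [← h4]
        exact u.2.2
      have h5 : D.l w.1 < ‖w.2‖ ^ e := by
        refine lt_of_le_of_ne h1 fun h6 => ?_
        apply hH.1
        apply D.R_real
        rw [norm_pow]
        exact h6.symm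
      refine ⟨⟨w, h5, hH⟩, ?_, rfl⟩
      have h6 : D.p e ⟨w, h5, hH⟩ = u := by
        refine Prod.ext h3.symm (Subtype.ext ?_)
        exact h4.symm
      change D.p e ⟨w, h5, hH⟩ ∈ K
      rw [h6]
      exact hu
  rw [heq]
  exact hcomp

end PD

end Pool.W4b1b5d.SH
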