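import Pool.Agent.W_4b1b5d_h66.SHCovA

set_option autoImplicit false

namespace Pool.W4b1b5d.SH

open Pool.W4b1b5d.H3 Polynomial Set

namespace PD

/-- TASK SHCov (5).  Local homeomorphism, from `loc_inv`. -/
theorem p_loc (D : PD) (e : ℕ) (he : 1 ≤ e) : IsLocalHomeomorph (D.p e) := by
  have hloc : ∀ z : D.E e, ∃ (G : V2 × ℂ → ℂ) (ε η : ℝ), 0 < ε ∧ 0 < η ∧
      G (z.1.1, D.R 0 z.1.1 (z.1.2 ^ e)) = z.1.2 ∧
      (∀ y, dist y (z.1.1, D.R 0 z.1.1 (z.1.2 ^ e)) < ε → ContDiffAt ℝ (⊤ : ℕ∞) G y ∧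
        dist (G y) z.1.2 < η ∧ G y ≠ 0 ∧ D.R 1 y.1 (G y ^ e) ≠ 0 ∧ D.R 0 y.1 (G y ^ e) = y.2 ∧
        ∀ P, dist P z.1.2 < η → D.R 0 y.1 (P ^ e) = y.2 → P = G y) := by
    intro z
    have h1 : z.1.2 ≠ 0 := by
      intro h
      have h2 := D.SHCovA_ne e z.2.1.le
      rw [h, zero_pow (by omega)] at h2
      exact h2 rfl
    exact D.loc_inv e he z.1.1 z.1.2 h1 (D.E_R1 e z.1 z.2)
  have hj : Continuous fun y : V2 × D.H => (y.1, (y.2 : ℂ)) := by fun_prop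
  have hopen : IsOpenMap (D.p e) := by
    rw [isOpenMap_iff_nhds_le]
    intro z s hs
    rw [Filter.mem_map, mem_nhds_subtype] at hs
    obtain ⟨t, ht, hts⟩ := hs
    obtain ⟨G, ε, η, hε, hη, hG0, hG⟩ := hloc z
    have hball : ∀ᶠ y : V2 × D.H in nhds (D.p e z),
        dist (y.1, (y.2 : ℂ)) (z.1.1, D.R 0 z.1.1 (z.1.2 ^ e)) < ε := by
      have h1 : Metric.ball ((z.1.1, D.R 0 z.1.1 (z.1.2 ^ e)) : V2 × ℂ) ε ∈
          nhds (((D.p e z).1, ((D.p e z).2 : ℂ)) : V2 × ℂ) := Metric.ball_mem_nhds _ hε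
      exact hj.continuousAt.preimage_mem_nhds h1
    have hσ : ContinuousAt (fun y : V2 × D.H => (y.1, G (y.1, (y.2 : ℂ)))) (D.p e z) := by
      have h1 : ContinuousAt G (z.1.1, D.R 0 z.1.1 (z.1.2 ^ e)) :=
        (hG _ (by rw [dist_self]; exact hε)).1.continuousAt
      exact continuousAt_fst.prodMk
        (ContinuousAt.comp (f := fun y : V2 × D.H => (y.1, (y.2 : ℂ))) h1 hj.continuousAt)
    have hσ0 : (fun y : V2 × D.H => (y.1, G (y.1, (y.2 : ℂ)))) (D.p e z) = z.1 :=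
      Prod.ext rfl hG0
    have h2 : ∀ᶠ y : V2 × D.H in nhds (D.p e z), (y.1, G (y.1, (y.2 : ℂ))) ∈ t := by
      refine hσ.preimage_mem_nhds ?_
      have h0 : ((D.p e z).1, G ((D.p e z).1, ((D.p e z).2 : ℂ))) = z.1 := hσ0
      rw [h0]
      exact ht
    have h3 : ∀ᶠ y : V2 × D.H in nhds (D.p e z),
        D.l y.1 < ‖G (y.1, (y.2 : ℂ))‖ ^ e := by
      have h4 : ContinuousAt (fun y : V2 × D.H => D.l y.1) (D.p e z) :=
        (D.lsm.continuous.comp continuous_fst).continuousAt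
      have h5 : ContinuousAt (fun y : V2 × D.H => ‖G (y.1, (y.2 : ℂ))‖ ^ e) (D.p e z) :=
        ((continuousAt_snd.comp hσ).norm).pow e
      refine h4.eventually_lt h5 ?_
      have h6 : G ((D.p e z).1, ((D.p e z).2 : ℂ)) = z.1.2 := hG0
      rw [h6]
      exact z.2.1
    filter_upwards [hball, h2, h3] with y hy1 hy2 hy3
    obtain ⟨-, -, -, -, h7, -⟩ := hG _ hy1
    have h8 : (y.1, G (y.1, (y.2 : ℂ))) ∈ D.E e := ⟨hy3, by
      change D.R 0 y.1 (G (y.1, (y.2 : ℂ)) ^ e) ∈ D.H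
      rw [h7]
      exact y.2.2⟩
    have h9 : (⟨_, h8⟩ : D.E e) ∈ D.p e ⁻¹' s := hts hy2
    have h10 : D.p e ⟨_, h8⟩ = y := Prod.ext rfl (Subtype.ext h7)
    rw [← h10]
    exact h9
  rw [isLocalHomeomorph_iff_isOpenEmbedding_restrict]
  intro z
  obtain ⟨G, ε, η, hε, hη, hG0, hG⟩ := hloc z
  set U : Set (D.E e) := {w | dist w.1.2 z.1.2 < η ∧
    dist ((D.p e w).1, ((D.p e w).2 : ℂ)) (z.1.1, D.R 0 z.1.1 (z.1.2 ^ e)) < ε} with hU
  have hUo : IsOpen U := by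
    exact (isOpen_lt (f := fun w : D.E e => dist w.1.2 z.1.2) (g := fun _ => η) (by fun_prop)
      continuous_const).inter
      (isOpen_lt ((hj.comp (D.p_cont e he)).dist continuous_const) continuous_const)
  have hzU : z ∈ U := by
    refine ⟨by rw [dist_self]; exact hη, ?_⟩
    change dist (z.1.1, D.R 0 z.1.1 (z.1.2 ^ e)) (z.1.1, D.R 0 z.1.1 (z.1.2 ^ e)) < ε
    rw [dist_self]
    exact hε
  refine ⟨U, hUo.mem_nhds hzU, ?_⟩
  refine Topology.IsOpenEmbedding.of_continuous_injective_isOpenMap ?_ ?_ ?_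
  · exact (D.p_cont e he).comp continuous_subtype_val
  · intro a b hab
    have h1 : D.p e a.1 = D.p e b.1 := hab
    have h2 : a.1.1.1 = b.1.1.1 := congrArg (fun w : V2 × D.H => w.1) h1
    obtain ⟨-, -, -, -, -, h3⟩ := hG _ a.2.2
    have h4 : a.1.1.2 = G ((D.p e a.1).1, ((D.p e a.1).2 : ℂ)) := h3 _ a.2.1 rfl
    obtain ⟨-, -, -, -, -, h5⟩ := hG _ b.2.2
    have h6 : b.1.1.2 = G ((D.p e b.1).1, ((D.p e b.1).2 : ℂ)) := h5 _ b.2.1 rfl
    apply Subtype.ext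
    apply Subtype.ext
    refine Prod.ext h2 ?_
    rw [h4, h6, h1]
  · exact hopen.comp hUo.isOpenMap_subtype_val

end PD

end Pool.W4b1b5d.SH
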