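import Pool.Agent.W_4b1b5d_h66.SHCovB
import Pool.Agent.W_4b1b5d_h66.SHCovC

set_option autoImplicit false

namespace Pool.W4b1b5d.SH

open Pool.W4b1b5d.H3 Polynomial Set

namespace PD

/-- TASK SHCov (6).  `IsClosedMap.isCoveringMapOn_of_isLocalHomeomorphOn`,
`isCoveringMap_iff_isCoveringMapOn_univ`. -/
theorem p_cov (D : PD) (e : ℕ) (he : 1 ≤ e) : IsCoveringMap (D.p e) := by
  rw [isCoveringMap_iff_isCoveringMapOn_univ]
  refine (D.p_proper e he).isClosedMap.isCoveringMapOn_of_isLocalHomeomorphOn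
    (fun y _ => D.p_fin e he y) ?_
  rw [preimage_univ]
  exact isLocalHomeomorph_iff_isLocalHomeomorphOn_univ.1 (D.p_loc e he)

theorem SHCovD_lift (D : PD) (e : ℕ) (he : 1 ≤ e) {A : Type*} [TopologicalSpace A]
    [PreconnectedSpace A] {x : A → V2} {v : A → ℂ} {q q' : A → ℂ} (hx : Continuous x)
    (hq : Continuous q) (hq' : Continuous q')
    (h : ∀ t, v t ∈ D.H ∧ D.l (x t) < ‖q t‖ ^ e ∧ D.R 0 (x t) (q t ^ e) = v t)
    (h' : ∀ t, D.l (x t) < ‖q' t‖ ^ e ∧ D.R 0 (x t) (q' t ^ e) = v t)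
    {t0 : A} (heq : q t0 = q' t0) : q = q' := by
  have hE : ∀ t, (x t, q t) ∈ D.E e := fun t => ⟨(h t).2.1, by
    change D.R 0 (x t) (q t ^ e) ∈ D.H
    rw [(h t).2.2]
    exact (h t).1⟩
  have hE' : ∀ t, (x t, q' t) ∈ D.E e := fun t => ⟨(h' t).1, by
    change D.R 0 (x t) (q' t ^ e) ∈ D.H
    rw [(h' t).2]
    exact (h t).1⟩
  have h1 : (fun t => (⟨(x t, q t), hE t⟩ : D.E e)) = fun t => ⟨(x t, q' t), hE' t⟩ := by
    refine (D.p_cov e he).eq_of_comp_eq (by fun_prop) (by fun_prop) ?_ t0 ?_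
    · funext t
      refine Prod.ext rfl (Subtype.ext ?_)
      change D.R 0 (x t) (q t ^ e) = D.R 0 (x t) (q' t ^ e)
      rw [(h t).2.2, (h' t).2]
    · exact Subtype.ext (Prod.ext rfl heq)
  funext t
  exact congrArg (fun w : D.E e => w.1.2) (congrFun h1 t)

/-- TASK SHCov (7).  Uniqueness: two continuous solutions over a preconnected set which agree at one
point agree (`IsCoveringMap.eqOn_of_comp_eqOn`). -/
theorem sec_unique (D : PD) (e : ℕ) (he : 1 ≤ e) {A : Set (V2 × ℂ)} (hA : IsPreconnected A)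
    {q q' : V2 × ℂ → ℂ} (hq : ContinuousOn q A) (hq' : ContinuousOn q' A)
    (h : ∀ z ∈ A, z.2 ∈ D.H ∧ D.l z.1 < ‖q z‖ ^ e ∧ D.R 0 z.1 (q z ^ e) = z.2)
    (h' : ∀ z ∈ A, z.2 ∈ D.H ∧ D.l z.1 < ‖q' z‖ ^ e ∧ D.R 0 z.1 (q' z ^ e) = z.2)
    {z0 : V2 × ℂ} (hz0 : z0 ∈ A) (heq : q z0 = q' z0) : EqOn q q' A := by
  have hA' : PreconnectedSpace A := isPreconnected_iff_preconnectedSpace.1 hA
  have h1 := D.SHCovD_lift e he (A := A) (x := fun z => z.1.1) (v := fun z => z.1.2)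
    (q := fun z => q z.1) (q' := fun z => q' z.1) (by fun_prop)
    (continuousOn_iff_continuous_domRestrict.1 hq) (continuousOn_iff_continuous_domRestrict.1 hq')
    (fun z => h z.1 z.2) (fun z => (h' z.1 z.2).2) (t0 := ⟨z0, hz0⟩) heq
  intro z hz
  exact congrFun h1 ⟨z, hz⟩

/-- TASK SHCov (8).  The same for solutions parametrised by any preconnected space, over a moving
base point. -/
theorem lift_unique (D : PD) (e : ℕ) (he : 1 ≤ e) {A : Type*} [TopologicalSpace A]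
    [PreconnectedSpace A] {x : A → V2} {v : A → ℂ} {q q' : A → ℂ} (hx : Continuous x)
    (hv : Continuous v) (hq : Continuous q) (hq' : Continuous q')
    (h : ∀ t, v t ∈ D.H ∧ D.l (x t) < ‖q t‖ ^ e ∧ D.R 0 (x t) (q t ^ e) = v t)
    (h' : ∀ t, D.l (x t) < ‖q' t‖ ^ e ∧ D.R 0 (x t) (q' t ^ e) = v t)
    {t0 : A} (heq : q t0 = q' t0) : q = q' := by
  exact D.SHCovD_lift e he hx hq hq' h h' heq

end PD

end Pool.W4b1b5d.SH
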