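import Pool.Agent.W_4b1b5d_h66.SHBasic
import Pool.Agent.W_4b1b5d_h66.SHPoly

set_option autoImplicit false

namespace Pool.W4b1b5d.SH

open Pool.W4b1b5d.H3 Polynomial Set

namespace PD

theorem SHCritA_dpol (D : PD) (x : V2) (y : ℂ) : (D.dpol x).eval y =
    ∑ j ∈ Finset.range (2 * D.M + 1), ((j : ℂ) - D.M) * D.B ((j : ℤ) - D.M) x * y ^ j := by
  unfold dpol
  rw [Polynomial.eval_finset_sum]
  refine Finset.sum_congr rfl fun j _ => ?_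
  rw [Polynomial.eval_mul, Polynomial.eval_C, Polynomial.eval_pow, Polynomial.eval_X]

theorem SHCritA_pol (D : PD) (x : V2) (y : ℂ) : (D.pol x).eval y =
    ∑ j ∈ Finset.range (2 * D.M + 1), D.B ((j : ℤ) - D.M) x * y ^ j := by
  unfold pol
  rw [Polynomial.eval_finset_sum]
  refine Finset.sum_congr rfl fun j _ => ?_
  rw [Polynomial.eval_mul, Polynomial.eval_C, Polynomial.eval_pow, Polynomial.eval_X]

theorem SHCritA_LB0 (M : ℕ) (B : ℤ → V2 → ℂ) (x : V2) {Y : ℂ} (hY : Y ≠ 0) :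
    LB M B 0 x Y * Y ^ M = ∑ j ∈ Finset.range (2 * M + 1), B ((j : ℤ) - M) x * Y ^ j := by
  unfold LB Lk
  rw [Finset.sum_mul]
  refine Finset.sum_congr rfl fun j _ => ?_
  unfold fall
  rw [Finset.range_zero, Finset.prod_empty, mul_one, mul_assoc]
  congr 1
  rw [← zpow_natCast, ← zpow_natCast, ← zpow_add₀ hY]
  congr 1
  push_cast
  ring

/-- `dpol` is Lipschitz in `x` -/
theorem SHCritA_dlip (D : PD) (ρ : ℝ) (hρ : 0 ≤ ρ) : ∃ A : ℝ, 0 < A ∧ ∀ (x x' : V2) (y : ℂ),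
    ‖y‖ ≤ ρ → ‖(D.dpol x).eval y - (D.dpol x').eval y‖ ≤ A * ‖x - x'‖ := by
  obtain ⟨C, hC, h⟩ := D.B_lip
  refine ⟨1 + ∑ j ∈ Finset.range (2 * D.M + 1), ‖(j : ℂ) - D.M‖ * C * ρ ^ j, ?_, ?_⟩
  · have : 0 ≤ ∑ j ∈ Finset.range (2 * D.M + 1), ‖(j : ℂ) - D.M‖ * C * ρ ^ j :=
      Finset.sum_nonneg fun j _ => by positivity
    linarith
  · intro x x' y hy
    rw [SHCritA_dpol, SHCritA_dpol, ← Finset.sum_sub_distrib]
    have h1 : ‖∑ j ∈ Finset.range (2 * D.M + 1), (((j : ℂ) - D.M) * D.B ((j : ℤ) - D.M) x * y ^ j -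
        ((j : ℂ) - D.M) * D.B ((j : ℤ) - D.M) x' * y ^ j)‖ ≤
        ∑ j ∈ Finset.range (2 * D.M + 1), ‖(j : ℂ) - D.M‖ * C * ρ ^ j * ‖x - x'‖ := by
      refine norm_sum_le_of_le _ fun j hj => ?_
      have hj' := Finset.mem_range.1 hj
      have h2 := (h ((j : ℤ) - D.M) x x' (by omega) (by omega)).1
      have h3 : ((j : ℂ) - D.M) * D.B ((j : ℤ) - D.M) x * y ^ j -
          ((j : ℂ) - D.M) * D.B ((j : ℤ) - D.M) x' * y ^ j =
          ((j : ℂ) - D.M) * (D.B ((j : ℤ) - D.M) x - D.B ((j : ℤ) - D.M) x') * y ^ j := by ring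
      rw [h3, norm_mul, norm_mul, norm_pow]
      have h4 : ‖y‖ ^ j ≤ ρ ^ j := pow_le_pow_left₀ (norm_nonneg _) hy j
      calc ‖(j : ℂ) - D.M‖ * ‖D.B ((j : ℤ) - D.M) x - D.B ((j : ℤ) - D.M) x'‖ * ‖y‖ ^ j
          ≤ ‖(j : ℂ) - D.M‖ * (C * ‖x - x'‖) * ρ ^ j := by gcongr
        _ = ‖(j : ℂ) - D.M‖ * C * ρ ^ j * ‖x - x'‖ := by ring
    rw [← Finset.sum_mul] at h1
    refine h1.trans ?_
    have := norm_nonneg (x - x')
    nlinarith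

/-- coefficientwise Taylor estimate -/
theorem SHCritA_taylor (D : PD) : ∃ C : ℝ, 0 < C ∧ ∀ (k : ℤ) (x x' : V2), -(D.M : ℤ) ≤ k →
    k ≤ D.M → ‖D.B k x - D.B k x' - fderiv ℝ (D.B k) x' (x - x')‖ ≤ C * ‖x - x'‖ ^ 2 := by
  obtain ⟨C, hC, h⟩ := D.B_lip
  refine ⟨C, hC, fun k x x' h1 h2 => ?_⟩
  have hd : ∀ y ∈ segment ℝ x' x, HasFDerivWithinAt (D.B k) (fderiv ℝ (D.B k) y)
      (segment ℝ x' x) y := fun y _ =>
    (((D.Bsm k).differentiable (by simp)) y).hasFDerivAt.hasFDerivWithinAt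
  have hb : ∀ y ∈ segment ℝ x' x, ‖fderiv ℝ (D.B k) y - fderiv ℝ (D.B k) x'‖ ≤
      C * ‖x - x'‖ := by
    intro y hy
    refine ContinuousLinearMap.opNorm_le_bound _ (by positivity) fun u => ?_
    have h3 := (h k y x' h1 h2).2 u
    have h4 : ‖y - x'‖ ≤ ‖x - x'‖ := by
      obtain ⟨t, ⟨ht0, ht1⟩, rfl⟩ := (segment_eq_image' ℝ x' x ▸ hy)
      have h5 : x' + t • (x - x') - x' = t • (x - x') := by abel
      simp only []
      rw [h5, norm_smul, Real.norm_of_nonneg ht0]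
      exact mul_le_of_le_one_left (norm_nonneg _) ht1
    rw [ContinuousLinearMap.sub_apply]
    refine h3.trans ?_
    gcongr
  have h6 := (convex_segment (𝕜 := ℝ) x' x).norm_image_sub_le_of_norm_hasFDerivWithin_le' hd hb
    (left_mem_segment ℝ x' x) (right_mem_segment ℝ x' x)
  refine h6.trans (le_of_eq ?_)
  ring

/-- quadratic estimate at a critical point -/
theorem SHCritA_quad (D : PD) (ρ : ℝ) (hρ : 0 ≤ ρ) : ∃ A : ℝ, 0 < A ∧ ∀ (x x' : V2) (y : ℂ),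
    y ≠ 0 → ‖y‖ ≤ ρ → D.l x' < ‖y‖ → D.R 1 x' y = 0 →
    ‖(D.pol x).eval y - (D.pol x').eval y‖ ≤ A * ‖x - x'‖ ^ 2 := by
  obtain ⟨C, hC, h⟩ := D.SHCritA_taylor
  refine ⟨1 + ∑ j ∈ Finset.range (2 * D.M + 1), C * ρ ^ j, ?_, ?_⟩
  · have : 0 ≤ ∑ j ∈ Finset.range (2 * D.M + 1), C * ρ ^ j :=
      Finset.sum_nonneg fun j _ => by positivity
    linarith
  · intro x x' y hy0 hy hl hR
    have h0 := SHCritA_LB0 D.M (fun k y => fderiv ℝ (D.B k) y (x - x')) x' hy0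
    rw [D.crit_fderiv x' y hl hR (x - x'), zero_mul] at h0
    rw [SHCritA_pol, SHCritA_pol, ← Finset.sum_sub_distrib]
    have h1 : ∑ j ∈ Finset.range (2 * D.M + 1), (D.B ((j : ℤ) - D.M) x * y ^ j -
        D.B ((j : ℤ) - D.M) x' * y ^ j) = ∑ j ∈ Finset.range (2 * D.M + 1),
        (D.B ((j : ℤ) - D.M) x - D.B ((j : ℤ) - D.M) x' -
          fderiv ℝ (D.B ((j : ℤ) - D.M)) x' (x - x')) * y ^ j := by
      rw [← sub_zero (∑ j ∈ Finset.range (2 * D.M + 1), (D.B ((j : ℤ) - D.M) x * y ^ j -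
        D.B ((j : ℤ) - D.M) x' * y ^ j)), h0, ← Finset.sum_sub_distrib]
      refine Finset.sum_congr rfl fun j _ => ?_
      ring
    rw [h1]
    have h2 : ‖∑ j ∈ Finset.range (2 * D.M + 1),
        (D.B ((j : ℤ) - D.M) x - D.B ((j : ℤ) - D.M) x' -
          fderiv ℝ (D.B ((j : ℤ) - D.M)) x' (x - x')) * y ^ j‖ ≤
        ∑ j ∈ Finset.range (2 * D.M + 1), C * ρ ^ j * ‖x - x'‖ ^ 2 := by
      refine norm_sum_le_of_le _ fun j hj => ?_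
      have hj' := Finset.mem_range.1 hj
      have h2 := h ((j : ℤ) - D.M) x x' (by omega) (by omega)
      rw [norm_mul, norm_pow]
      have h4 : ‖y‖ ^ j ≤ ρ ^ j := pow_le_pow_left₀ (norm_nonneg _) hy j
      calc _ ≤ (C * ‖x - x'‖ ^ 2) * ρ ^ j := by gcongr
        _ = C * ρ ^ j * ‖x - x'‖ ^ 2 := by ring
    rw [← Finset.sum_mul] at h2
    refine h2.trans ?_
    have := sq_nonneg ‖x - x'‖
    nlinarith

/-- TASK SHCrit (1).  One step.  `Y'` is a critical point of `R(x',·)` outside of the circle, `x` near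
`x'`.  `‖Y'‖ ≤ C` (`R_bound`), `dpol x'` vanishes at `Y'`, so `‖(dpol x).eval Y'‖ ≤ C ‖x-x'‖` (`B_lip`).
`near_root` for `p = dpol x` (degree `2M`, leading coefficient `M a`) gives a root `Y` with
`M ‖a‖ ‖Y-Y'‖^(2M) ≤ C ‖x-x'‖` and `‖(dpol x).eval y‖ ≤ 2^(2M) C ‖x-x'‖` on the segment `[Y',Y]`.  If
`δ` is small, the segment stays in `‖y‖ ≥ c/2` (`c ≤ l`), so `‖R 1 x y‖ ≤ C' ‖x-x'‖` there and
`‖R 0 x Y - R 0 x Y'‖ ≤ C' ‖x-x'‖ ‖Y-Y'‖` (mean value inequality).  Finally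
`‖R 0 x Y' - R 0 x' Y'‖ ≤ C'' ‖x-x'‖^2`: mean value inequality along `x' + t (x - x')`, the derivative
in the direction `x - x'` vanishes at `t = 0` (`crit_fderiv`) and is Lipschitz (`B_lip`). -/
theorem crit_step (D : PD) : ∃ C δ : ℝ, 0 < C ∧ 0 < δ ∧ ∀ (x x' : V2) (Y' : ℂ), ‖x - x'‖ ≤ δ →
    D.l x' < ‖Y'‖ → D.R 1 x' Y' = 0 →
    ∃ Y : ℂ, Y ≠ 0 ∧ D.R 1 x Y = 0 ∧ ‖Y - Y'‖ ^ (2 * D.M) ≤ C * ‖x - x'‖ ∧
      ‖D.R 0 x Y - D.R 0 x' Y'‖ ≤ C * ‖x - x'‖ * ‖Y - Y'‖ + C * ‖x - x'‖ ^ 2 := by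
  obtain ⟨c, Cl, hc, hl⟩ := D.l_bounds
  obtain ⟨ρ, hρ, -, hρb⟩ := D.R_bound
  obtain ⟨A, hA, hAl⟩ := D.SHCritA_dlip ρ hρ.le
  obtain ⟨Q, hQ, hQl⟩ := D.SHCritA_quad ρ hρ.le
  have hM : 0 < (D.M : ℝ) := by exact_mod_cast D.hM
  have ha : 0 < ‖D.a‖ := norm_pos_iff.2 D.ha
  set δ : ℝ := D.M * ‖D.a‖ * (c / 2) ^ (2 * D.M) / A with hδ
  have hδp : 0 < δ := by positivity
  set C1 : ℝ := A / (D.M * ‖D.a‖) with hC1
  set C2 : ℝ := 2 ^ (2 * D.M) * A / (c / 2) ^ (D.M + 1) with hC2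
  set C3 : ℝ := Q / c ^ D.M with hC3
  have hC1p : 0 < C1 := by positivity
  have hC2p : 0 < C2 := by positivity
  have hC3p : 0 < C3 := by positivity
  refine ⟨C1 + C2 + C3, δ, by positivity, hδp, ?_⟩
  intro x x' Y' hx hY' hR'
  have hcY' : c ≤ ‖Y'‖ := (hl x').1.trans hY'.le
  have hY'0 : Y' ≠ 0 := norm_pos_iff.1 (hc.trans_le hcY')
  have hY'ρ : ‖Y'‖ ≤ ρ := hρb x' Y' hY'.le hR'
  have hdeg := (D.dpol_deg x).1
  have hlead := (D.dpol_deg x).2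
  have hev : ‖(D.dpol x).eval Y'‖ ≤ A * ‖x - x'‖ := by
    have h1 := hAl x x' Y' hY'ρ
    rw [← D.R_dpol x' hY'0, hR', zero_mul, sub_zero] at h1
    exact h1
  have hMp := D.hM
  obtain ⟨Y, hY, hroot, hseg⟩ := near_root (D.dpol x) (by omega) Y'
  rw [hdeg, hlead, norm_mul, Complex.norm_natCast] at hroot
  rw [hdeg] at hseg
  have hn : ‖Y - Y'‖ ^ (2 * D.M) ≤ C1 * ‖x - x'‖ := by
    rw [norm_sub_rev, hC1, div_mul_eq_mul_div, le_div_iff₀ (by positivity), mul_comm]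
    exact hroot.trans hev
  have hd0 : 0 ≤ ‖x - x'‖ := norm_nonneg _
  have hd1 : 0 ≤ ‖Y - Y'‖ := norm_nonneg _
  have hcl : ‖Y - Y'‖ ≤ c / 2 := by
    refine le_of_pow_le_pow_left₀ (n := 2 * D.M) (by omega) (by positivity) ?_
    refine hn.trans ?_
    refine (mul_le_mul_of_nonneg_left hx hC1p.le).trans (le_of_eq ?_)
    rw [hC1, hδ]
    field_simp
  have hsy : ∀ y ∈ segment ℝ Y' Y, c / 2 ≤ ‖y‖ := by
    intro y hy
    have h4 : ‖y - Y'‖ ≤ ‖Y - Y'‖ := by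
      obtain ⟨t, ⟨ht0, ht1⟩, rfl⟩ := (segment_eq_image' ℝ Y' Y ▸ hy)
      have h5 : Y' + t • (Y - Y') - Y' = t • (Y - Y') := by abel
      simp only []
      rw [h5, norm_smul, Real.norm_of_nonneg ht0]
      exact mul_le_of_le_one_left (norm_nonneg _) ht1
    have h5 : ‖Y'‖ ≤ ‖y‖ + ‖y - Y'‖ := by
      have h6 := norm_sub_le y (y - Y')
      rwa [sub_sub_cancel] at h6
    linarith
  have hY0 : Y ≠ 0 := norm_pos_iff.1 ((half_pos hc).trans_le (hsy Y (right_mem_segment ℝ Y' Y)))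
  have hRY : D.R 1 x Y = 0 := by
    have h1 := D.R_dpol x hY0
    rw [Polynomial.IsRoot.def] at hY
    rw [hY] at h1
    exact (mul_eq_zero.1 h1).resolve_right (pow_ne_zero _ hY0)
  have hsd : ∀ y ∈ segment ℝ Y' Y, ‖D.R 1 x y‖ ≤ C2 * ‖x - x'‖ := by
    intro y hy
    have hyc := hsy y hy
    have hy0 : y ≠ 0 := norm_pos_iff.1 ((half_pos hc).trans_le hyc)
    have h1 := hseg y hy
    rw [← D.R_dpol x hy0, norm_mul, norm_pow] at h1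
    have h2 : (c / 2) ^ (D.M + 1) ≤ ‖y‖ ^ (D.M + 1) := pow_le_pow_left₀ (by positivity) hyc _
    have h3 := mul_le_mul_of_nonneg_left h2 (norm_nonneg (D.R 1 x y))
    have h4 : (2 : ℝ) ^ (2 * D.M) * ‖(D.dpol x).eval Y'‖ ≤ 2 ^ (2 * D.M) * (A * ‖x - x'‖) :=
      mul_le_mul_of_nonneg_left hev (by positivity)
    rw [hC2, div_mul_eq_mul_div, le_div_iff₀ (by positivity)]
    linarith
  have hmv : ‖D.R 0 x Y - D.R 0 x Y'‖ ≤ C2 * ‖x - x'‖ * ‖Y - Y'‖ := by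
    refine (convex_segment (𝕜 := ℝ) Y' Y).norm_image_sub_le_of_norm_hasDerivWithin_le
      (f := fun y => D.R 0 x y) (f' := fun y => D.R 1 x y) ?_ hsd
      (left_mem_segment ℝ Y' Y) (right_mem_segment ℝ Y' Y)
    intro y hy
    have hy0 : y ≠ 0 := norm_pos_iff.1 ((half_pos hc).trans_le (hsy y hy))
    exact (D.R_hasDerivAt 0 x hy0).hasDerivWithinAt
  have hqd : ‖D.R 0 x Y' - D.R 0 x' Y'‖ ≤ C3 * ‖x - x'‖ ^ 2 := by
    have h1 := hQl x x' Y' hY'0 hY'ρ hY' hR'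
    rw [← D.R_pol x hY'0, ← D.R_pol x' hY'0, ← sub_mul, norm_mul, norm_pow] at h1
    have h2 : c ^ D.M ≤ ‖Y'‖ ^ D.M := pow_le_pow_left₀ hc.le hcY' _
    have h3 := mul_le_mul_of_nonneg_left h2 (norm_nonneg (D.R 0 x Y' - D.R 0 x' Y'))
    rw [hC3, div_mul_eq_mul_div, le_div_iff₀ (by positivity)]
    linarith
  refine ⟨Y, hY0, hRY, ?_, ?_⟩
  · refine hn.trans ?_
    gcongr
    linarith
  · have h1 : D.R 0 x Y - D.R 0 x' Y' = (D.R 0 x Y - D.R 0 x Y') + (D.R 0 x Y' - D.R 0 x' Y') := by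
      ring
    rw [h1]
    refine (norm_add_le _ _).trans (add_le_add (hmv.trans ?_) (hqd.trans ?_))
    · gcongr
      linarith
    · gcongr
      linarith

end PD

end Pool.W4b1b5d.SH
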