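import Pool.Agent.W_4b1b5d_h66.SHCritA

set_option autoImplicit false

namespace Pool.W4b1b5d.SH

open Pool.W4b1b5d.H3 Polynomial Set

namespace PD

/-- The chain of critical points. -/
theorem SHCritB_chain (D : PD) (x0 : V2) (Y0 : ℂ) {C δ r η τ : ℝ} (hC : 0 < C)
    (hr : 0 < r) (hτr : τ ≤ r) (hτ0 : 0 < τ)
    (hstep : ∀ (x x' : V2) (Y' : ℂ), ‖x - x'‖ ≤ δ →
      D.l x' < ‖Y'‖ → D.R 1 x' Y' = 0 →
      ∃ Y : ℂ, Y ≠ 0 ∧ D.R 1 x Y = 0 ∧ ‖Y - Y'‖ ^ (2 * D.M) ≤ C * ‖x - x'‖ ∧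
        ‖D.R 0 x Y - D.R 0 x' Y'‖ ≤ C * ‖x - x'‖ * ‖Y - Y'‖ + C * ‖x - x'‖ ^ 2)
    (hl : ∀ (x : V2) (Y : ℂ), ‖x - x0‖ ≤ η → ‖Y - Y0‖ ≤ 2 * r → D.l x < ‖Y‖)
    (hno : ∀ (x : V2) (Y : ℂ), ‖x - x0‖ ≤ η → r / 2 ≤ ‖Y - Y0‖ → ‖Y - Y0‖ ≤ 2 * r →
      D.R 1 x Y ≠ 0)
    (x : V2) (Y : ℂ) (hx : ‖x - x0‖ ≤ η) (hY : ‖Y - Y0‖ < r / 2) (h1 : D.R 1 x Y = 0)
    (N : ℕ) (hN : 1 ≤ N) (hNδ : ‖x - x0‖ / N ≤ δ) (hNτ : C * (‖x - x0‖ / N) ≤ τ ^ (2 * D.M)) :
    ∀ i : ℕ, i ≤ N → ∃ c : ℂ, ‖c - Y0‖ < r / 2 ∧ D.R 1 (x + ((i : ℝ) / N) • (x0 - x)) c = 0 ∧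
      ‖D.R 0 (x + ((i : ℝ) / N) • (x0 - x)) c - D.R 0 x Y‖ ≤
        i * (C * (‖x - x0‖ / N) * τ + C * (‖x - x0‖ / N) ^ 2) := by
  have hN0 : (0 : ℝ) < N := by exact_mod_cast hN
  intro i
  induction i with
  | zero =>
    intro _
    refine ⟨Y, hY, ?_, ?_⟩
    · simpa using h1
    · simp
  | succ i ih =>
    intro hi
    obtain ⟨c, hc1, hc2, hc3⟩ := ih (by omega)
    set y : V2 := x + ((i : ℝ) / N) • (x0 - x) with hy
    set y' : V2 := x + (((i + 1 : ℕ) : ℝ) / N) • (x0 - x) with hy'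
    have hiN : (i : ℝ) / N ≤ 1 := by
      rw [div_le_one hN0]
      exact_mod_cast (by omega : i ≤ N)
    have hiN' : ((i + 1 : ℕ) : ℝ) / N ≤ 1 := by
      rw [div_le_one hN0]
      exact_mod_cast hi
    have hd : ∀ s : ℝ, 0 ≤ s → s ≤ 1 → ‖(x + s • (x0 - x)) - x0‖ ≤ η := by
      intro s hs0 hs1
      have h2 : (x + s • (x0 - x)) - x0 = (1 - s) • (x - x0) := by
        module
      rw [h2, norm_smul, Real.norm_eq_abs, abs_of_nonneg (by linarith)]
      calc (1 - s) * ‖x - x0‖ ≤ 1 * ‖x - x0‖ :=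
            mul_le_mul_of_nonneg_right (by linarith) (norm_nonneg _)
        _ ≤ η := by rw [one_mul]; exact hx
    have hyy : ‖y' - y‖ = ‖x - x0‖ / N := by
      have h2 : y' - y = (-(1 / (N : ℝ))) • (x - x0) := by
        rw [hy, hy']
        push_cast
        module
      rw [h2, norm_smul, norm_neg, Real.norm_eq_abs, abs_of_nonneg (by positivity)]
      ring
    have hyη : ‖y - x0‖ ≤ η := hd _ (by positivity) hiN
    have hy'η : ‖y' - x0‖ ≤ η := hd _ (by positivity) hiN'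
    obtain ⟨c', -, hc'1, hc'2, hc'3⟩ := hstep y' y c (by rw [hyy]; exact hNδ)
      (hl y c hyη (by linarith)) hc2
    rw [hyy] at hc'2 hc'3
    have hcc : ‖c' - c‖ ≤ τ := by
      have h3 : ‖c' - c‖ ^ (2 * D.M) ≤ τ ^ (2 * D.M) := hc'2.trans hNτ
      exact le_of_pow_le_pow_left₀ (by have := D.hM; omega) hτ0.le h3
    have hcY : ‖c' - Y0‖ ≤ 2 * r := by
      have h4 : c' - Y0 = (c' - c) + (c - Y0) := by ring
      rw [h4]
      have := norm_add_le (c' - c) (c - Y0)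
      linarith
    refine ⟨c', ?_, hc'1, ?_⟩
    · by_contra hcon
      exact hno y' c' hy'η (not_lt.1 hcon) hcY hc'1
    · have h5 : D.R 0 y' c' - D.R 0 x Y = (D.R 0 y' c' - D.R 0 y c) + (D.R 0 y c - D.R 0 x Y) := by
        ring
      rw [h5]
      refine (norm_add_le _ _).trans ?_
      have hd0 : 0 ≤ ‖x - x0‖ / N := by positivity
      have h6 : C * (‖x - x0‖ / N) * ‖c' - c‖ ≤ C * (‖x - x0‖ / N) * τ :=
        mul_le_mul_of_nonneg_left hcc (by positivity)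
      push_cast
      linarith

/-- TASK SHCrit (2).  Local constancy of the critical value outside of the circle.

Proof.  Choose `r > 0` such that `Y0` is the only critical point of `R(x0,·)` in `closedBall Y0 (2r)`
(finitely many roots of `dpol x0`) and `η > 0` such that for `‖x-x0‖ ≤ η`: `l x < ‖Y‖` for all
`Y ∈ closedBall Y0 (2r)`, and `R(x,·)` has no critical point with `r/2 ≤ ‖Y-Y0‖ ≤ 2r` (compactness and
continuity).  Let `‖x-x0‖ < η`, `‖Y-Y0‖ < r/2`, `R 1 x Y = 0`.  For `N` large put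
`y_i = x + (i/N)(x0 - x)`, `c_0 = Y` and let `c_{i+1}` be the critical point of `R(y_{i+1},·)` given by
`crit_step` from `c_i`.  The steps are `≤ (C η/N)^(1/2M) ≤ r`, so by induction `‖c_i - Y0‖ < r/2` (it is
`≤ 2r`, hence `< r/2` by the choice of `η`), so `c_N = Y0`, and the values change by at most
`C (η/N) (C η/N)^(1/2M) + C (η/N)^2` in each step, in total `→ 0` for `N → ∞`. -/
theorem crit_const (D : PD) (x0 : V2) (Y0 : ℂ) (h : D.l x0 < ‖Y0‖) (h1 : D.R 1 x0 Y0 = 0) :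
    ∃ ε : ℝ, 0 < ε ∧ ∀ (x : V2) (Y : ℂ), ‖x - x0‖ < ε → ‖Y - Y0‖ < ε → D.R 1 x Y = 0 →
      D.R 0 x Y = D.R 0 x0 Y0 := by
  classical
  obtain ⟨C, δ, hC, hδ, hstep⟩ := D.crit_step
  have hl0 := D.lpos x0
  -- the radius
  have hpne : D.dpol x0 ≠ 0 := by
    intro hp
    have h2 := (D.dpol_deg x0).1
    rw [hp, natDegree_zero] at h2
    have := D.hM
    omega
  set S : Finset ℂ := (D.dpol x0).roots.toFinset.erase Y0 with hS
  have hopen : IsOpen ((S : Set ℂ)ᶜ) := S.finite_toSet.isClosed.isOpen_compl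
  have hY0S : Y0 ∈ ((S : Set ℂ)ᶜ) := by
    rw [mem_compl_iff, Finset.mem_coe, hS]
    exact Finset.notMem_erase _ _
  obtain ⟨ρ, hρ, hρS⟩ := Metric.isOpen_iff.1 hopen Y0 hY0S
  set r : ℝ := min (ρ / 4) ((‖Y0‖ - D.l x0) / 4) with hrdef
  have hr : 0 < r := lt_min (by positivity) (by linarith)
  have hr1 : r ≤ ρ / 4 := min_le_left _ _
  have hr2 : r ≤ (‖Y0‖ - D.l x0) / 4 := min_le_right _ _
  have hball : ∀ Y : ℂ, ‖Y - Y0‖ ≤ 2 * r → D.l x0 < ‖Y‖ - r := by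
    intro Y hY
    have h3 : ‖Y0‖ ≤ ‖Y‖ + ‖Y - Y0‖ := by
      have h4 : Y0 = Y - (Y - Y0) := by ring
      calc ‖Y0‖ = ‖Y - (Y - Y0)‖ := by rw [← h4]
        _ ≤ _ := norm_sub_le _ _
    linarith
  have honly : ∀ Y : ℂ, ‖Y - Y0‖ ≤ 2 * r → D.R 1 x0 Y = 0 → Y = Y0 := by
    intro Y hY hR
    by_contra hne
    have hYne : Y ≠ 0 := by
      intro h0
      have := hball Y hY
      rw [h0, norm_zero] at this
      linarith
    have h3 := D.R_dpol x0 hYne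
    rw [hR, zero_mul] at h3
    have h4 : Y ∈ S := by
      rw [hS, Finset.mem_erase, Multiset.mem_toFinset, mem_roots hpne]
      exact ⟨hne, h3.symm⟩
    have h5 : Y ∈ Metric.ball Y0 ρ := by
      rw [Metric.mem_ball, dist_eq_norm]
      linarith
    exact hρS h5 (Finset.mem_coe.2 h4)
  -- the neighbourhood of x0
  have hlc : ∀ᶠ x in nhds x0, D.l x < D.l x0 + r :=
    (D.lsm.continuous.tendsto x0).eventually (gt_mem_nhds (by linarith))
  set K : Set ℂ := {Y | r / 2 ≤ ‖Y - Y0‖ ∧ ‖Y - Y0‖ ≤ 2 * r} with hK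
  have hKc : IsCompact K := by
    refine Metric.isCompact_of_isClosed_isBounded ?_ ?_
    · have hcn : Continuous fun Y : ℂ => ‖Y - Y0‖ := by fun_prop
      exact IsClosed.inter (isClosed_le continuous_const hcn) (isClosed_le hcn continuous_const)
    · refine (Metric.isBounded_closedBall (x := Y0) (r := 2 * r)).subset fun Y hY => ?_
      rw [Metric.mem_closedBall, dist_eq_norm]
      exact hY.2
  have hnoK : ∀ᶠ x in nhds x0, ∀ Y ∈ K, D.R 1 x Y ≠ 0 := by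
    refine hKc.eventually_forall_of_forall_eventually fun Y hY => ?_
    have hYne : Y ≠ 0 := by
      intro h0
      have := hball Y hY.2
      rw [h0, norm_zero] at this
      linarith
    have hRne : D.R 1 x0 Y ≠ 0 := by
      intro hR
      have h3 := honly Y hY.2 hR
      have h4 := hY.1
      rw [h3, sub_self, norm_zero] at h4
      linarith
    have hcont : ContinuousAt (fun z : V2 × ℂ => D.R 1 z.1 z.2) (x0, Y) :=
      (D.R_smooth 1 (z := (x0, Y)) hYne).continuousAt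
    exact hcont.eventually_ne hRne
  obtain ⟨η', hη', hη'P⟩ := Metric.eventually_nhds_iff.1 (hlc.and hnoK)
  set η : ℝ := η' / 2 with hη
  have hη0 : 0 < η := by positivity
  have hl : ∀ (x : V2) (Y : ℂ), ‖x - x0‖ ≤ η → ‖Y - Y0‖ ≤ 2 * r → D.l x < ‖Y‖ := by
    intro x Y hx hY
    have h3 := (hη'P (y := x) (by rw [dist_eq_norm]; linarith)).1
    have := hball Y hY
    linarith
  have hno : ∀ (x : V2) (Y : ℂ), ‖x - x0‖ ≤ η → r / 2 ≤ ‖Y - Y0‖ → ‖Y - Y0‖ ≤ 2 * r →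
      D.R 1 x Y ≠ 0 := by
    intro x Y hx hY1 hY2
    exact (hη'P (y := x) (by rw [dist_eq_norm]; linarith)).2 Y ⟨hY1, hY2⟩
  refine ⟨min η (r / 2), lt_min hη0 (by positivity), ?_⟩
  intro x Y hx hY hR
  have hx' : ‖x - x0‖ ≤ η := (hx.trans_le (min_le_left _ _)).le
  have hY' : ‖Y - Y0‖ < r / 2 := hY.trans_le (min_le_right _ _)
  set d : ℝ := ‖x - x0‖ with hd
  have hd0 : 0 ≤ d := norm_nonneg _
  -- the bound for every τ
  have hall : ∀ τ : ℝ, 0 < τ → τ ≤ r → ‖D.R 0 x0 Y0 - D.R 0 x Y‖ ≤ (C * d + 1) * τ := by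
    intro τ hτ0 hτr
    obtain ⟨N, hN⟩ := exists_nat_gt (max 1 (max (d / δ) (max (C * d / τ ^ (2 * D.M)) (C * d ^ 2 / τ))))
    have hN1 : (1 : ℝ) < N := (le_max_left _ _).trans_lt hN
    have hN2 : d / δ < N := ((le_max_left _ _).trans (le_max_right _ _)).trans_lt hN
    have hN3 : C * d / τ ^ (2 * D.M) < N :=
      ((le_max_left _ _).trans ((le_max_right _ _).trans (le_max_right _ _))).trans_lt hN
    have hN4 : C * d ^ 2 / τ < N :=
      ((le_max_right _ _).trans ((le_max_right _ _).trans (le_max_right _ _))).trans_lt hN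
    have hN0 : (0 : ℝ) < N := by linarith
    have hNn : 1 ≤ N := by
      have : (0 : ℝ) < N := hN0
      exact_mod_cast this
    have hNδ : d / N ≤ δ := by
      rw [div_le_iff₀ hN0]
      rw [div_lt_iff₀ hδ] at hN2
      linarith
    have hτp : 0 < τ ^ (2 * D.M) := by positivity
    have hNτ : C * (d / N) ≤ τ ^ (2 * D.M) := by
      rw [← mul_div_assoc, div_le_iff₀ hN0]
      rw [div_lt_iff₀ hτp] at hN3
      linarith
    obtain ⟨c, hc1, hc2, hc3⟩ := SHCritB_chain D x0 Y0 (C := C) (δ := δ) (r := r) (η := η) (τ := τ)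
      hC hr hτr hτ0 hstep hl hno x Y hx' hY' hR N hNn hNδ hNτ N le_rfl
    have hxN : x + ((N : ℝ) / N) • (x0 - x) = x0 := by
      rw [div_self hN0.ne', one_smul]
      abel
    rw [hxN] at hc2 hc3
    have hcY : c = Y0 := honly c (by linarith) hc2
    rw [hcY] at hc3
    refine hc3.trans ?_
    have h6 : (N : ℝ) * (C * (d / N) * τ + C * (d / N) ^ 2) = C * d * τ + C * d ^ 2 / N := by
      field_simp
    rw [h6]
    have h7 : C * d ^ 2 / N ≤ τ := by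
      rw [div_le_iff₀ hN0]
      rw [div_lt_iff₀ hτ0] at hN4
      linarith
    linarith
  by_contra hne
  have hD : 0 < ‖D.R 0 x0 Y0 - D.R 0 x Y‖ := by
    rw [norm_pos_iff, sub_ne_zero]
    exact fun h => hne h.symm
  have hCd : 0 < C * d + 1 := by positivity
  have h8 := hall (min r (‖D.R 0 x0 Y0 - D.R 0 x Y‖ / (2 * (C * d + 1))))
    (lt_min hr (by positivity)) (min_le_left _ _)
  have h9 : (C * d + 1) * min r (‖D.R 0 x0 Y0 - D.R 0 x Y‖ / (2 * (C * d + 1))) ≤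
      ‖D.R 0 x0 Y0 - D.R 0 x Y‖ / 2 := by
    calc (C * d + 1) * min r (‖D.R 0 x0 Y0 - D.R 0 x Y‖ / (2 * (C * d + 1)))
        ≤ (C * d + 1) * (‖D.R 0 x0 Y0 - D.R 0 x Y‖ / (2 * (C * d + 1))) :=
          mul_le_mul_of_nonneg_left (min_le_right _ _) hCd.le
      _ = _ := by field_simp
  linarith

end PD

end Pool.W4b1b5d.SH
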