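import Pool.Agent.W_4b1b5d_h66.SHGlueA

set_option autoImplicit false

namespace Pool.W4b1b5d.SH

open Pool.W4b1b5d.H3 Polynomial Set

namespace Sh

/-- TASK SHGlue (4).  Smoothness of the boundary values where `R_Y ≠ 0`, in `(x, w)`, `w` real. -/
theorem smooth_bdry {D : PD} {e : ℕ} (he : 1 ≤ e) {s τ : ℝ} (hs : s = 1 ∨ s = -1) (hτ : 0 < τ)
    (S : Sh D e s τ) (j : Fin S.n) (x0 : V2) (w : ℝ)
    (h1 : D.R 1 x0 (S.P j x0 (w : ℂ) ^ e) ≠ 0) :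
    ContDiffAt ℝ (⊤ : ℕ∞) (fun z : V2 × ℝ => S.P j z.1 (z.2 : ℂ)) (x0, w) ∧
      HasDerivAt (fun u : ℝ => S.P j x0 (u : ℂ))
        (((e : ℂ) * S.P j x0 (w : ℂ) ^ (e - 1) * D.R 1 x0 (S.P j x0 (w : ℂ) ^ e))⁻¹) w := by
  have hw : ((w : ℝ) : ℂ) ∈ Us s τ := by
    refine ⟨?_, ?_⟩
    · rw [Complex.ofReal_im, mul_zero]
    · rw [Complex.ofReal_im, mul_zero]
      exact hτ
  have hP : S.P j x0 (w : ℂ) ≠ 0 := by
    intro h0
    have h2 := S.le j x0 (w : ℂ) hw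
    rw [h0, norm_zero, zero_pow (by omega)] at h2
    exact absurd (D.lpos x0) (not_lt.2 h2)
  obtain ⟨G, ε, η, hε, hη, hG0, hG⟩ := D.loc_inv e he x0 (S.P j x0 (w : ℂ)) hP h1
  rw [S.root j x0 (w : ℂ) hw] at hG0 hG
  obtain ⟨δ, hδ, heq⟩ := eq_loc he S j x0 (w : ℂ) hw G ε η hε hη
    (fun z hz P hPd hr => (hG z hz).2.2.2.2.2 P hPd hr)
  have hself : dist ((x0, (w : ℂ)) : V2 × ℂ) (x0, (w : ℂ)) < ε := by
    rw [dist_self]
    exact hε
  obtain ⟨hGs, _, _, _, _, _⟩ := hG (x0, (w : ℂ)) hself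
  have hUs : ∀ u : ℝ, (u : ℂ) ∈ Us s τ := by
    intro u
    refine ⟨?_, ?_⟩
    · rw [Complex.ofReal_im, mul_zero]
    · rw [Complex.ofReal_im, mul_zero]
      exact hτ
  refine ⟨?_, ?_⟩
  · have hι : ContDiff ℝ (⊤ : ℕ∞) (fun z : V2 × ℝ => ((z.1, (z.2 : ℂ)) : V2 × ℂ)) :=
      contDiff_fst.prodMk (Complex.ofRealCLM.contDiff.comp contDiff_snd)
    have h2 : ContDiffAt ℝ (⊤ : ℕ∞) (fun z : V2 × ℝ => G (z.1, (z.2 : ℂ))) (x0, w) :=
      ContDiffAt.comp (g := G) (f := fun z : V2 × ℝ => ((z.1, (z.2 : ℂ)) : V2 × ℂ)) (x0, w) hGs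
        hι.contDiffAt
    refine h2.congr_of_eventuallyEq ?_
    have h3 : Filter.Tendsto (fun z : V2 × ℝ => ((z.1, (z.2 : ℂ)) : V2 × ℂ)) (nhds (x0, w))
        (nhds (x0, (w : ℂ))) := hι.continuous.continuousAt
    filter_upwards [h3.eventually (Metric.ball_mem_nhds _ hδ)] with z hz
    exact heq (z.1, (z.2 : ℂ)) hz (hUs z.2)
  · have hi : ContinuousAt (fun v : ℂ => ((x0, v) : V2 × ℂ)) (w : ℂ) := by fun_prop
    have hq : ContinuousAt (fun v : ℂ => G (x0, v)) (w : ℂ) :=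
      ContinuousAt.comp (g := G) (f := fun v : ℂ => ((x0, v) : V2 × ℂ)) hGs.continuousAt hi
    have hne : (fun v : ℂ => G (x0, v)) (w : ℂ) ≠ 0 := by
      show G (x0, (w : ℂ)) ≠ 0
      rw [hG0]
      exact hP
    have hloc : ∀ᶠ v in nhds (w : ℂ), D.R 0 x0 ((fun v : ℂ => G (x0, v)) v ^ e) = v := by
      have h3 : Filter.Tendsto (fun v : ℂ => ((x0, v) : V2 × ℂ)) (nhds (w : ℂ))
          (nhds (x0, (w : ℂ))) := hi
      filter_upwards [h3.eventually (Metric.ball_mem_nhds _ hε)] with v hv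
      exact (hG (x0, v) hv).2.2.2.2.1
    have h4 := D.sol_dv e he x0 hq hne hloc (by
      show D.R 1 x0 (G (x0, (w : ℂ)) ^ e) ≠ 0
      rw [hG0]
      exact h1)
    have h5 := h4.comp_ofReal
    beta_reduce at h5
    rw [hG0] at h5
    refine h5.congr_of_eventuallyEq ?_
    have h6 : Filter.Tendsto (fun u : ℝ => ((x0, (u : ℂ)) : V2 × ℂ)) (nhds w)
        (nhds (x0, (w : ℂ))) := by
      have h7 : ContinuousAt (fun u : ℝ => ((x0, (u : ℂ)) : V2 × ℂ)) w := by fun_prop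
      exact h7
    filter_upwards [h6.eventually (Metric.ball_mem_nhds _ hδ)] with u hu
    exact heq (x0, (u : ℂ)) hu (hUs u)

end Sh

end Pool.W4b1b5d.SH
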