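import Pool.Agent.W_4b1b5d_h66.SHGlueC
import Pool.Agent.W_4b1b5d_h66.SHGlueD
import Pool.Agent.W_4b1b5d_h66.SHGlueE
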