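import Pool.Agent.W_4b1b5d_h66.SHStrip

set_option autoImplicit false

namespace Pool.W4b1b5d.SH

open Pool.W4b1b5d.H3 Polynomial Set

namespace Sh

/-- TASK SHGlue (1).  Near a boundary point `(x0,w)` (`w` real) where `R_Y ≠ 0` the sheet `j` is equal to
the local solution `G` of `loc_inv` on the closed half neighbourhood.  (`Sh.cont`: for `z` near
`(x0,w)` in the closed half strip `S.P j z.1 z.2` is `η`-close to `S.P j x0 w`, and `loc_inv` gives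
uniqueness.)  Works for all `v0 ∈ Us`. -/
theorem eq_loc {D : PD} {e : ℕ} (he : 1 ≤ e) {s τ : ℝ} (S : Sh D e s τ) (j : Fin S.n) (x0 : V2)
    (v0 : ℂ) (hv0 : v0 ∈ Us s τ) (G : V2 × ℂ → ℂ) (ε η : ℝ) (hε : 0 < ε) (hη : 0 < η)
    (hG : ∀ z, dist z (x0, v0) < ε → ∀ P, dist P (S.P j x0 v0) < η →
      D.R 0 z.1 (P ^ e) = z.2 → P = G z) :
    ∃ δ : ℝ, 0 < δ ∧ ∀ z : V2 × ℂ, dist z (x0, v0) < δ → z.2 ∈ Us s τ → S.P j z.1 z.2 = G z := by
  obtain ⟨δ, hδ, h⟩ := Metric.continuousOn_iff.1 (S.cont j) (x0, v0) ⟨mem_univ _, hv0⟩ η hη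
  refine ⟨min δ ε, lt_min hδ hε, fun z hz hz2 => ?_⟩
  refine hG z (hz.trans_le (min_le_right _ _)) _
    (h z ⟨mem_univ _, hz2⟩ (hz.trans_le (min_le_left _ _))) ?_
  exact S.root j z.1 z.2 hz2

end Sh

end Pool.W4b1b5d.SH
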