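import Pool.Agent.W_4b1b5d_h66.SHGlueA

set_option autoImplicit false

namespace Pool.W4b1b5d.SH

open Pool.W4b1b5d.H3 Polynomial Set

namespace Sh

theorem SHGlueB_point {s τ : ℝ} (hs : s = 1 ∨ s = -1) (x0 : V2) (w δ : ℝ) (hδ : 0 < δ)
    (hδτ : δ ≤ τ) : ∃ v : ℂ, v ∈ Ks s τ ∧ dist ((x0, v) : V2 × ℂ) (x0, (w : ℂ)) < δ := by
  refine ⟨(w : ℂ) + ((s * (δ / 2) : ℝ) : ℂ) * Complex.I, ?_, ?_⟩
  · have h1 : ((w : ℂ) + ((s * (δ / 2) : ℝ) : ℂ) * Complex.I).im = s * (δ / 2) := by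
      simp
    have h2 : s * s = 1 := by rcases hs with h | h <;> rw [h] <;> norm_num
    show 0 < s * _ ∧ s * _ < τ
    rw [h1, ← mul_assoc, h2, one_mul]
    constructor <;> linarith
  · rw [Prod.dist_eq, dist_self, dist_eq_norm, add_sub_cancel_left, norm_mul, Complex.norm_I,
      mul_one, Complex.norm_real, Real.norm_eq_abs, abs_mul]
    have h2 : |s| = 1 := by rcases hs with h | h <;> rw [h] <;> norm_num
    rw [h2, one_mul, abs_of_pos (by linarith)]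
    exact max_lt hδ (by linarith)

theorem SHGlueB_convex (s τ : ℝ) : Convex ℝ (Ks s τ) := by
  have h1 : Convex ℝ {v : ℂ | 0 < s * v.im} := by
    have := (convex_Ioi (𝕜 := ℝ) (0 : ℝ)).is_linear_preimage (f := fun v : ℂ => s * v.im)
      ⟨fun x y => by simp [mul_add], fun c x => by simp; ring⟩
    exact this
  have h2 : Convex ℝ {v : ℂ | s * v.im < τ} := by
    have := (convex_Iio (𝕜 := ℝ) (τ : ℝ)).is_linear_preimage (f := fun v : ℂ => s * v.im)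
      ⟨fun x y => by simp [mul_add], fun c x => by simp; ring⟩
    exact this
  exact h1.inter h2

/-- TASK SHGlue (2).  The outer simple solution `y` at a boundary value `v0 = w` real is on exactly one
sheet, and this sheet is the local solution near `(x0,w)`.

Proof.  `loc_inv` at `(x0,y)`: `G` on the ball of radius `ε` about `(x0,w)`; shrink `ε` so that
`l z.1 < ‖G z‖^e` on it.  Let `A` be the part of the ball over the open half strip, it is convex.  At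
one point `z1 ∈ A`, `G z1 = S.P j z1` for some `j` (`exh`), so `G = S.P j` on `A` (`sec_unique`), and
by continuity on the closed part.  Uniqueness of `j`: if `S.P i x0 w = y` too then `eq_loc` for
`i` and `j` gives `S.P i = G = S.P j` at points of `A`, so `i = j` (`inj`). -/
theorem exh_bdry {D : PD} {e : ℕ} (he : 1 ≤ e) {s τ : ℝ} (hs : s = 1 ∨ s = -1) (hτ : 0 < τ)
    (hH : Ks s τ ⊆ D.H) (S : Sh D e s τ) (x0 : V2) (w : ℝ) (y : ℂ) (hy : D.l x0 < ‖y‖ ^ e)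
    (h0 : D.R 0 x0 (y ^ e) = (w : ℂ)) (h1 : D.R 1 x0 (y ^ e) ≠ 0) :
    ∃! j, S.P j x0 (w : ℂ) = y := by
  have hl0 := D.lpos x0
  have hy0 : y ≠ 0 := by
    rintro rfl
    rw [norm_zero, zero_pow (by omega)] at hy
    linarith
  have hKU : Ks s τ ⊆ Us s τ := fun v hv => ⟨hv.1.le, hv.2⟩
  have hwU : (w : ℂ) ∈ Us s τ := by
    show 0 ≤ s * (w : ℂ).im ∧ s * (w : ℂ).im < τ
    rw [Complex.ofReal_im, mul_zero]
    exact ⟨le_rfl, hτ⟩
  obtain ⟨G, ε, η, hε, hη, hG0, hG⟩ := D.loc_inv e he x0 y hy0 h1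
  rw [h0] at hG0 hG
  have hGc : ∀ z, dist z (x0, (w : ℂ)) < ε → ContinuousAt G z := fun z hz =>
    (hG z hz).1.continuousAt
  have hGc0 : ContinuousAt G (x0, (w : ℂ)) := hGc _ (by rw [dist_self]; exact hε)
  -- the outer condition near the point
  have hout : ∀ᶠ z in nhds (x0, (w : ℂ)), D.l z.1 < ‖G z‖ ^ e := by
    have hl : ContinuousAt (fun z : V2 × ℂ => D.l z.1) (x0, (w : ℂ)) :=
      (D.lsm.continuous.comp continuous_fst).continuousAt
    have hr : ContinuousAt (fun z : V2 × ℂ => ‖G z‖ ^ e) (x0, (w : ℂ)) := hGc0.norm.pow e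
    refine hl.eventually_lt hr ?_
    rw [hG0]
    exact hy
  obtain ⟨ε₁, hε₁, hball⟩ := Metric.eventually_nhds_iff.1 hout
  obtain ⟨ε', hε'def⟩ : ∃ ε' : ℝ, ε' = min ε ε₁ := ⟨_, rfl⟩
  have hε' : 0 < ε' := by rw [hε'def]; exact lt_min hε hε₁
  have hε'ε : ε' ≤ ε := by rw [hε'def]; exact min_le_left _ _
  have hε'ε₁ : ε' ≤ ε₁ := by rw [hε'def]; exact min_le_right _ _
  -- the half ball
  obtain ⟨A, hA⟩ : ∃ A : Set (V2 × ℂ), A = Metric.ball (x0, (w : ℂ)) ε' ∩ (univ ×ˢ Ks s τ) :=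
    ⟨_, rfl⟩
  have hmem : ∀ z, z ∈ A ↔ dist z (x0, (w : ℂ)) < ε' ∧ z.2 ∈ Ks s τ := fun z => by
    rw [hA, mem_inter_iff, Metric.mem_ball, mem_prod]
    simp
  have hAconv : Convex ℝ A := by
    rw [hA]
    exact (convex_ball _ _).inter (convex_univ.prod (SHGlueB_convex s τ))
  have hsmall : ∀ δ : ℝ, 0 < δ → ∃ v : ℂ, v ∈ Ks s τ ∧ (x0, v) ∈ A ∧
      dist ((x0, v) : V2 × ℂ) (x0, (w : ℂ)) < δ := by
    intro δ hδ
    obtain ⟨v, hv, hd⟩ := SHGlueB_point hs x0 w (min (min ε' τ) δ)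
      (lt_min (lt_min hε' hτ) hδ) ((min_le_left _ _).trans (min_le_right _ _)) (τ := τ)
    exact ⟨v, hv, (hmem _).2 ⟨hd.trans_le ((min_le_left _ _).trans (min_le_left _ _)), hv⟩,
      hd.trans_le (min_le_right _ _)⟩
  have hGA : ∀ z ∈ A, z.2 ∈ D.H ∧ D.l z.1 < ‖G z‖ ^ e ∧ D.R 0 z.1 (G z ^ e) = z.2 := by
    intro z hz
    obtain ⟨hz1, hz2⟩ := (hmem z).1 hz
    exact ⟨hH hz2, hball (hz1.trans_le hε'ε₁), (hG z (hz1.trans_le hε'ε)).2.2.2.2.1⟩
  obtain ⟨v1, hv1, hz1, -⟩ := hsmall 1 one_pos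
  obtain ⟨j, hj⟩ := S.exh x0 v1 (G (x0, v1)) hv1 (hGA _ hz1).2.1 (hGA _ hz1).2.2
  have hAU : A ⊆ univ ×ˢ Us s τ := fun z hz => ⟨mem_univ _, hKU ((hmem z).1 hz).2⟩
  have hEq : EqOn (fun z : V2 × ℂ => S.P j z.1 z.2) G A := by
    refine D.sec_unique e he hAconv.isPreconnected ((S.cont j).mono hAU) (fun z hz =>
      (hGc z (((hmem z).1 hz).1.trans_le hε'ε)).continuousWithinAt) (fun z hz => ?_) hGA hz1 hj
    have hz2 := ((hmem z).1 hz).2
    exact ⟨hH hz2, S.lt j z.1 z.2 hz2, S.root j z.1 z.2 (hKU hz2)⟩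
  have hclo : (x0, (w : ℂ)) ∈ closure A := by
    rw [Metric.mem_closure_iff]
    intro δ hδ
    obtain ⟨v, -, hvA, hvd⟩ := hsmall δ hδ
    exact ⟨(x0, v), hvA, by rwa [dist_comm]⟩
  have hval : S.P j x0 (w : ℂ) = y := by
    have hne : (nhdsWithin (x0, (w : ℂ)) A).NeBot := mem_closure_iff_nhdsWithin_neBot.1 hclo
    have t1 : Filter.Tendsto (fun z : V2 × ℂ => S.P j z.1 z.2) (nhdsWithin (x0, (w : ℂ)) A)
        (nhds (S.P j x0 (w : ℂ))) :=
      ((S.cont j) (x0, (w : ℂ)) ⟨mem_univ _, hwU⟩).mono hAU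
    have t2 : Filter.Tendsto G (nhdsWithin (x0, (w : ℂ)) A) (nhds y) := by
      have := hGc0.tendsto
      rw [hG0] at this
      exact this.mono_left nhdsWithin_le_nhds
    have t3 : Filter.Tendsto (fun z : V2 × ℂ => S.P j z.1 z.2) (nhdsWithin (x0, (w : ℂ)) A)
        (nhds y) := by
      refine t2.congr' ?_
      filter_upwards [self_mem_nhdsWithin] with z hz
      exact (hEq hz).symm
    exact tendsto_nhds_unique t1 t3
  refine ⟨j, hval, fun i hi => ?_⟩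
  obtain ⟨δ, hδ, hloc⟩ := eq_loc he S i x0 (w : ℂ) hwU G ε η hε hη (fun z hz P hP hR => by
    rw [hi] at hP
    exact (hG z hz).2.2.2.2.2 P hP hR)
  obtain ⟨v, hv, hvA, hvd⟩ := hsmall δ hδ
  refine S.inj x0 v i j hv ?_
  have h2 := hloc (x0, v) hvd (hKU hv)
  have h3 := hEq hvA
  exact h2.trans h3.symm

end Sh

end Pool.W4b1b5d.SH
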