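import Pool.Agent.W_4b1b5d_h66.SHDefs

set_option autoImplicit false

namespace Pool.W4b1b5d.SH

open Pool.W4b1b5d.H3 Polynomial Set

/-- Closed half strip (`s = 1` or `s = -1`): `0 ≤ s Im v < τ`. -/
def Us (s τ : ℝ) : Set ℂ := {v | 0 ≤ s * v.im ∧ s * v.im < τ}

/-- Open half strip: `0 < s Im v < τ`. -/
def Ks (s τ : ℝ) : Set ℂ := {v | 0 < s * v.im ∧ s * v.im < τ}

end Pool.W4b1b5d.SH
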