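import Pool.Agent.W_4b1b5d_h66.SHBasic
import Pool.Agent.W_4b1b5d_h66.SHPoly
import Pool.Agent.W_4b1b5d_h66.SHUK

set_option autoImplicit false

namespace Pool.W4b1b5d.SH

open Pool.W4b1b5d.H3 Polynomial Set

namespace PD

theorem SHHol_poly (D : PD) (x : V2) (e : ℕ) (he : 1 ≤ e) (v : ℂ) :
    ((D.pol x).comp (X ^ e) - C v * X ^ (e * D.M)).natDegree = 2 * e * D.M ∧
    ((D.pol x).comp (X ^ e) - C v * X ^ (e * D.M)).leadingCoeff = D.a := by
  obtain ⟨hd, hl⟩ := D.pol_deg x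
  have hM := D.hM
  have heM : 0 < e * D.M := Nat.mul_pos he hM
  have h1 : ((D.pol x).comp (X ^ e)).natDegree = 2 * e * D.M := by
    rw [natDegree_comp, hd, natDegree_X_pow]
    ring
  have h2 : (C v * X ^ (e * D.M)).natDegree ≤ e * D.M := natDegree_C_mul_X_pow_le _ _
  have h3 : (C v * X ^ (e * D.M)).natDegree < ((D.pol x).comp (X ^ e)).natDegree := by
    rw [h1]
    calc (C v * X ^ (e * D.M)).natDegree ≤ e * D.M := h2
      _ < 2 * e * D.M := by
        rw [mul_assoc]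
        omega
  refine ⟨(natDegree_sub_eq_left_of_natDegree_lt h3).trans h1, ?_⟩
  rw [leadingCoeff_sub_of_degree_lt (degree_lt_degree h3),
    leadingCoeff_comp (by rw [natDegree_X_pow]; omega), leadingCoeff_X_pow, one_pow, mul_one, hl]

/-- TASK SHStrip (5).  Hölder continuity in `v`, uniformly in `x`.  On the segment `[v,v']` the
curve `γ` of solutions satisfies `‖R(x,γ^e) - v‖ ≤ ‖v - v'‖`, so the polynomial
`g(P) = (pol x)(P^e) - v P^(eM)` (degree `2eM`, leading coefficient `a`) satisfies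
`‖g(γ)‖ ≤ ‖v - v'‖ ‖γ‖^(eM) ≤ C ‖v - v'‖` (`R_bound`), and `root_path` applies. -/
theorem sec_holder (D : PD) (e : ℕ) (he : 1 ≤ e) (s τ : ℝ) (hs : s = 1 ∨ s = -1) (ρ : ℝ) :
    ∃ C : ℝ, 0 < C ∧ ∀ (x : V2) (q : ℂ → ℂ), ContinuousOn q (Ks s τ) →
      (∀ v ∈ Ks s τ, D.l x < ‖q v‖ ^ e ∧ D.R 0 x (q v ^ e) = v) →
      ∀ v v', v ∈ Ks s τ → v' ∈ Ks s τ → ‖v‖ ≤ ρ → ‖v'‖ ≤ ρ →
        ‖q v - q v'‖ ^ (2 * e * D.M) ≤ C * ‖v - v'‖ := by
  obtain ⟨CR, hCR, hR, _⟩ := D.R_bound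
  have hM := D.hM
  have ha : 0 < ‖D.a‖ := norm_pos_iff.2 D.ha
  have hn : 0 < 2 * e * D.M := Nat.mul_pos (by omega) hM
  obtain ⟨K, hK⟩ : ∃ K, K = (CR * (1 + |ρ|)) ^ D.M / ‖D.a‖ := ⟨_, rfl⟩
  have hK0 : 0 < K := by
    rw [hK]
    have := abs_nonneg ρ
    positivity
  have hn' : (0 : ℝ) < 2 * ((2 * e * D.M : ℕ) : ℝ) := by
    have : (0 : ℝ) < ((2 * e * D.M : ℕ) : ℝ) := by exact_mod_cast hn
    linarith
  refine ⟨(2 * ((2 * e * D.M : ℕ) : ℝ)) ^ (2 * e * D.M) * K, mul_pos (pow_pos hn' _) hK0, ?_⟩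
  intro x q hq hqR v v' hv hv' hρ hρ'
  obtain ⟨hgd, hgl⟩ := SHHol_poly D x e he v
  -- the segment
  have hseg : ∀ t ∈ Icc (0 : ℝ) 1, v + (t : ℂ) * (v' - v) ∈ Ks s τ := by
    intro t ht
    have him : (v + (t : ℂ) * (v' - v)).im = (1 - t) * v.im + t * v'.im := by
      simp only [Complex.add_im, Complex.mul_im, Complex.ofReal_re, Complex.ofReal_im,
        Complex.sub_im, Complex.sub_re, zero_mul, add_zero]
      ring
    obtain ⟨a1, a2⟩ := hv
    obtain ⟨b1, b2⟩ := hv'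
    have ht0 := ht.1
    have ht1 := ht.2
    have hmul : s * (v + (t : ℂ) * (v' - v)).im = (1 - t) * (s * v.im) + t * (s * v'.im) := by
      rw [him]
      ring
    constructor
    · rw [hmul]
      rcases eq_or_lt_of_le ht0 with h | h
      · rw [← h]
        linarith
      · have h1 := mul_pos h b1
        have h2 := mul_nonneg (sub_nonneg.2 ht1) a1.le
        linarith
    · rw [hmul]
      rcases eq_or_lt_of_le ht0 with h | h
      · rw [← h]
        linarith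
      · have h1 := mul_lt_mul_of_pos_left b2 h
        have h2 := mul_le_mul_of_nonneg_left a2.le (sub_nonneg.2 ht1)
        linarith
  have hnorm : ∀ t ∈ Icc (0 : ℝ) 1, ‖v + (t : ℂ) * (v' - v)‖ ≤ |ρ| := by
    intro t ht
    have h1 : v + (t : ℂ) * (v' - v) = ((1 - t : ℝ) : ℂ) * v + (t : ℂ) * v' := by
      push_cast
      ring
    have h2 : ‖((1 - t : ℝ) : ℂ) * v‖ = (1 - t) * ‖v‖ := by
      rw [norm_mul, Complex.norm_real, Real.norm_of_nonneg (sub_nonneg.2 ht.2)]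
    have h3 : ‖(t : ℂ) * v'‖ = t * ‖v'‖ := by
      rw [norm_mul, Complex.norm_real, Real.norm_of_nonneg ht.1]
    rw [h1]
    refine (norm_add_le _ _).trans ?_
    rw [h2, h3]
    have h4 := mul_le_mul_of_nonneg_left (hρ.trans (le_abs_self ρ)) (sub_nonneg.2 ht.2)
    have h5 := mul_le_mul_of_nonneg_left (hρ'.trans (le_abs_self ρ)) ht.1
    linarith
  have hγ : ContinuousOn (fun t : ℝ => q (v + (t : ℂ) * (v' - v))) (Icc 0 1) := by
    apply hq.comp
    · exact (by fun_prop : Continuous fun t : ℝ => v + (t : ℂ) * (v' - v)).continuousOn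
    · intro t ht
      exact hseg t ht
  obtain ⟨δ, hδ⟩ : ∃ δ, δ = (K * ‖v - v'‖) ^ ((1 : ℝ) / ((2 * e * D.M : ℕ) : ℝ)) := ⟨_, rfl⟩
  have hKv : 0 ≤ K * ‖v - v'‖ := mul_nonneg hK0.le (norm_nonneg _)
  have hδ0 : 0 ≤ δ := by
    rw [hδ]
    exact Real.rpow_nonneg hKv _
  have hδn : δ ^ (2 * e * D.M) = K * ‖v - v'‖ := by
    rw [hδ, one_div]
    exact Real.rpow_inv_natCast_pow hKv hn.ne'
  have hmain := root_path ((D.pol x).comp (X ^ e) - C v * X ^ (e * D.M)) (by rw [hgd]; exact hn)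
    hγ hδ0 (by
      intro t ht
      rw [hgd, hgl, hδn]
      obtain ⟨w, hw⟩ : ∃ w, w = v + (t : ℂ) * (v' - v) := ⟨_, rfl⟩
      have hwK : w ∈ Ks s τ := by rw [hw]; exact hseg t ht
      obtain ⟨h1, h2⟩ := hqR w hwK
      have hPe : ‖q w ^ e‖ = ‖q w‖ ^ e := norm_pow _ _
      have hY0 : q w ^ e ≠ 0 := by
        rw [← norm_pos_iff, hPe]
        exact (D.lpos x).trans h1
      have h3 := D.R_pol x hY0
      rw [h2] at h3
      have h4 : ((D.pol x).comp (X ^ e) - C v * X ^ (e * D.M)).eval (q w) =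
          (w - v) * (q w ^ e) ^ D.M := by
        rw [eval_sub, eval_comp, eval_mul, eval_C, eval_pow, eval_pow, eval_X, ← h3, pow_mul]
        ring
      show ‖((D.pol x).comp (X ^ e) - C v * X ^ (e * D.M)).eval (q (v + (t : ℂ) * (v' - v)))‖ ≤ _
      rw [← hw, h4, norm_mul, norm_pow]
      have h5 : ‖w - v‖ ≤ ‖v - v'‖ := by
        have h6 : w - v = (t : ℂ) * (v' - v) := by rw [hw]; ring
        rw [h6, norm_mul, Complex.norm_real, Real.norm_of_nonneg ht.1, norm_sub_rev v' v]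
        exact mul_le_of_le_one_left (norm_nonneg _) ht.2
      have h7 : ‖q w ^ e‖ ≤ CR * (1 + |ρ|) := by
        have h8 := hR x (q w ^ e) (by rw [hPe]; exact h1.le)
        rw [h2] at h8
        refine h8.trans (mul_le_mul_of_nonneg_left ?_ hCR.le)
        have h9 := hnorm t ht
        rw [← hw] at h9
        linarith
      have h10 : ‖q w ^ e‖ ^ D.M ≤ (CR * (1 + |ρ|)) ^ D.M :=
        pow_le_pow_left₀ (norm_nonneg _) h7 _
      have h11 : ‖D.a‖ * (K * ‖v - v'‖) = ‖v - v'‖ * (CR * (1 + |ρ|)) ^ D.M := by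
        rw [hK]
        field_simp
      rw [h11]
      exact mul_le_mul h5 h10 (pow_nonneg (norm_nonneg _) _) (norm_nonneg _))
  rw [hgd] at hmain
  simp only [Complex.ofReal_one, one_mul, Complex.ofReal_zero, zero_mul, add_zero,
    add_sub_cancel] at hmain
  rw [norm_sub_rev] at hmain
  calc ‖q v - q v'‖ ^ (2 * e * D.M)
      ≤ (2 * ((2 * e * D.M : ℕ) : ℝ) * δ) ^ (2 * e * D.M) :=
        pow_le_pow_left₀ (norm_nonneg _) hmain _
    _ = (2 * ((2 * e * D.M : ℕ) : ℝ)) ^ (2 * e * D.M) * K * ‖v - v'‖ := by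
        rw [mul_pow, hδn]
        ring

end PD

end Pool.W4b1b5d.SH
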