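import Pool.Agent.W_4b1b5d_h66.SHBasic

set_option autoImplicit false

namespace Pool.W4b1b5d.SH

open Pool.W4b1b5d.H3 Polynomial Set

namespace PD

theorem SHLocB_congr (a : Fin 2 → ℂ) {f g : V2 → ℂ} {x : V2} (h : f =ᶠ[nhds x] g) :
    dd a f x = dd a g x := by
  unfold dd
  rw [h.fderiv_eq]

/-- TASK SHLoc (2).  Derivative of a solution in `x`-directions: chain rule `Branch_chain` for
`y ↦ R(y, q(y)^e)` (locally constant), `dd (q^e) = e q^(e-1) dd q`. -/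
theorem sol_dd (D : PD) (e : ℕ) (he : 1 ≤ e) (b : Fin 2 → ℂ) {q : V2 → ℂ} {x : V2}
    (hq : DifferentiableAt ℝ q x) (hne : q x ≠ 0) (v : ℂ)
    (hloc : ∀ᶠ y in nhds x, D.R 0 y (q y ^ e) = v) :
    (e : ℂ) * q x ^ (e - 1) * D.R 1 x (q x ^ e) * dd b q x
      + LB D.M (fun j => dd b (D.B j)) 0 x (q x ^ e) = 0 := by
  have hp : DifferentiableAt ℝ (fun y => q y ^ e) x := hq.pow e
  have h1 := Branch_chain b D.M (fun j : ℕ => D.B ((j : ℤ) - D.M)) (fun j => D.Bsm _) 0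
    (q := fun y => q y ^ e) hp (pow_ne_zero e hne)
  have h2 : dd b (fun y => Lk D.M (fun j : ℕ => D.B ((j : ℤ) - D.M) y) 0 (q y ^ e)) x = 0 := by
    exact (SHLocB_congr b (g := fun _ => v) hloc).trans (BetaA_const b v x)
  rw [h2, dd_pow b hq e] at h1
  have h3 : D.R 1 x (q x ^ e) = Lk D.M (fun j : ℕ => D.B ((j : ℤ) - D.M) x) (0 + 1) (q x ^ e) := rfl
  have h4 : LB D.M (fun j => dd b (D.B j)) 0 x (q x ^ e) =
      Lk D.M (fun j : ℕ => dd b (D.B ((j : ℤ) - D.M)) x) 0 (q x ^ e) := rfl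
  rw [h3, h4]
  linear_combination -h1

/-- TASK SHLoc (3).  The transport equation for a solution `Y` of `R(x,Y(x)) = v`:
`db Y + (l/Y) dd Y = 2 dd l`.  From `sol_dd` (`e = 1`) and `transR`. -/
theorem sol_Y (D : PD) {Y : V2 → ℂ} {x : V2} (hY : DifferentiableAt ℝ Y x) (hne : Y x ≠ 0)
    (v : ℂ) (hloc : ∀ᶠ y in nhds x, D.R 0 y (Y y) = v) (h1 : D.R 1 x (Y x) ≠ 0) :
    dd (cj D.al) Y x + (D.l x : ℂ) / Y x * dd D.al Y x = 2 * ddr D.al D.l x := by
  have hloc' : ∀ᶠ y in nhds x, D.R 0 y (Y y ^ 1) = v := by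
    filter_upwards [hloc] with y hy
    rw [pow_one]
    exact hy
  have e1 := D.sol_dd 1 le_rfl D.al hY hne v hloc'
  have e2 := D.sol_dd 1 le_rfl (cj D.al) hY hne v hloc'
  rw [pow_one, Nat.sub_self, pow_zero, Nat.cast_one, one_mul, one_mul] at e1 e2
  have e3 := D.transR x hne
  have e4 : D.R1 0 x (Y x) = LB D.M (fun j => dd D.al (D.B j)) 0 x (Y x) := rfl
  have e5 : D.R2 0 x (Y x) = LB D.M (fun j => dd (cj D.al) (D.B j)) 0 x (Y x) := rfl
  rw [e4, e5] at e3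
  have e6 : D.R 1 x (Y x) * (dd (cj D.al) Y x + (D.l x : ℂ) / Y x * dd D.al Y x) =
      D.R 1 x (Y x) * (2 * ddr D.al D.l x) := by
    linear_combination ((D.l x : ℂ) / Y x) * e1 + e2 - e3
  exact mul_left_cancel₀ h1 e6

/-- TASK SHLoc (4).  Closedness of `P dw + (l/P) dwbar` for a solution of `R(x,P(x)^2) = v`. -/
theorem sol_closed (D : PD) {P : V2 → ℂ} {x : V2} (hP : DifferentiableAt ℝ P x) (hne : P x ≠ 0)
    (v : ℂ) (hloc : ∀ᶠ y in nhds x, D.R 0 y (P y ^ 2) = v) (h1 : D.R 1 x (P x ^ 2) ≠ 0) :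
    dd (cj D.al) P x = dd D.al (fun y => (D.l y : ℂ) / P y) x := by
  have hY : DifferentiableAt ℝ (fun y => P y ^ 2) x := hP.pow 2
  have e1 := D.sol_Y hY (pow_ne_zero 2 hne) v hloc h1
  rw [dd_pow _ hP 2, dd_pow _ hP 2] at e1
  have hh : DifferentiableAt ℝ (fun y => (D.l y : ℂ) / P y) x := by
    have h3 : DifferentiableAt ℝ (fun y => (D.l y : ℂ) * (P y)⁻¹) x :=
      (BetaA_diff D.lsm x).mul (hP.inv hne)
    simpa only [div_eq_mul_inv] using h3
  have hne' : ∀ᶠ y in nhds x, P y ≠ 0 := hP.continuousAt.eventually_ne hne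
  have e2 : ddr D.al D.l x = dd D.al (fun y => (D.l y : ℂ) / P y * P y) x := by
    unfold ddr
    refine SHLocB_congr _ ?_
    filter_upwards [hne'] with y hy
    rw [div_mul_cancel₀ _ hy]
  rw [dd_mul _ hh hP] at e2
  have e3 : P x * dd (cj D.al) P x = P x * dd D.al (fun y => (D.l y : ℂ) / P y) x := by
    rw [e2] at e1
    have e4 : (2 : ℕ) - 1 = 1 := rfl
    rw [e4, pow_one] at e1
    push_cast at e1
    have e5 : (D.l x : ℂ) / P x ^ 2 * (2 * P x * dd D.al P x) =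
        2 * ((D.l x : ℂ) / P x * dd D.al P x) := by
      field_simp
    rw [e5] at e1
    linear_combination e1 / 2
  exact mul_left_cancel₀ hne e3

/-- TASK SHLoc (5).  Derivative in `v`: `HasDerivAt` with `1 / (e P^(e-1) R_Y)`. Differentiable
because `q` is the local inverse of the holomorphic function `P ↦ R(x,P^e)`
(`HasDerivAt.of_local_left_inverse`). -/
theorem sol_dv (D : PD) (e : ℕ) (he : 1 ≤ e) (x : V2) {q : ℂ → ℂ} {v : ℂ}
    (hq : ContinuousAt q v) (hne : q v ≠ 0) (hloc : ∀ᶠ w in nhds v, D.R 0 x (q w ^ e) = w)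
    (h1 : D.R 1 x (q v ^ e) ≠ 0) :
    HasDerivAt q (((e : ℂ) * q v ^ (e - 1) * D.R 1 x (q v ^ e))⁻¹) v := by
  have hpow : HasDerivAt (fun P : ℂ => P ^ e) ((e : ℂ) * q v ^ (e - 1)) (q v) := hasDerivAt_pow e _
  have hR : HasDerivAt (fun y => D.R 0 x y) (D.R 1 x (q v ^ e)) (q v ^ e) :=
    D.R_hasDerivAt 0 x (pow_ne_zero e hne)
  have hf : HasDerivAt (fun P : ℂ => D.R 0 x (P ^ e))
      ((e : ℂ) * q v ^ (e - 1) * D.R 1 x (q v ^ e)) (q v) := by
    have h2 := HasDerivAt.comp (q v) (h₂ := fun y => D.R 0 x y) (h := fun P : ℂ => P ^ e) hR hpow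
    refine h2.congr_deriv ?_
    ring
  have he0 : (e : ℂ) ≠ 0 := Nat.cast_ne_zero.2 (by omega)
  exact HasDerivAt.of_local_left_inverse hq hf
    (mul_ne_zero (mul_ne_zero he0 (pow_ne_zero _ hne)) h1) hloc

end PD

end Pool.W4b1b5d.SH
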