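import Pool.Agent.W_4b1b5d_h66.SHLocA
import Pool.Agent.W_4b1b5d_h66.SHLocB
import Pool.Agent.W_4b1b5d_h66.SHLocC
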