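import Pool.Agent.W_4b1b5d_h66.SHBasic

set_option autoImplicit false

namespace Pool.W4b1b5d.SH

open Pool.W4b1b5d.H3 Polynomial Set

namespace PD

/-- The equation to solve. -/
noncomputable def SHLocA_f (D : PD) (e : ℕ) (v : (V2 × ℂ) × ℂ) : ℂ := D.R 0 v.1.1 (v.2 ^ e) - v.1.2

theorem SHLocA_cd (D : PD) (e : ℕ) {v : (V2 × ℂ) × ℂ} (hv : v.2 ≠ 0) :
    ContDiffAt ℝ (⊤ : ℕ∞) (SHLocA_f D e) v := by
  have hz : ((v.1.1, v.2 ^ e) : V2 × ℂ).2 ≠ 0 := pow_ne_zero e hv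
  have h1 := R_smooth D 0 hz
  have h2 : ContDiffAt ℝ (⊤ : ℕ∞) (fun v : (V2 × ℂ) × ℂ => ((v.1.1, v.2 ^ e) : V2 × ℂ)) v :=
    contDiffAt_fst.fst.prodMk (contDiffAt_snd.pow e)
  have h3 : ContDiffAt ℝ (⊤ : ℕ∞) ((fun z : V2 × ℂ => D.R 0 z.1 z.2) ∘
      (fun v : (V2 × ℂ) × ℂ => ((v.1.1, v.2 ^ e) : V2 × ℂ))) v := ContDiffAt.comp v h1 h2
  exact h3.sub contDiffAt_fst.snd

theorem SHLocA_inr (D : PD) (e : ℕ) {v : (V2 × ℂ) × ℂ} (hv : v.2 ≠ 0) :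
    fderiv ℝ (SHLocA_f D e) v ∘L ContinuousLinearMap.inr ℝ (V2 × ℂ) ℂ
      = ContinuousLinearMap.mul ℝ ℂ (D.R 1 v.1.1 (v.2 ^ e) * (e * v.2 ^ (e - 1))) := by
  have h1 : HasFDerivAt (fun q : ℂ => (v.1, q)) (ContinuousLinearMap.inr ℝ (V2 × ℂ) ℂ) v.2 :=
    hasFDerivAt_prodMk_right v.1 v.2
  have h2 : HasFDerivAt (SHLocA_f D e) (fderiv ℝ (SHLocA_f D e) v) (v.1, v.2) :=
    ((SHLocA_cd D e hv).differentiableAt (by simp)).hasFDerivAt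
  have h3 := HasFDerivAt.comp v.2 h2 h1
  have h0 : HasDerivAt (fun q : ℂ => q ^ e) (e * v.2 ^ (e - 1)) v.2 := hasDerivAt_pow e v.2
  have h4 : HasDerivAt (fun q : ℂ => D.R 0 v.1.1 (q ^ e) - v.1.2)
      (D.R 1 v.1.1 (v.2 ^ e) * (e * v.2 ^ (e - 1))) v.2 :=
    (HasDerivAt.comp v.2 (R_hasDerivAt D 0 v.1.1 (pow_ne_zero e hv)) h0).sub_const _
  have h5 := h4.hasFDerivAt.restrictScalars ℝ
  have h6 : ((SHLocA_f D e) ∘ fun q : ℂ => (v.1, q)) =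
      fun q => D.R 0 v.1.1 (q ^ e) - v.1.2 := rfl
  rw [h6] at h3
  rw [h3.unique h5]
  ext w
  simp [mul_comm]

theorem SHLocA_invert (D : PD) (e : ℕ) (he : 1 ≤ e) {v : (V2 × ℂ) × ℂ} (hv : v.2 ≠ 0)
    (h1 : D.R 1 v.1.1 (v.2 ^ e) ≠ 0) :
    (fderiv ℝ (SHLocA_f D e) v ∘L ContinuousLinearMap.inr ℝ (V2 × ℂ) ℂ).IsInvertible := by
  have he' : (e : ℂ) ≠ 0 := by
    have : e ≠ 0 := by omega
    exact_mod_cast this
  have ha : D.R 1 v.1.1 (v.2 ^ e) * (e * v.2 ^ (e - 1)) ≠ 0 :=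
    mul_ne_zero h1 (mul_ne_zero he' (pow_ne_zero _ hv))
  rw [SHLocA_inr D e hv]
  obtain ⟨c, hc⟩ : ∃ c : ℂ, c = D.R 1 v.1.1 (v.2 ^ e) * (e * v.2 ^ (e - 1)) := ⟨_, rfl⟩
  rw [← hc] at ha ⊢
  refine ContinuousLinearMap.IsInvertible.of_inverse
    (g := ContinuousLinearMap.mul ℝ ℂ c⁻¹) ?_ ?_
  · ext w
    simp [ha]
  · ext w
    simp [ha]

/-- A continuous solution is smooth. -/
theorem SHLocA_smooth (D : PD) (e : ℕ) (he : 1 ≤ e) {q : V2 × ℂ → ℂ} {z : V2 × ℂ}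
    (hq : ContinuousAt q z) (hne : q z ≠ 0) (hloc : ∀ᶠ y in nhds z, D.R 0 y.1 (q y ^ e) = y.2)
    (h1 : D.R 1 z.1 (q z ^ e) ≠ 0) : ContDiffAt ℝ (⊤ : ℕ∞) q z := by
  have hv : ((z, q z) : (V2 × ℂ) × ℂ).2 ≠ 0 := hne
  have hcd := SHLocA_cd D e hv
  have hinv := SHLocA_invert D e he hv h1
  have htop : (((⊤ : ℕ∞) : WithTop ℕ∞)) ≠ 0 := by simp
  have e1 := hcd.eventually_apply_eq_iff_implicitFunction htop hinv
  have h0 : SHLocA_f D e (z, q z) = 0 := sub_eq_zero.2 hloc.self_of_nhds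
  rw [h0] at e1
  have ht : Filter.Tendsto (fun y => ((y, q y) : (V2 × ℂ) × ℂ)) (nhds z) (nhds (z, q z)) :=
    (continuousAt_id.prodMk hq)
  have e2 := ht.eventually e1
  have e3 : q =ᶠ[nhds z] hcd.implicitFunction htop hinv := by
    filter_upwards [e2, hloc] with y hy1 hy2
    exact (hy1.1 (sub_eq_zero.2 hy2)).symm
  exact (hcd.contDiffAt_implicitFunction htop hinv).congr_of_eventuallyEq e3

/-- TASK SHLoc (1).  Local inverse.  The function `f(x,P) = R(x,P^e)` is smooth near `(x0,P0)`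
(`R_smooth`, `P0 ≠ 0`) with partial derivative `e P^(e-1) R_Y(x,P^e)` in `P`, not zero at `(x0,P0)`.
Implicit function theorem for `f(x,P) - v = 0` in `(V2 × ℂ) × ℂ` (see `H3.branch` for the Mathlib
function `ContDiffAt.implicitFunction`), or inverse function theorem for
`(x,P) ↦ (x, f(x,P))` (`ContDiffAt.toOpenPartialHomeomorph`, `ContDiffAt.to_localInverse`). -/
theorem loc_inv (D : PD) (e : ℕ) (he : 1 ≤ e) (x0 : V2) (P0 : ℂ) (hP : P0 ≠ 0)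
    (h1 : D.R 1 x0 (P0 ^ e) ≠ 0) :
    ∃ (G : V2 × ℂ → ℂ) (ε η : ℝ), 0 < ε ∧ 0 < η ∧ G (x0, D.R 0 x0 (P0 ^ e)) = P0 ∧
      (∀ z, dist z (x0, D.R 0 x0 (P0 ^ e)) < ε → ContDiffAt ℝ (⊤ : ℕ∞) G z ∧ dist (G z) P0 < η ∧
        G z ≠ 0 ∧ D.R 1 z.1 (G z ^ e) ≠ 0 ∧ D.R 0 z.1 (G z ^ e) = z.2 ∧
        ∀ P, dist P P0 < η → D.R 0 z.1 (P ^ e) = z.2 → P = G z) := by
  obtain ⟨z0, hz0⟩ : ∃ z0 : V2 × ℂ, z0 = (x0, D.R 0 x0 (P0 ^ e)) := ⟨_, rfl⟩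
  have hz1 : z0.1 = x0 := by rw [hz0]
  have hz2 : z0.2 = D.R 0 x0 (P0 ^ e) := by rw [hz0]
  rw [← hz0]
  have hv : ((z0, P0) : (V2 × ℂ) × ℂ).2 ≠ 0 := hP
  have h1' : D.R 1 ((z0, P0) : (V2 × ℂ) × ℂ).1.1 (((z0, P0) : (V2 × ℂ) × ℂ).2 ^ e) ≠ 0 := by
    show D.R 1 z0.1 (P0 ^ e) ≠ 0
    rw [hz1]
    exact h1
  have hcd : ContDiffAt ℝ 1 (SHLocA_f D e) (z0, P0) :=
    (SHLocA_cd D e hv).of_le (by exact_mod_cast le_top)
  have hinv := SHLocA_invert D e he hv h1'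
  have e1 := hcd.eventually_apply_eq_iff_implicitFunction one_ne_zero hinv
  have e0 := hcd.eventually_apply_implicitFunction one_ne_zero hinv
  have e3 := hcd.implicitFunction_apply_self one_ne_zero hinv
  have e4 := hcd.contDiffAt_implicitFunction one_ne_zero hinv
  have h0 : SHLocA_f D e (z0, P0) = 0 := by
    refine sub_eq_zero.2 ?_
    show D.R 0 z0.1 (P0 ^ e) = z0.2
    rw [hz1, hz2]
  rw [h0] at e1 e0
  obtain ⟨G, hG⟩ : ∃ G : V2 × ℂ → ℂ, G = hcd.implicitFunction one_ne_zero hinv := ⟨_, rfl⟩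
  rw [← hG] at e1 e0 e3 e4
  have e3' : G z0 = P0 := e3
  have e4' : ContDiffAt ℝ 1 G z0 := e4
  have hcont : ContinuousAt G z0 := e4'.continuousAt
  -- the neighbourhood for uniqueness
  obtain ⟨η, hη, h5⟩ := Metric.eventually_nhds_iff.mp e1
  -- the neighbourhood for the other properties
  have f1 : ∀ᶠ z in nhds z0, dist (G z) P0 < η := by
    have h6 := hcont.eventually (Metric.ball_mem_nhds (G z0) hη)
    rw [e3'] at h6
    exact h6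
  have f2 : ∀ᶠ z in nhds z0, G z ≠ 0 := by
    refine hcont.eventually_ne ?_
    rw [e3']
    exact hP
  have f3 : ∀ᶠ z in nhds z0, D.R 1 z.1 (G z ^ e) ≠ 0 := by
    have h6 : ContinuousAt (fun z : V2 × ℂ => D.R 1 z.1 z.2) (z0.1, G z0 ^ e) := by
      refine (R_smooth D 1 ?_).continuousAt
      rw [e3']
      exact pow_ne_zero e hP
    have h7 : ContinuousAt (fun z : V2 × ℂ => ((z.1, G z ^ e) : V2 × ℂ)) z0 :=
      continuousAt_fst.prodMk (hcont.pow e)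
    have h8 : ContinuousAt ((fun z : V2 × ℂ => D.R 1 z.1 z.2) ∘
        (fun z : V2 × ℂ => ((z.1, G z ^ e) : V2 × ℂ))) z0 := ContinuousAt.comp h6 h7
    refine h8.eventually_ne ?_
    show D.R 1 z0.1 (G z0 ^ e) ≠ 0
    rw [e3', hz1]
    exact h1
  have f4 : ∀ᶠ z in nhds z0, D.R 0 z.1 (G z ^ e) = z.2 := by
    have h6 : ∀ᶠ z in nhds z0, SHLocA_f D e (z, G z) = 0 := e0
    filter_upwards [h6] with z hz
    exact sub_eq_zero.1 hz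
  have f5 : ∀ᶠ z in nhds z0, ContinuousAt G z := by
    filter_upwards [e4'.eventually (by simp)] with z hz
    exact hz.continuousAt
  obtain ⟨ε, hε, h9⟩ := Metric.eventually_nhds_iff.mp (f1.and (f2.and (f3.and (f4.and f5))))
  refine ⟨G, min ε η, η, lt_min hε hη, hη, e3', fun z hz => ?_⟩
  have hzε : dist z z0 < ε := hz.trans_le (min_le_left _ _)
  have hzη : dist z z0 < η := hz.trans_le (min_le_right _ _)
  obtain ⟨g1, g2, g3, g4, g5⟩ := h9 hzε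
  refine ⟨?_, g1, g2, g3, g4, fun P hP1 hP2 => ?_⟩
  · refine SHLocA_smooth D e he g5 g2 ?_ g3
    have h10 : ∀ᶠ y in nhds z, dist y z0 < ε :=
      Metric.isOpen_ball.mem_nhds (Metric.mem_ball.2 hzε)
    filter_upwards [h10] with y hy
    exact (h9 hy).2.2.2.1
  · have h11 : dist ((z, P) : (V2 × ℂ) × ℂ) (z0, P0) < η := by
      rw [Prod.dist_eq]
      exact max_lt hzη hP1
    exact ((h5 h11).1 (sub_eq_zero.2 hP2)).symm

/-- TASK SHLoc (6).  A continuous solution is smooth.  From `loc_inv`. -/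
theorem sol_smooth (D : PD) (e : ℕ) (he : 1 ≤ e) {q : V2 × ℂ → ℂ} {z : V2 × ℂ}
    (hq : ContinuousAt q z) (hne : q z ≠ 0) (hloc : ∀ᶠ y in nhds z, D.R 0 y.1 (q y ^ e) = y.2)
    (h1 : D.R 1 z.1 (q z ^ e) ≠ 0) : ContDiffAt ℝ (⊤ : ℕ∞) q z :=
  SHLocA_smooth D e he hq hne hloc h1

end PD

end Pool.W4b1b5d.SH
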