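import Pool.Agent.W_4b1b5d_h66.SHAsyB
import Pool.Agent.W_4b1b5d_h66.SHCovD
import Pool.Agent.W_4b1b5d_h66.SHUK

set_option autoImplicit false

namespace Pool.W4b1b5d.SH

open Pool.W4b1b5d.H3 Polynomial Set

theorem SHPer_Ks_convex (s τ : ℝ) : Convex ℝ (Ks s τ) := by
  have e : Ks s τ = {v : ℂ | 0 < s * v.im} ∩ {v : ℂ | s * v.im < τ} := rfl
  rw [e]
  have hl : IsLinearMap ℝ (fun v : ℂ => s * v.im) :=
    { map_add := fun x y => by simp [mul_add]
      map_smul := fun c x => by simp; ring }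
  exact (convex_halfSpace_gt hl 0).inter (convex_halfSpace_lt hl τ)

namespace PD

/-- TASK SHStrip (4).  Continuous solutions over `V2 × (strip)` are periodic: apply `loop_close` at one
`v` in the strip with large real part to `γ t = q (x + t k, v)` and then `sec_unique` to `q` and
`(x,v) ↦ q (x + k, v)`. -/
theorem sec_per (D : PD) (e : ℕ) (he : 1 ≤ e) (s τ : ℝ) (hs : s = 1 ∨ s = -1) (hτ : 0 < τ)
    (hH : Ks s τ ⊆ D.H) (q : V2 → ℂ → ℂ)
    (hq : ContinuousOn (fun z : V2 × ℂ => q z.1 z.2) (univ ×ˢ Ks s τ))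
    (hr : ∀ x v, v ∈ Ks s τ → D.l x < ‖q x v‖ ^ e ∧ D.R 0 x (q x v ^ e) = v) :
    ∀ v ∈ Ks s τ, Per (fun x => q x v) := by
  obtain ⟨ρ, hρ, hloop⟩ := D.loop_close e he
  have hss : s * s = 1 := by rcases hs with h | h <;> rw [h] <;> norm_num
  set v1 : ℂ := ⟨ρ, s * (τ / 2)⟩ with hv1
  have hv1K : v1 ∈ Ks s τ := by
    have e1 : s * v1.im = τ / 2 := by
      change s * (s * (τ / 2)) = τ / 2
      rw [← mul_assoc, hss, one_mul]
    refine ⟨?_, ?_⟩ <;> rw [e1] <;> linarith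
  have hv1n : ρ ≤ ‖v1‖ := (le_abs_self ρ).trans (Complex.abs_re_le_norm v1)
  intro v hv x k
  set K : V2 := fun i => (k i : ℝ) with hK
  have hstep : q (x + K) v1 = q x v1 := by
    have hγ : ContinuousOn (fun t : ℝ => q (x + t • K) v1) (Icc 0 1) := by
      have h1 : ContinuousOn (fun t : ℝ => ((x + t • K, v1) : V2 × ℂ)) (Icc 0 1) := by
        fun_prop
      exact hq.comp h1 (fun t _ => ⟨mem_univ _, hv1K⟩)
    have h2 := hloop x k v1 (fun t : ℝ => q (x + t • K) v1) hv1n hγ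
      (fun t _ => ⟨(hr _ v1 hv1K).1.le, (hr _ v1 hv1K).2⟩)
    simpa using h2
  have hA : IsPreconnected ((univ : Set V2) ×ˢ Ks s τ) :=
    (convex_univ.prod (SHPer_Ks_convex s τ)).isPreconnected
  have hq' : ContinuousOn (fun z : V2 × ℂ => q (z.1 + K) z.2) (univ ×ˢ Ks s τ) := by
    have h1 : ContinuousOn (fun z : V2 × ℂ => ((z.1 + K, z.2) : V2 × ℂ)) (univ ×ˢ Ks s τ) := by
      fun_prop
    exact hq.comp h1 (fun z hz => ⟨mem_univ _, hz.2⟩)
  have key := D.sec_unique e he hA (q := fun z : V2 × ℂ => q (z.1 + K) z.2)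
    (q' := fun z : V2 × ℂ => q z.1 z.2) hq' hq
    (fun z hz => by
      refine ⟨hH hz.2, ?_, ?_⟩
      · have h1 := (hr (z.1 + K) z.2 hz.2).1
        rwa [D.lper z.1 k] at h1
      · have h1 := (hr (z.1 + K) z.2 hz.2).2
        have h2 := D.R_per 0 (q (z.1 + K) z.2 ^ e) z.1 k
        exact h2.symm.trans h1)
    (fun z hz => ⟨hH hz.2, hr z.1 z.2 hz.2⟩)
    (z0 := (x, v1)) ⟨mem_univ _, hv1K⟩ hstep
  exact key (x := (x, v)) ⟨mem_univ _, hv⟩

end PD

end Pool.W4b1b5d.SH
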