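import Pool.Agent.W_4b1b5d_h66.SHStrip

set_option autoImplicit false

namespace Pool.W4b1b5d.SH

open Pool.W4b1b5d.H3 Polynomial Set

namespace PD

/-- uniqueness over `V2 × K` -/
theorem SHPerAll_unique (D : PD) (e : ℕ) (he : 1 ≤ e) {K : Set ℂ} (hK : Convex ℝ K)
    (hKH : K ⊆ D.H) (P Q : V2 → ℂ → ℂ)
    (hP : ContinuousOn (fun z : V2 × ℂ => P z.1 z.2) (univ ×ˢ K))
    (hQ : ContinuousOn (fun z : V2 × ℂ => Q z.1 z.2) (univ ×ˢ K))
    (rP : ∀ x v, v ∈ K → D.l x < ‖P x v‖ ^ e ∧ D.R 0 x (P x v ^ e) = v)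
    (rQ : ∀ x v, v ∈ K → D.l x < ‖Q x v‖ ^ e ∧ D.R 0 x (Q x v ^ e) = v)
    {x0 : V2} {v0 : ℂ} (hv0 : v0 ∈ K) (h0 : P x0 v0 = Q x0 v0) {x : V2} {v : ℂ} (hv : v ∈ K) :
    P x v = Q x v := by
  have hA : IsPreconnected ((univ : Set V2) ×ˢ K) := (convex_univ.prod hK).isPreconnected
  exact D.sec_unique e he hA hP hQ (fun z hz => ⟨hKH hz.2, rP z.1 z.2 hz.2⟩)
    (fun z hz => ⟨hKH hz.2, rQ z.1 z.2 hz.2⟩) (z0 := (x0, v0)) ⟨mem_univ _, hv0⟩ h0
    (x := (x, v)) ⟨mem_univ _, hv⟩

/-- a good segment -/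
theorem SHPerAll_seg (D : PD) (s τ : ℝ) (hs : s = 1 ∨ s = -1) (hτ : 0 < τ) (v : ℂ) (hv : v ∈ D.H)
    (hsv : 0 < s * v.im) : ∃ v' ∈ Ks s τ, segment ℝ v v' ⊆ D.H := by
  have hss : s * s = 1 := by rcases hs with h | h <;> rw [h] <;> norm_num
  set b : ℝ := min τ (s * v.im) / 2 with hb
  have hb0 : 0 < b := by
    have := lt_min hτ hsv
    linarith
  have hb1 : b < τ := by
    have := min_le_left τ (s * v.im)
    linarith
  have hb2 : b < s * v.im := by
    have := min_le_right τ (s * v.im)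
    linarith
  set φ : ℂ → ℝ := fun c => v.re + (c.re - v.re) * (s * b - v.im) / (c.im - v.im) with hφ
  obtain ⟨r, hr⟩ := (D.CV_finite.image φ).infinite_compl.nonempty
  refine ⟨⟨r, s * b⟩, ⟨?_, ?_⟩, ?_⟩
  · show 0 < s * (s * b)
    rw [← mul_assoc, hss, one_mul]
    exact hb0
  · show s * (s * b) < τ
    rw [← mul_assoc, hss, one_mul]
    exact hb1
  · intro w hw
    rw [segment_eq_image'] at hw
    obtain ⟨t, ⟨ht0, ht1⟩, rfl⟩ := hw
    have him : (v + t • ((⟨r, s * b⟩ : ℂ) - v)).im = v.im + t * (s * b - v.im) := by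
      simp
    have hre : (v + t • ((⟨r, s * b⟩ : ℂ) - v)).re = v.re + t * (r - v.re) := by
      simp
    simp only []
    refine ⟨?_, ?_⟩
    · intro h0
      rw [him] at h0
      have h1 : s * (v.im + t * (s * b - v.im)) = (1 - t) * (s * v.im) + t * b := by
        have h2 : s * (v.im + t * (s * b - v.im)) = (1 - t) * (s * v.im) + t * (s * s * b) := by
          ring
        rw [h2, hss, one_mul]
      rw [h0, mul_zero] at h1
      rcases eq_or_lt_of_le ht0 with h2 | h2
      · rw [← h2] at h1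
        linarith
      · have h3 : 0 ≤ (1 - t) * (s * v.im) := mul_nonneg (by linarith) hsv.le
        have h4 : 0 < t * b := mul_pos h2 hb0
        linarith
    · intro hc
      rcases eq_or_lt_of_le ht0 with h2 | h2
      · rw [← h2, zero_smul, add_zero] at hc
        exact hv.2 hc
      · apply hr
        refine ⟨_, hc, ?_⟩
        rw [hφ]
        simp only []
        rw [him, hre]
        have h5 : s * b - v.im ≠ 0 := by
          intro h6
          have h7 : s * v.im = b := by
            have h8 : v.im = s * b := by linarith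
            rw [h8, ← mul_assoc, hss, one_mul]
          linarith
        have h9 : v.re + t * (r - v.re) - v.re = t * (r - v.re) := by ring
        have h10 : v.im + t * (s * b - v.im) - v.im = t * (s * b - v.im) := by ring
        rw [h9, h10]
        have ht : t ≠ 0 := h2.ne'
        field_simp
        ring

/-- TASK SHPerAll.  Every global solution over a nonreal noncritical value `v` (not necessarily in the
strip) is periodic.

Proof.  Let `s = sign (Im v)`, `τ` from `exists_tau`.  Choose `v'` in the open strip `Ks s τ` such that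
the segment `K = [v,v']` avoids the finite set `CV` (all but finitely many points `v'` of the line
`Im = s τ/2` do; the segment stays in the half plane).  By `sections` there is a continuous family
`P_j` over `V2 × K` with `P_j x v = q x` at one, hence at every `x` (`sec_unique`).  `x ↦ P_j x v'` is
periodic: by `sections` for the strip it is a member `Q_i x v'` of a continuous family over the strip,
which is periodic by `sec_per`.  So `(x,v) ↦ P_j (x + k) v` and `P_j` agree over `v'`, hence over `K`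
(`sec_unique`, `R_per`). -/
theorem sec_per_all (D : PD) (e : ℕ) (he : 1 ≤ e) (v : ℂ) (hv : v ∈ D.H) (q : V2 → ℂ)
    (hq : Continuous q) (hr : ∀ x, D.l x < ‖q x‖ ^ e ∧ D.R 0 x (q x ^ e) = v) : Per q := by
  obtain ⟨τ, hτ, hτH⟩ := D.exists_tau
  obtain ⟨s, hs, hsv⟩ : ∃ s : ℝ, (s = 1 ∨ s = -1) ∧ 0 < s * v.im := by
    rcases lt_or_gt_of_ne hv.1 with h | h
    · exact ⟨-1, Or.inr rfl, by linarith⟩
    · exact ⟨1, Or.inl rfl, by linarith⟩
  have hKsH : Ks s τ ⊆ D.H := by
    intro w hw
    have h1 : |w.im| = s * w.im := by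
      rcases hs with h | h
      · have h2 := hw.1
        rw [h, one_mul] at h2 ⊢
        exact abs_of_pos h2
      · have h2 := hw.1
        rw [h] at h2 ⊢
        rw [abs_of_neg (by linarith)]
        ring
    exact hτH w (by rw [h1]; exact hw.1) (by rw [h1]; exact hw.2)
  obtain ⟨v', hv'K, hseg⟩ := D.SHPerAll_seg s τ hs hτ v hv hsv
  have hvs : v ∈ segment ℝ v v' := left_mem_segment ℝ v v'
  have hvs' : v' ∈ segment ℝ v v' := right_mem_segment ℝ v v'
  have hcs : Convex ℝ (segment ℝ v v') := convex_segment v v'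
  obtain ⟨n, P, hPc, hPr, hPe⟩ := D.sections e he (segment ℝ v v') hcs hseg ⟨v, hvs⟩
  obtain ⟨j, hj, -⟩ := hPe 0 v (q 0) hvs (hr 0).1 (hr 0).2
  obtain ⟨n', Q, hQc, hQr, hQe⟩ := D.sections e he (Ks s τ) (SHPer_Ks_convex s τ) hKsH ⟨v', hv'K⟩
  obtain ⟨i, hi, -⟩ := hQe 0 v' (P j 0 v') hv'K (hPr j 0 v' hvs').1 (hPr j 0 v' hvs').2
  have hsub : (univ : Set V2) ×ˢ ({v} : Set ℂ) ⊆ univ ×ˢ segment ℝ v v' :=
    prod_mono_right (by simpa using hvs)
  have hsub' : (univ : Set V2) ×ˢ ({v'} : Set ℂ) ⊆ univ ×ˢ segment ℝ v v' :=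
    prod_mono_right (by simpa using hvs')
  have hsub2 : (univ : Set V2) ×ˢ ({v'} : Set ℂ) ⊆ univ ×ˢ Ks s τ :=
    prod_mono_right (by simpa using hv'K)
  -- `P j` and `q`
  have hPq : ∀ x, P j x v = q x := by
    intro x
    refine D.SHPerAll_unique e he (convex_singleton v) (by simpa using hv) (P j)
      (fun x _ => q x) ((hPc j).mono hsub) ?_ ?_ ?_ (x0 := 0) (v0 := v) rfl hj rfl
    · exact (hq.comp continuous_fst).continuousOn
    · intro x w hw
      exact hPr j x w (by rw [mem_singleton_iff.1 hw]; exact hvs)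
    · intro x w hw
      rw [mem_singleton_iff.1 hw]
      exact hr x
  -- `P j` and `Q i` over `v'`
  have hPQ : ∀ x, Q i x v' = P j x v' := by
    intro x
    refine D.SHPerAll_unique e he (convex_singleton v') (by simpa using hseg hvs') (Q i)
      (P j) ((hQc i).mono hsub2) ((hPc j).mono hsub') ?_ ?_ (x0 := 0) (v0 := v') rfl hi rfl
    · intro x w hw
      exact hQr i x w (by rw [mem_singleton_iff.1 hw]; exact hv'K)
    · intro x w hw
      exact hPr j x w (by rw [mem_singleton_iff.1 hw]; exact hvs')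
  have hQper := D.sec_per e he s τ hs hτ hKsH (Q i) (hQc i) (hQr i) v' hv'K
  intro x k
  have h1 : P j (x + fun i => (k i : ℝ)) v = P j x v := by
    refine D.SHPerAll_unique e he hcs hseg (fun x w => P j (x + fun i => (k i : ℝ)) w) (P j)
      ?_ (hPc j) ?_ (hPr j) (x0 := x) (v0 := v') hvs' ?_ (x := x) (v := v) hvs
    · have h2 : ContinuousOn (fun z : V2 × ℂ => ((z.1 + (fun i => (k i : ℝ)), z.2) : V2 × ℂ))
          (univ ×ˢ segment ℝ v v') := by
        fun_prop
      exact (hPc j).comp h2 (fun z hz => ⟨mem_univ _, hz.2⟩)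
    · intro x w hw
      refine ⟨?_, ?_⟩
      · have h1 := (hPr j (x + fun i => (k i : ℝ)) w hw).1
        rwa [D.lper x k] at h1
      · have h1 := (hPr j (x + fun i => (k i : ℝ)) w hw).2
        have h2 := D.R_per 0 (P j (x + fun i => (k i : ℝ)) w ^ e) x k
        exact h2.symm.trans h1
    · rw [← hPQ, ← hPQ]
      exact hQper x k
  rw [← hPq, ← hPq, h1]

end PD

end Pool.W4b1b5d.SH
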