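import Pool.Agent.W_4b1b5d_h66.SHStrip

set_option autoImplicit false

namespace Pool.W4b1b5d.SH

open Pool.W4b1b5d.H3 Polynomial Set

/-- A ball around the value, contained in `D.H`, and the sheet through `(x0,P0)`. -/
theorem SHTrans_sheet (D : PD) (e : ℕ) (he : 1 ≤ e) (x0 : V2) (P0 : ℂ) (h : (x0, P0) ∈ D.E e) :
    ∃ (r : ℝ) (Q : V2 → ℂ → ℂ), 0 < r ∧ Metric.ball (D.R 0 x0 (P0 ^ e)) r ⊆ D.H ∧
      ContinuousOn (fun z : V2 × ℂ => Q z.1 z.2) (univ ×ˢ Metric.ball (D.R 0 x0 (P0 ^ e)) r) ∧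
      (∀ x v, v ∈ Metric.ball (D.R 0 x0 (P0 ^ e)) r →
        D.l x < ‖Q x v‖ ^ e ∧ D.R 0 x (Q x v ^ e) = v) ∧
      Q x0 (D.R 0 x0 (P0 ^ e)) = P0 ∧
      ∀ᶠ z in nhds (x0, P0), D.R 0 z.1 (z.2 ^ e) ∈ Metric.ball (D.R 0 x0 (P0 ^ e)) r ∧
        z.2 = Q z.1 (D.R 0 z.1 (z.2 ^ e)) := by
  obtain ⟨h1, h2⟩ := h
  obtain ⟨r, hr, hball⟩ := Metric.isOpen_iff.1 D.H_open _ h2
  obtain ⟨n, P, hc, hs, hu⟩ := D.sections e he (Metric.ball (D.R 0 x0 (P0 ^ e)) r)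
    (convex_ball _ _) hball ⟨_, Metric.mem_ball_self hr⟩
  have hl0 := D.lpos x0
  have hP0 : P0 ≠ 0 := by
    rintro rfl
    rw [norm_zero, zero_pow (by omega)] at h1
    exact absurd h1 (not_lt.2 hl0.le)
  obtain ⟨j0, hj0, -⟩ := hu x0 _ P0 (Metric.mem_ball_self hr) h1 rfl
  have hcR : ContinuousAt (fun z : V2 × ℂ => D.R 0 z.1 (z.2 ^ e)) (x0, P0) := by
    have h3 : ContinuousAt (fun z : V2 × ℂ => D.R 0 z.1 z.2) (x0, P0 ^ e) :=
      (D.R_smooth 0 (z := (x0, P0 ^ e)) (pow_ne_zero _ hP0)).continuousAt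
    have h4 : ContinuousAt (fun z : V2 × ℂ => (z.1, z.2 ^ e)) (x0, P0) := by
      fun_prop
    exact ContinuousAt.comp (f := fun z : V2 × ℂ => (z.1, z.2 ^ e)) (x := (x0, P0)) h3 h4
  have hcP : ∀ j, ContinuousAt (fun z : V2 × ℂ => P j z.1 (D.R 0 z.1 (z.2 ^ e))) (x0, P0) := by
    intro j
    have h3 : ContinuousAt (fun z : V2 × ℂ => P j z.1 z.2) (x0, D.R 0 x0 (P0 ^ e)) :=
      (hc j).continuousAt ((isOpen_univ.prod Metric.isOpen_ball).mem_nhds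
        ⟨mem_univ _, Metric.mem_ball_self hr⟩)
    have h4 : ContinuousAt (fun z : V2 × ℂ => (z.1, D.R 0 z.1 (z.2 ^ e))) (x0, P0) :=
      continuousAt_fst.prodMk hcR
    exact ContinuousAt.comp (f := fun z : V2 × ℂ => (z.1, D.R 0 z.1 (z.2 ^ e)))
      (x := (x0, P0)) h3 h4
  refine ⟨r, P j0, hr, hball, hc j0, hs j0, hj0, ?_⟩
  have h5 : ∀ᶠ z in nhds (x0, P0), D.R 0 z.1 (z.2 ^ e) ∈ Metric.ball (D.R 0 x0 (P0 ^ e)) r :=
    hcR.eventually (Metric.isOpen_ball.mem_nhds (Metric.mem_ball_self hr))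
  have h6 : ∀ᶠ z in nhds (x0, P0), D.l z.1 < ‖z.2‖ ^ e := by
    have h7 : ContinuousAt (fun z : V2 × ℂ => D.l z.1) (x0, P0) :=
      (D.lsm.continuous.comp continuous_fst).continuousAt
    have h8 : ContinuousAt (fun z : V2 × ℂ => ‖z.2‖ ^ e) (x0, P0) := by
      fun_prop
    exact h7.eventually_lt h8 h1
  have h7 : ∀ j, j ≠ j0 → ∀ᶠ z in nhds (x0, P0), P j z.1 (D.R 0 z.1 (z.2 ^ e)) ≠ z.2 := by
    intro j hj
    have h8 : P j x0 (D.R 0 x0 (P0 ^ e)) ≠ P0 := by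
      intro h9
      obtain ⟨i, -, hi⟩ := hu x0 _ P0 (Metric.mem_ball_self hr) h1 rfl
      exact hj ((hi j h9).trans (hi j0 hj0).symm)
    have h9 : ContinuousAt (fun z : V2 × ℂ => P j z.1 (D.R 0 z.1 (z.2 ^ e)) - z.2) (x0, P0) :=
      (hcP j).sub continuousAt_snd
    exact (h9.eventually_ne (sub_ne_zero.2 h8)).mono fun z hz => sub_ne_zero.1 hz
  have h8 : ∀ᶠ z in nhds (x0, P0), ∀ j, j ≠ j0 → P j z.1 (D.R 0 z.1 (z.2 ^ e)) ≠ z.2 := by
    rw [Filter.eventually_all]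
    intro j
    by_cases hj : j = j0
    · exact Filter.Eventually.of_forall fun z h => absurd hj h
    · exact (h7 j hj).mono fun z hz _ => hz
  filter_upwards [h5, h6, h8] with z hz5 hz6 hz8
  refine ⟨hz5, ?_⟩
  obtain ⟨j, hj, -⟩ := hu z.1 _ z.2 hz5 hz6 rfl
  by_cases hjj : j = j0
  · rw [← hjj]
    exact hj.symm
  · exact absurd hj (hz8 j hjj)

theorem SHTrans_ex (D : PD) (e : ℕ) (he : 1 ≤ e) (x0 : V2) (P0 : ℂ) (h : (x0, P0) ∈ D.E e) :
    ∃ q : V2 → ℂ, Continuous q ∧ q x0 = P0 ∧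
      ∀ y, D.l y < ‖q y‖ ^ e ∧ D.R 0 y (q y ^ e) = D.R 0 x0 (P0 ^ e) := by
  obtain ⟨r, Q, hr, hball, hc, hs, h0, -⟩ := SHTrans_sheet D e he x0 P0 h
  refine ⟨fun y => Q y (D.R 0 x0 (P0 ^ e)), ?_, h0, fun y => hs y _ (Metric.mem_ball_self hr)⟩
  rw [continuous_iff_continuousAt]
  intro y
  have h3 : ContinuousAt (fun z : V2 × ℂ => Q z.1 z.2) (y, D.R 0 x0 (P0 ^ e)) :=
    hc.continuousAt ((isOpen_univ.prod Metric.isOpen_ball).mem_nhds
      ⟨mem_univ _, Metric.mem_ball_self hr⟩)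
  have h4 : ContinuousAt (fun z : V2 => (z, D.R 0 x0 (P0 ^ e))) y := by fun_prop
  exact ContinuousAt.comp (f := fun z : V2 => (z, D.R 0 x0 (P0 ^ e))) (x := y) h3 h4

theorem SHTrans_unique (D : PD) (e : ℕ) (he : 1 ≤ e) (v : ℂ) (hv : v ∈ D.H) (q q' : V2 → ℂ)
    (hq : Continuous q) (hq' : Continuous q')
    (h : ∀ y, D.l y < ‖q y‖ ^ e ∧ D.R 0 y (q y ^ e) = v)
    (h' : ∀ y, D.l y < ‖q' y‖ ^ e ∧ D.R 0 y (q' y ^ e) = v) (x0 : V2) (heq : q x0 = q' x0) :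
    q = q' :=
  D.lift_unique e he (x := fun y : V2 => y) (v := fun _ => v) continuous_id continuous_const
    hq hq' (fun t => ⟨hv, h t⟩) h' (t0 := x0) heq

open Classical in
/-- The transport. -/
noncomputable def SHTrans_T (D : PD) (e : ℕ) (he : 1 ≤ e) (x x' : V2) (P : ℂ) : ℂ :=
  if h : (x, P) ∈ D.E e then (SHTrans_ex D e he x P h).choose x' else P

theorem SHTrans_spec (D : PD) (e : ℕ) (he : 1 ≤ e) (x : V2) (P : ℂ) (h : (x, P) ∈ D.E e) :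
    Continuous (fun x' => SHTrans_T D e he x x' P) ∧ SHTrans_T D e he x x P = P ∧
      ∀ y, D.l y < ‖SHTrans_T D e he x y P‖ ^ e ∧
        D.R 0 y (SHTrans_T D e he x y P ^ e) = D.R 0 x (P ^ e) := by
  have h1 := (SHTrans_ex D e he x P h).choose_spec
  have h2 : ∀ x', SHTrans_T D e he x x' P = (SHTrans_ex D e he x P h).choose x' := fun x' => by
    unfold SHTrans_T
    rw [dif_pos h]
  refine ⟨?_, ?_, fun y => ?_⟩
  · have h3 : (fun x' => SHTrans_T D e he x x' P) = (SHTrans_ex D e he x P h).choose :=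
      funext h2
    rw [h3]
    exact h1.1
  · rw [h2]
    exact h1.2.1
  · rw [h2]
    exact h1.2.2 y

theorem SHTrans_eq (D : PD) (e : ℕ) (he : 1 ≤ e) (v : ℂ) (hv : v ∈ D.H) (q : V2 → ℂ)
    (hq : Continuous q) (h : ∀ y, D.l y < ‖q y‖ ^ e ∧ D.R 0 y (q y ^ e) = v) (x x' : V2) :
    SHTrans_T D e he x x' (q x) = q x' := by
  have hE : (x, q x) ∈ D.E e := by
    refine ⟨(h x).1, ?_⟩
    show D.R 0 x (q x ^ e) ∈ D.H
    rw [(h x).2]
    exact hv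
  obtain ⟨h1, h2, h3⟩ := SHTrans_spec D e he x (q x) hE
  have h4 : ∀ y, D.l y < ‖SHTrans_T D e he x y (q x)‖ ^ e ∧
        D.R 0 y (SHTrans_T D e he x y (q x) ^ e) = v := fun y =>
    ⟨(h3 y).1, (h3 y).2.trans (h x).2⟩
  have h5 := SHTrans_unique D e he v hv _ q h1 hq h4 h x h2
  exact congrFun h5 x'

/-- Local formula for the transport. -/
theorem SHTrans_loc (D : PD) (e : ℕ) (he : 1 ≤ e) (x0 : V2) (P0 : ℂ) (h : (x0, P0) ∈ D.E e) :
    ∃ (r : ℝ) (Q : V2 → ℂ → ℂ), 0 < r ∧ Metric.ball (D.R 0 x0 (P0 ^ e)) r ⊆ D.H ∧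
      ContinuousOn (fun z : V2 × ℂ => Q z.1 z.2) (univ ×ˢ Metric.ball (D.R 0 x0 (P0 ^ e)) r) ∧
      (∀ x v, v ∈ Metric.ball (D.R 0 x0 (P0 ^ e)) r →
        D.l x < ‖Q x v‖ ^ e ∧ D.R 0 x (Q x v ^ e) = v) ∧
      ∀ᶠ z in nhds (x0, P0), D.R 0 z.1 (z.2 ^ e) ∈ Metric.ball (D.R 0 x0 (P0 ^ e)) r ∧
        ∀ x', SHTrans_T D e he z.1 x' z.2 = Q x' (D.R 0 z.1 (z.2 ^ e)) := by
  obtain ⟨r, Q, hr, hball, hc, hs, h0, hloc⟩ := SHTrans_sheet D e he x0 P0 h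
  refine ⟨r, Q, hr, hball, hc, hs, ?_⟩
  filter_upwards [hloc] with z hz
  refine ⟨hz.1, fun x' => ?_⟩
  have hq : Continuous fun y => Q y (D.R 0 z.1 (z.2 ^ e)) := by
    rw [continuous_iff_continuousAt]
    intro y
    have h3 : ContinuousAt (fun z : V2 × ℂ => Q z.1 z.2) (y, D.R 0 z.1 (z.2 ^ e)) :=
      hc.continuousAt ((isOpen_univ.prod Metric.isOpen_ball).mem_nhds ⟨mem_univ _, hz.1⟩)
    have h4 : ContinuousAt (fun w : V2 => (w, D.R 0 z.1 (z.2 ^ e))) y := by fun_prop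
    exact ContinuousAt.comp (f := fun w : V2 => (w, D.R 0 z.1 (z.2 ^ e))) (x := y) h3 h4
  have h5 := SHTrans_eq D e he _ (hball hz.1) (fun y => Q y (D.R 0 z.1 (z.2 ^ e))) hq
    (fun y => hs y _ hz.1) z.1 x'
  rw [← h5]
  show SHTrans_T D e he z.1 x' z.2 = SHTrans_T D e he z.1 x' (Q z.1 (D.R 0 z.1 (z.2 ^ e)))
  rw [← hz.2]

theorem SHTrans_E_ne (D : PD) (e : ℕ) (he : 1 ≤ e) (z : V2 × ℂ) (h : z ∈ D.E e) : z.2 ≠ 0 := by
  intro h0
  have h1 := h.1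
  rw [h0, norm_zero, zero_pow (by omega)] at h1
  exact absurd h1 (not_lt.2 (D.lpos z.1).le)

theorem SHTrans_cR (D : PD) (e : ℕ) (he : 1 ≤ e) (z0 : V2 × ℂ) (h : z0 ∈ D.E e) :
    ContinuousAt (fun z : V2 × ℂ => D.R 0 z.1 (z.2 ^ e)) z0 := by
  have hP0 := SHTrans_E_ne D e he z0 h
  have h3 : ContinuousAt (fun z : V2 × ℂ => D.R 0 z.1 z.2) (z0.1, z0.2 ^ e) :=
    (D.R_smooth 0 (z := (z0.1, z0.2 ^ e)) (pow_ne_zero _ hP0)).continuousAt
  have h4 : ContinuousAt (fun z : V2 × ℂ => (z.1, z.2 ^ e)) z0 := by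
    fun_prop
  exact ContinuousAt.comp (f := fun z : V2 × ℂ => (z.1, z.2 ^ e)) (x := z0) h3 h4

/-- TASK SHTrans.  Global transport of the outer solutions of `R(x,P^e) = v`, `v` nonreal and not a
critical value, from `x` to `x'`.

Proof.  For `v ∈ D.H` choose a ball `K ∋ v` in `D.H` and apply `sections`: for every outer solution
`P` over `(x,v)` there is a continuous `q : V2 → ℂ` with `q x = P` and `(R y (q y)^e) = v`
(unique by `sec_unique`); put `T x x' P = q x'` (and `T x x' P = P` if `(x,P) ∉ D.E e`).  The properties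
follow from uniqueness; joint continuity and holomorphy: near `(x,P,x')`
`T x x' P = P_j x' (R(x,P^e))` with the sheet `P_j` over the ball `K` (`j` is locally constant: it is
constant where the continuous functions `P_j x (R(x,P^e))` and `P` agree, and these sets are
open-closed and disjoint). -/
theorem exists_transport (D : PD) (e : ℕ) (he : 1 ≤ e) : ∃ T : V2 → V2 → ℂ → ℂ,
    (∀ x x' P, (x, P) ∈ D.E e → (x', T x x' P) ∈ D.E e ∧
      D.R 0 x' (T x x' P ^ e) = D.R 0 x (P ^ e)) ∧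
    (∀ x P, (x, P) ∈ D.E e → T x x P = P) ∧
    (∀ x x' x'' P, (x, P) ∈ D.E e → T x' x'' (T x x' P) = T x x'' P) ∧
    (∀ x, ContinuousOn (fun z : V2 × ℂ => T x z.1 z.2) {z | (x, z.2) ∈ D.E e}) ∧
    (∀ x', ContinuousOn (fun z : V2 × ℂ => T z.1 x' z.2) (D.E e)) ∧
    (∀ x x', DifferentiableOn ℂ (T x x') {P | (x, P) ∈ D.E e}) ∧
    (∀ (v : ℂ) (q : V2 → ℂ), v ∈ D.H → Continuous q →
      (∀ y, D.l y < ‖q y‖ ^ e ∧ D.R 0 y (q y ^ e) = v) → ∀ x x', T x x' (q x) = q x') := by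
  have hE : ∀ x x' P, (x, P) ∈ D.E e → (x', SHTrans_T D e he x x' P) ∈ D.E e := by
    intro x x' P h
    obtain ⟨-, -, h3⟩ := SHTrans_spec D e he x P h
    refine ⟨(h3 x').1, ?_⟩
    show D.R 0 x' (SHTrans_T D e he x x' P ^ e) ∈ D.H
    rw [(h3 x').2]
    exact h.2
  refine ⟨SHTrans_T D e he, fun x x' P h => ⟨hE x x' P h, ?_⟩, fun x P h => ?_,
    fun x x' x'' P h => ?_, fun x => ?_, fun x' => ?_, fun x x' => ?_, fun v q hv hq h x x' => ?_⟩
  · exact ((SHTrans_spec D e he x P h).2.2 x').2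
  · exact (SHTrans_spec D e he x P h).2.1
  · obtain ⟨h1, h2, h3⟩ := SHTrans_spec D e he x P h
    exact SHTrans_eq D e he _ h.2 (fun y => SHTrans_T D e he x y P) h1 h3 x' x''
  · intro z hz
    apply ContinuousAt.continuousWithinAt
    have hz' : (x, z.2) ∈ D.E e := hz
    obtain ⟨r, Q, hr, hball, hc, hs, hloc⟩ := SHTrans_loc D e he x z.2 hz'
    have h1 : ContinuousAt (fun z : V2 × ℂ => (x, z.2)) z := by fun_prop
    have h2 : ∀ᶠ w in nhds z, SHTrans_T D e he x w.1 w.2 = Q w.1 (D.R 0 x (w.2 ^ e)) := by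
      filter_upwards [h1.eventually hloc] with w hw
      exact hw.2 w.1
    have h3 : ContinuousAt (fun w : V2 × ℂ => Q w.1 (D.R 0 x (w.2 ^ e))) z := by
      have h4 : ContinuousAt (fun w : V2 × ℂ => Q w.1 w.2) (z.1, D.R 0 x (z.2 ^ e)) :=
        hc.continuousAt ((isOpen_univ.prod Metric.isOpen_ball).mem_nhds
          ⟨mem_univ _, Metric.mem_ball_self hr⟩)
      have h5 : ContinuousAt (fun w : V2 × ℂ => D.R 0 x (w.2 ^ e)) z :=
        ContinuousAt.comp (f := fun w : V2 × ℂ => (x, w.2)) (x := z)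
          (SHTrans_cR D e he (x, z.2) hz') h1
      exact ContinuousAt.comp (f := fun w : V2 × ℂ => (w.1, D.R 0 x (w.2 ^ e))) (x := z) h4
        (continuousAt_fst.prodMk h5)
    exact h3.congr (h2.mono fun w hw => hw.symm)
  · intro z hz
    apply ContinuousAt.continuousWithinAt
    obtain ⟨r, Q, hr, hball, hc, hs, hloc⟩ := SHTrans_loc D e he z.1 z.2 hz
    have h2 : ∀ᶠ w in nhds z, SHTrans_T D e he w.1 x' w.2 = Q x' (D.R 0 w.1 (w.2 ^ e)) := by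
      filter_upwards [hloc] with w hw
      exact hw.2 x'
    have h3 : ContinuousAt (fun w : V2 × ℂ => Q x' (D.R 0 w.1 (w.2 ^ e))) z := by
      have h4 : ContinuousAt (fun w : V2 × ℂ => Q w.1 w.2) (x', D.R 0 z.1 (z.2 ^ e)) :=
        hc.continuousAt ((isOpen_univ.prod Metric.isOpen_ball).mem_nhds
          ⟨mem_univ _, Metric.mem_ball_self hr⟩)
      exact ContinuousAt.comp (f := fun w : V2 × ℂ => (x', D.R 0 w.1 (w.2 ^ e))) (x := z) h4
        (continuousAt_const.prodMk (SHTrans_cR D e he z hz))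
    exact h3.congr (h2.mono fun w hw => hw.symm)
  · intro P hP
    apply DifferentiableAt.differentiableWithinAt
    have hP' : (x, P) ∈ D.E e := hP
    obtain ⟨r, Q, hr, hball, hc, hs, hloc⟩ := SHTrans_loc D e he x P hP'
    have hP0 : P ≠ 0 := SHTrans_E_ne D e he (x, P) hP'
    have h1 : ContinuousAt (fun y : ℂ => (x, y)) P := by fun_prop
    have h2 : ∀ᶠ w in nhds P, SHTrans_T D e he x x' w = Q x' (D.R 0 x (w ^ e)) := by
      filter_upwards [h1.eventually hloc] with w hw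
      exact hw.2 x'
    have hR : HasDerivAt (fun w : ℂ => D.R 0 x (w ^ e))
        (D.R 1 x (P ^ e) * ((e : ℂ) * P ^ (e - 1))) P :=
      HasDerivAt.comp P (h₂ := fun y => D.R 0 x y) (h := fun w : ℂ => w ^ e)
        (D.R_hasDerivAt 0 x (pow_ne_zero _ hP0)) (hasDerivAt_pow e P)
    have hcv : ContinuousAt (Q x') (D.R 0 x (P ^ e)) := by
      have h4 : ContinuousAt (fun w : V2 × ℂ => Q w.1 w.2) (x', D.R 0 x (P ^ e)) :=
        hc.continuousAt ((isOpen_univ.prod Metric.isOpen_ball).mem_nhds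
          ⟨mem_univ _, Metric.mem_ball_self hr⟩)
      have h5 : ContinuousAt (fun v : ℂ => (x', v)) (D.R 0 x (P ^ e)) := by fun_prop
      exact ContinuousAt.comp (f := fun v : ℂ => (x', v)) (x := D.R 0 x (P ^ e)) h4 h5
    have hs0 := hs x' _ (Metric.mem_ball_self hr)
    have hEQ : (x', Q x' (D.R 0 x (P ^ e))) ∈ D.E e := by
      refine ⟨hs0.1, ?_⟩
      show D.R 0 x' (Q x' (D.R 0 x (P ^ e)) ^ e) ∈ D.H
      rw [hs0.2]
      exact hP'.2
    have hQ := D.sol_dv e he x' hcv (SHTrans_E_ne D e he _ hEQ)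
      (by
        filter_upwards [Metric.ball_mem_nhds (D.R 0 x (P ^ e)) hr] with w hw
        exact (hs x' w hw).2) (D.E_R1 e _ hEQ)
    have h6 : DifferentiableAt ℂ (fun w => Q x' (D.R 0 x (w ^ e))) P :=
      (HasDerivAt.comp P (h₂ := Q x') (h := fun w : ℂ => D.R 0 x (w ^ e)) hQ hR).differentiableAt
    exact h6.congr_of_eventuallyEq h2
  · exact SHTrans_eq D e he v hv q hq h x x'

end Pool.W4b1b5d.SH
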